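import Pool.Agent.H879.RV.Simple
import Pool.Graph.R_seed8.TH167.TT.NonSp

/-! The criterion by the adjoint class, the explicit form, and emptiness. -/

set_option autoImplicit false

namespace Pool.Agent.H879.RV

open MvPolynomial Pool.Agent.W609 Pool.Agent.W609.CR Pool.Agent.TH167.SH Pool.Agent.TH167.TT
open Pool.Agent.Q310.FP (Standard GE)
open Pool.Agent.K4H28.TC (below above coreA coreB std_nonneg std_c form_of_irr)
open Pool.Agent.Y205.MD
open Pool.Agent.TH387.SH (TF coe_TF card_TF)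
open Pool.Agent.H879.Pos (finrank_ind large small large_add cond_split crk_lower)
open Finset (univ range)

/-- emptiness outside of the positive cone -/
theorem crk_empty {r d : ℕ} {w : Fin (r + 4) → ℕ}
    (hstd : ∀ i j k, i ≠ j → i ≠ k → j ≠ k → w i + w j + w k ≤ d)
    {S : Finset (Fin (r + 4))} {η : ℝ} (hη : 0 ≤ η) (hS9 : S.card ≤ 9)
    (hS : ∀ i, i ∉ S → (w i : ℝ) ^ 2 ≤ 7 * η ∨
      (w i : ℝ) ^ 2 ≤ 4 * (η + below S (fun i => (w i : ℝ)) i))
    (hneg : (d : ℝ) ^ 2 + η < ∑ i, (w i : ℝ) ^ 2) : crk (TF d) w = 0 := by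
  classical
  by_contra hne
  obtain ⟨P, hP⟩ := exists_pts (r + 4)
  obtain ⟨V, hV⟩ : ∃ V : ℝ, V = ∑ i, (w i : ℝ) ^ 2 := ⟨_, rfl⟩
  have hV0 : 0 ≤ V := by
    rw [hV]
    exact Finset.sum_nonneg fun i _ => sq_nonneg _
  have hc : 0 < Module.finrank ℂ ↥(Pool.Agent.H248R5.forms w P d) := by
    rw [finrank_ind w d hP]
    omega
  have hfin := Pool.Agent.H248R6.forms_finite w P d
  obtain ⟨⟨f, hf⟩, hf0⟩ := Module.finrank_pos_iff_exists_ne_zero.1 hc
  have hf0' : f ≠ 0 := fun h => hf0 (Subtype.ext h)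
  rw [← vs_eq_forms] at hf
  unfold VS at hf
  rw [Submodule.mem_inf, mem_homogeneousSubmodule, Submodule.restrictScalars_mem,
    Ideal.mem_iInf] at hf
  obtain ⟨c, hcd⟩ : ∃ c : ℝ, c = √(V + η) := ⟨_, rfl⟩
  have hc0 : 0 ≤ c := by
    rw [hcd]
    exact Real.sqrt_nonneg _
  have hc2 : c ^ 2 = V + η := by
    rw [hcd]
    exact Real.sq_sqrt (by linarith)
  rw [← hV] at hneg
  have hdc : (d : ℝ) ≤ c := by
    refine abs_le_of_sq_le_sq' (?_ : (d : ℝ) ^ 2 ≤ c ^ 2) hc0 |>.2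
    rw [hc2]
    linarith
  have h1 := form_of_irr (p := P) (x := fun i => (w i : ℝ)) (c := c)
    (fun i => Nat.cast_nonneg _) (fun G e' u hG hGe hu => nef_std hP (fun i => Nat.cast_nonneg _)
      (fun i j k hij hik hjk => le_trans (by exact_mod_cast hstd i j k hij hik hjk) hdc)
      (by rw [← hV, hc2]; linarith) (T := S) ⟨hS9, fun i hi => by
        beta_reduce
        rw [← hV, hc2, show V + η - V = η by ring]
        rcases hS i hi with h | h
        · exact Or.inl h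
        · exact Or.inr (Or.inl h)⟩ G e' u hG hGe hu) f hf0' d w hf.1 hf.2
  have h2 : ∑ i, (w i : ℝ) * (w i : ℝ) = V := by
    rw [hV]
    exact Finset.sum_congr rfl fun i _ => by ring
  rw [h2] at h1
  have h3 := pow_le_pow_left₀ hV0 h1 2
  rw [mul_pow, hc2] at h3
  nlinarith

/-- at most nine multiplicities larger than two -/
theorem ge_few {n d : ℕ} {w : Fin n → ℕ} (hn : 4 ≤ n) (hs : Standard d w)
    (h9 : (univ.filter fun i => 2 < w i).card ≤ 9) : GE d w := by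
  obtain ⟨r, rfl⟩ : ∃ r, n = r + 4 := ⟨n - 4, by omega⟩
  obtain ⟨F, hF, h⟩ := nonsp_all (v := w) h9
  refine GE.of_open ⟨F, hF, fun {L _ _} P hP => ?_⟩
  have h1 := h L P hP d hs
  rw [vs_eq_forms] at h1
  exact h1

/-- **the general criterion** -/
theorem ge_adj {n d : ℕ} {w : Fin n → ℕ} (hn : 4 ≤ n) (hs : Standard d w)
    {T : Finset (Fin n)} (hT : Tail T ((d : ℝ) + 3) (fun i => (up (large w 1) i : ℝ)))
    (hbig : ∑ i, up (large w 1) i ^ 2 < (d + 3) ^ 2)
    (heff : ∑ i, up (large w 1) i ^ 2 + ∑ i, up (large w 1) i < (d + 4) * (d + 5)) :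
    GE d w := by
  obtain ⟨r, rfl⟩ : ∃ r, n = r + 4 := ⟨n - 4, by omega⟩
  exact ge_of_crk (crk_adj hs hT hbig heff)

/-- **the explicit criterion** -/
theorem ge_clean {n d : ℕ} {w : Fin n → ℕ} (hn : 4 ≤ n) (hs : Standard d w)
    {S : Finset (Fin n)} (hS : S.card ≤ 9)
    (h1 : ∑ i, (if 2 ≤ w i then (w i + 1) * (w i + 2) else 0) ≤ (d + 3) * (d + 6))
    (h2 : ∀ i, i ∉ S → 2 ≤ w i →
      3 * (w i + 1) ^ 2 + 7 * ∑ j, (if 2 ≤ w j then w j ^ 2 else 0) ≤ 7 * d ^ 2) : GE d w := by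
  classical
  by_cases h9 : (univ.filter fun i => 2 < w i).card ≤ 9
  · exact ge_few hn hs h9
  push Not at h9
  -- the number of the multiplicities larger than one
  obtain ⟨A, hA⟩ : ∃ A, A = univ.filter fun i => 2 ≤ w i := ⟨_, rfl⟩
  have hA10 : 10 ≤ A.card := by
    refine lt_of_lt_of_le h9 (Finset.card_le_card fun i hi => ?_)
    rw [hA, Finset.mem_filter]
    exact ⟨Finset.mem_univ i, by have := (Finset.mem_filter.1 hi).2; omega⟩
  obtain ⟨V, hV⟩ : ∃ V, V = ∑ j, (if 2 ≤ w j then w j ^ 2 else 0) := ⟨_, rfl⟩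
  obtain ⟨σ, hσ⟩ : ∃ σ, σ = ∑ j, (if 2 ≤ w j then w j else 0) := ⟨_, rfl⟩
  have hAc : A.card = ∑ j, (if 2 ≤ w j then 1 else 0) := by
    rw [hA, Finset.card_filter]
  have e1 : ∑ i, (if 2 ≤ w i then (w i + 1) * (w i + 2) else 0) = V + 3 * σ + 2 * A.card := by
    rw [hV, hσ, hAc, Finset.mul_sum, Finset.mul_sum, ← Finset.sum_add_distrib,
      ← Finset.sum_add_distrib]
    refine Finset.sum_congr rfl fun i _ => ?_
    split_ifs <;> ring
  have eup : ∀ i, up (large w 1) i = if 2 ≤ w i then w i + 1 else 0 := by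
    intro i
    unfold up Pool.Agent.H879.Pos.large
    by_cases h : 2 ≤ w i
    · rw [if_pos h, if_pos (show 1 < w i by omega), if_neg (by omega)]
    · rw [if_neg h, if_neg (show ¬ 1 < w i by omega), if_pos rfl]
  have e2 : ∑ i, up (large w 1) i ^ 2 = V + 2 * σ + A.card := by
    rw [hV, hσ, hAc, Finset.mul_sum, ← Finset.sum_add_distrib, ← Finset.sum_add_distrib]
    refine Finset.sum_congr rfl fun i _ => ?_
    rw [eup]
    split_ifs <;> ring
  have e3 : ∑ i, up (large w 1) i = σ + A.card := by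
    rw [hσ, hAc, ← Finset.sum_add_distrib]
    refine Finset.sum_congr rfl fun i _ => ?_
    rw [eup]
    split_ifs <;> ring
  rw [← hV] at h2
  rw [e1] at h1
  have h1' : V + 3 * σ + 2 * A.card ≤ d ^ 2 + 9 * d + 18 := by
    have e4 : (d + 3) * (d + 6) = d ^ 2 + 9 * d + 18 := by ring
    rw [← e4]
    exact h1
  -- the volume
  obtain ⟨i0, hi0A, hi0S⟩ : ∃ i ∈ A, i ∉ S := by
    by_contra hcon
    push Not at hcon
    have := Finset.card_le_card (fun i hi => hcon i hi : A ⊆ S)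
    omega
  have hi02 : 2 ≤ w i0 := by
    rw [hA] at hi0A
    exact (Finset.mem_filter.1 hi0A).2
  have hVd : V < d ^ 2 := by
    have := h2 i0 hi0S hi02
    have h3 : 1 ≤ (w i0 + 1) ^ 2 := Nat.one_le_pow _ _ (by omega)
    omega
  have hself : (d ^ 2 : ℝ) - V ≤ 3 * (((d : ℝ) + 3) ^ 2 - (V + 2 * σ + A.card)) := by
    have h4 : ((V + 3 * σ + 2 * A.card : ℕ) : ℝ) ≤ ((d ^ 2 + 9 * d + 18 : ℕ) : ℝ) := by
      exact_mod_cast h1'
    have h5 : (10 : ℝ) ≤ A.card := by exact_mod_cast hA10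
    push_cast at h4
    nlinarith
  have hVr : (V : ℝ) < (d : ℝ) ^ 2 := by exact_mod_cast hVd
  have ecast : ∑ i, (up (large w 1) i : ℝ) ^ 2 = V + 2 * σ + A.card := by
    have h6 : ((∑ i, up (large w 1) i ^ 2 : ℕ) : ℝ) = ((V + 2 * σ + A.card : ℕ) : ℝ) := by
      rw [e2]
    push_cast at h6
    exact h6
  refine ge_adj hn hs (T := S) ⟨hS, fun i hi => Or.inl ?_⟩ ?_ ?_
  · beta_reduce
    rw [ecast]
    by_cases h : 2 ≤ w i
    · have h7 := h2 i hi h
      have h8 : ((3 * (w i + 1) ^ 2 + 7 * V : ℕ) : ℝ) ≤ ((7 * d ^ 2 : ℕ) : ℝ) := by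
        exact_mod_cast h7
      push_cast at h8
      rw [eup, if_pos h]
      push_cast
      linarith
    · rw [eup, if_neg h]
      push_cast
      nlinarith
  · rw [e2]
    have h9 : ((V + 2 * σ + A.card : ℕ) : ℝ) < (((d + 3) ^ 2 : ℕ) : ℝ) := by
      push_cast
      linarith
    exact_mod_cast h9
  · rw [e2, e3]
    have e5 : (d + 4) * (d + 5) = d ^ 2 + 9 * d + 20 := by ring
    rw [e5]
    omega

end Pool.Agent.H879.RV
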