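import Pool.Agent.H879.RV.Margin
import Pool.Agent.H879.Star.Fin

/-! The expected dimension for the classes with a margin. -/

set_option autoImplicit false

namespace Pool.Agent.H879.RV

open MvPolynomial Pool.Agent.TH167 Pool.Agent.TH167.SHDefs Pool.Agent.H932R3
open Pool.Agent.Q310.FP (Standard GE)
open Pool.Agent.TH387.SH (TF coe_TF card_TF)
open Pool.Agent.Y205.MD
open Pool.Agent.H879.Pos (large finrank_ind)
open Finset (univ)

theorem ge_of_crk {n d : ℕ} {w : Fin n → ℕ}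
    (h : crk (TF d) w = (d + 2).choose 2 - ∑ i, (w i + 1).choose 2) : GE d w := by
  intro K _ _ P hP
  have h1 := finrank_ind w d hP
  rw [h] at h1
  exact h1

/-- The class has a margin. -/
def Margin {n : ℕ} (d : ℕ) (w : Fin n → ℕ) : Prop :=
  ∃ (μ T D : ℕ) (S : Finset (Fin n)), d = D + T ∧
    8796093022208 * (μ + 1) ^ 11 ≤ T ∧ 16384 * (μ + 1) ^ 3 * ∑ i, large w μ i ≤ T * D ∧
    (∀ i j l, i ≠ j → i ≠ l → j ≠ l → large w μ i + large w μ j + large w μ l ≤ D) ∧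
    ∑ i, large w μ i ^ 2 ≤ D ^ 2 ∧ Tail S (D : ℝ) (fun i => (large w μ i : ℝ))

theorem ge_margin {n : ℕ} (hn : 4 ≤ n) {d : ℕ} {w : Fin n → ℕ} (h : Margin d w) : GE d w := by
  obtain ⟨r, rfl⟩ : ∃ r, n = r + 4 := ⟨n - 4, by omega⟩
  obtain ⟨μ, T, D, S, hd, hT1, hT2, hstd, hD0, hS⟩ := h
  exact ge_of_crk (crk_margin hd.symm hT1 hT2 hstd hD0 hS)

theorem std_margin {n : ℕ} {d : ℕ} {w : Fin n → ℕ} (h : Margin d w) : Standard d w := by
  obtain ⟨μ, T, D, S, hd, hT1, hT2, hstd, hD0, hS⟩ := h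
  intro i j l hij hil hjl
  have h1 := hstd i j l hij hil hjl
  have h2 : ∀ i, w i ≤ large w μ i + μ := by
    intro i
    unfold Pool.Agent.H879.Pos.large
    split_ifs <;> omega
  have h3 := h2 i
  have h4 := h2 j
  have h5 := h2 l
  have h6 : μ + 1 ≤ (μ + 1) ^ 11 := Nat.le_self_pow (by norm_num) _
  omega

end Pool.Agent.H879.RV
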