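import Pool.Agent.H879.RV.Main
import Pool.Agent.H879.Pos.Last

/-! Independence above the weight of the multiplicities. -/

set_option autoImplicit false

namespace Pool.Agent.H879.RV

open MvPolynomial Pool.Agent.W609 Pool.Agent.W609.CR Pool.Agent.TH167.SH Pool.Agent.TH167.TT
open Pool.Agent.H879.Pos (rho wt layer wt_sq wt_sum rho_nonneg sqrt_le_rho)
open Finset (univ range)

/-- the multiplicities plus one, on the support -/
def up {n : ℕ} (v : Fin n → ℕ) : Fin n → ℕ := fun i => if v i = 0 then 0 else v i + 1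

theorem up_sub {n : ℕ} (v : Fin n → ℕ) : (fun i => up v i - 1) = v := by
  funext i
  unfold up
  split_ifs with h
  · rw [h]
  · rfl

theorem rho_zero : rho 0 = 0 := by
  unfold Pool.Agent.H879.Pos.rho
  simp

/-- the weight as a longer sum -/
theorem wt_ext {n : ℕ} (v : Fin n → ℕ) {T : ℕ} (hT : univ.sup v ≤ T) :
    wt v = ∑ t ∈ range T, rho (univ.filter fun i => t < v i).card := by
  unfold wt
  refine Finset.sum_subset (Finset.range_mono hT) fun t _ ht => ?_
  rw [Finset.mem_range, not_lt] at ht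
  have h0 : (univ.filter fun i => t < v i) = ∅ := by
    rw [Finset.filter_eq_empty_iff]
    intro i _
    have := Finset.le_sup (f := v) (Finset.mem_univ i)
    omega
  rw [h0, Finset.card_empty, rho_zero]

theorem wt_up {n : ℕ} (v : Fin n → ℕ) :
    wt (up v) = wt v + rho (univ.filter fun i => 0 < v i).card := by
  have h1 : univ.sup (up v) ≤ univ.sup v + 1 := by
    refine Finset.sup_le fun i _ => ?_
    have := Finset.le_sup (f := v) (Finset.mem_univ i)
    unfold up
    split_ifs <;> omega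
  rw [wt_ext (up v) h1, wt_ext v le_rfl, Finset.sum_range_succ']
  congr 1
  · refine Finset.sum_congr rfl fun t _ => ?_
    congr 2
    ext i
    simp only [Finset.mem_filter, Finset.mem_univ, true_and]
    unfold up
    split_ifs <;> omega
  · congr 2
    ext i
    simp only [Finset.mem_filter, Finset.mem_univ, true_and]
    unfold up
    split_ifs <;> omega

theorem supp_up {n : ℕ} (v : Fin n → ℕ) :
    (univ.filter fun i => 0 < up v i) = univ.filter fun i => 0 < v i := by
  ext i
  simp only [Finset.mem_filter, Finset.mem_univ, true_and]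
  unfold up
  split_ifs <;> omega

/-- **Independence above the weight**: points with Nagata's inequality for all subsets. -/
theorem rv_wt {K : Type} [Field K] [IsAlgClosed K] {n : ℕ} {P : Fin n → Fin 2 → K}
    (hP : ∀ i j, P i = P j → i = j)
    (nag : ∀ (S : Finset (Fin n)) (G : MvPolynomial (Fin 3) K) (e : ℕ) (c : Fin n → ℕ),
      Irreducible G → G.IsHomogeneous e → (∀ i, Ord (aff (P i)) (c i) G) →
        ((∑ i ∈ S, c i : ℕ) : ℝ) ≤ rho S.card * e)
    {v : Fin n → ℕ} {d κ : ℕ} (hκ : (univ.filter fun i => 0 < v i).card ≤ κ)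
    (h1 : wt (up v) < d + 3) (h2 : 2 * wt (up v) + √(κ : ℝ) ≤ 2 * d + 9) :
    Module.finrank K ↥(Pool.Agent.H248R5.forms v P d) + ∑ i, (v i + 1).choose 2 =
      (d + 2).choose 2 := by
  classical
  obtain ⟨u, hu⟩ : ∃ u, u = up v := ⟨_, rfl⟩
  obtain ⟨ω, hω⟩ : ∃ ω, ω = wt u := ⟨_, rfl⟩
  have hω0 : 0 ≤ ω := by
    rw [hω]
    exact Pool.Agent.H879.Pos.wt_nonneg _
  rw [← hu, ← hω] at h1 h2
  have hκ' : (univ.filter fun i => 0 < u i).card ≤ κ := by
    rw [hu, supp_up]
    exact hκ
  have hsq : ((∑ i, u i ^ 2 : ℕ) : ℝ) ≤ ω ^ 2 := by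
    rw [hω]
    exact wt_sq u
  have hsum : ((∑ i, u i : ℕ) : ℝ) ≤ √(κ : ℝ) * ω := by
    rw [hω]
    exact wt_sum hκ'
  have hκ0 : (0 : ℝ) ≤ √(κ : ℝ) := Real.sqrt_nonneg _
  -- effectivity
  have hcount : ∑ i, (u i + 1).choose 2 < (d + 3 + 2).choose 2 := by
    have e1 : 2 * ∑ i, (u i + 1).choose 2 = ∑ i, u i ^ 2 + ∑ i, u i := by
      rw [Finset.mul_sum, ← Finset.sum_add_distrib]
      refine Finset.sum_congr rfl fun i _ => ?_
      rw [Pool.Agent.H879.Pos.cond_two]
      ring
    have e2 : 2 * (d + 3 + 2).choose 2 = (d + 4) * (d + 5) := by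
      have := Pool.Agent.H879.Pos.cond_two (d + 4)
      exact this
    have h3 : ((∑ i, u i ^ 2 : ℕ) : ℝ) + ((∑ i, u i : ℕ) : ℝ) < ((d : ℝ) + 4) * (d + 5) := by
      nlinarith
    have h4 : ∑ i, u i ^ 2 + ∑ i, u i < (d + 4) * (d + 5) := by
      exact_mod_cast h3
    omega
  have h5 := Pool.Agent.W609.CR.le_dim u P (d + 3)
  have h6 : 0 < Module.finrank K ↥(Pool.Agent.H248R5.forms u P (d + 3)) := by omega
  have hfin := Pool.Agent.H248R6.forms_finite u P (d + 3)
  obtain ⟨⟨f, hf⟩, hf0⟩ := Module.finrank_pos_iff_exists_ne_zero.1 h6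
  have hf0' : f ≠ 0 := fun h => hf0 (Subtype.ext h)
  rw [← vs_eq_forms] at hf
  have hf' := hf
  unfold VS at hf'
  rw [Submodule.mem_inf, mem_homogeneousSubmodule, Submodule.restrictScalars_mem,
    Ideal.mem_iInf] at hf'
  have key := rv hP (D := d + 3) (by omega) (u := u) hf0' hf'.1 hf'.2 ?_ ?_
  · have e1 : (fun i => u i - 1) = v := by
      rw [hu]
      exact up_sub v
    have e2 : ∀ i, u i - 1 = v i := fun i => congrFun e1 i
    rw [e1] at key
    simp only [e2] at key
    exact key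
  · intro G e c hG hGe hc
    have h7 : ((∑ i, u i * c i : ℕ) : ℝ) ≤ ω * e := by
      rw [layer, hω, wt, Finset.sum_mul]
      push_cast
      refine Finset.sum_le_sum fun t _ => ?_
      have h8 := nag (univ.filter fun i => t < u i) G e c hG hGe hc
      push_cast at h8
      exact h8
    have h9 : ω * e ≤ ((d : ℝ) + 3) * e := mul_le_mul_of_nonneg_right h1.le (Nat.cast_nonneg e)
    have h10 : ((∑ i, u i * c i : ℕ) : ℝ) ≤ (((d + 3) * e : ℕ) : ℝ) := by
      push_cast at h7 ⊢
      linarith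
    exact_mod_cast h10
  · have h7 : ((∑ i, u i ^ 2 : ℕ) : ℝ) < ((d : ℝ) + 3) ^ 2 := by nlinarith
    exact_mod_cast h7

end Pool.Agent.H879.RV
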