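import Pool.Agent.H879.RV.Defs

set_option autoImplicit false

namespace Pool.Agent.H879.RV

open Polynomial
open Pool.Agent.H350R3.GR (ptI)

variable {K : Type} [Field K]

/-- the order at the origin is at least `m` -/
def colonV (m : ℕ) (f : K[X][X]) : Prop := ∀ l i : ℕ, l + i < m → (f.coeff l).coeff i = 0

theorem colon_mem {a b : K} {m : ℕ} {f : K[X][X]} :
    f ∈ ptI a b m ↔ colonV m (Pool.Agent.H932R2.sh a (C b) f) := by
  unfold ptI
  rw [Pool.Agent.H932R2.mem_cIdeal_iff]
  constructor
  · intro h l i hli
    exact h l (by omega) i (by omega)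
  · intro h l hl i hi
    exact h l i (by omega)

/-- the lowest form has a term with the largest exponent of the outer variable -/
theorem colon_top {n : ℕ} {f : K[X][X]} (h : colonV n f) (h' : ¬ colonV (n + 1) f) :
    ∃ l ≤ n, (f.coeff l).coeff (n - l) ≠ 0 ∧ ∀ p s : ℕ, l < p → p + s = n →
      (f.coeff p).coeff s = 0 := by
  classical
  obtain ⟨l₀, hl₀, hne₀⟩ : ∃ l ≤ n, (f.coeff l).coeff (n - l) ≠ 0 := by
    by_contra hcon
    push Not at hcon
    apply h'
    intro l i hli
    rcases Nat.lt_or_ge (l + i) n with h1 | h1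
    · exact h l i h1
    · have h2 : i = n - l := by omega
      rw [h2]
      exact hcon l (by omega)
  obtain ⟨l, hl, hmax⟩ := Finset.exists_max_image
    ((Finset.range (n + 1)).filter fun l => (f.coeff l).coeff (n - l) ≠ 0) id
    ⟨l₀, Finset.mem_filter.2 ⟨Finset.mem_range.2 (by omega), hne₀⟩⟩
  rw [Finset.mem_filter, Finset.mem_range] at hl
  refine ⟨l, by omega, hl.2, fun p s hp hps => ?_⟩
  by_contra hne
  have h2 : s = n - p := by omega
  rw [h2] at hne
  have := hmax p (Finset.mem_filter.2 ⟨Finset.mem_range.2 (by omega), hne⟩)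
  simp only [id] at this
  omega

theorem colon_aux {c m : ℕ} {f g : K[X][X]} (hf : colonV c f) (hf' : ¬ colonV (c + 1) f)
    (hfg : colonV (c + m) (f * g)) : colonV m g := by
  classical
  have key : ∀ n, n ≤ m → colonV n g := by
    intro n
    induction n with
    | zero =>
      intro _ l i h
      omega
    | succ n ih =>
      intro hn
      have hg := ih (by omega)
      by_contra hg'
      obtain ⟨l₁, hl₁, hn₁, hm₁⟩ := colon_top hf hf'
      obtain ⟨l₂, hl₂, hn₂, hm₂⟩ := colon_top hg hg'
      have h1 : ((f * g).coeff (l₁ + l₂)).coeff ((c - l₁) + (n - l₂)) = 0 :=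
        hfg _ _ (by omega)
      rw [coeff_mul, finsetSum_coeff, Finset.sum_eq_single (l₁, l₂)] at h1
      · rw [coeff_mul, Finset.sum_eq_single (c - l₁, n - l₂)] at h1
        · exact (mul_ne_zero hn₁ hn₂) h1
        · rintro ⟨s, t⟩ hst hne
          rw [Finset.HasAntidiagonal.mem_antidiagonal] at hst
          simp only at hst ⊢
          rcases lt_trichotomy s (c - l₁) with h2 | h2 | h2
          · rw [hf l₁ s (by omega), zero_mul]
          · exact absurd (Prod.ext h2 (by simp only; omega)) hne
          · rw [hg l₂ t (by omega), mul_zero]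
        · intro h2
          exfalso
          apply h2
          rw [Finset.HasAntidiagonal.mem_antidiagonal]
      · rintro ⟨p, q⟩ hpq hne
        rw [Finset.HasAntidiagonal.mem_antidiagonal] at hpq
        simp only at hpq ⊢
        rw [coeff_mul]
        refine Finset.sum_eq_zero ?_
        rintro ⟨s, t⟩ hst
        rw [Finset.HasAntidiagonal.mem_antidiagonal] at hst
        simp only at hst ⊢
        rcases lt_trichotomy (p + s) c with h2 | h2 | h2
        · rw [hf p s h2, zero_mul]
        · have h3 : q + t = n := by omega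
          rcases lt_trichotomy p l₁ with h4 | h4 | h4
          · rw [hm₂ q t (by omega) h3, mul_zero]
          · exact absurd (Prod.ext h4 (by simp only; omega)) hne
          · rw [hm₁ p s h4 h2, zero_mul]
        · rw [hg q t (by omega), mul_zero]
      · intro h2
        exfalso
        apply h2
        rw [Finset.HasAntidiagonal.mem_antidiagonal]
  exact key m le_rfl

theorem colon {a b : K} {c m : ℕ} {F G : K[X][X]} (hF : F ∈ ptI a b c)
    (hF' : F ∉ ptI a b (c + 1)) (hFG : F * G ∈ ptI a b (c + m)) : G ∈ ptI a b m := by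
  rw [colon_mem] at hF hF' hFG ⊢
  rw [map_mul] at hFG
  exact colon_aux hF hF' hFG

end Pool.Agent.H879.RV
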