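import Pool.Agent.H879.RV.Defs

set_option autoImplicit false

namespace Pool.Agent.H879.RV

open Polynomial
open Pool.Agent.H350R3.GR (ptI)

variable {K : Type} [Field K]

/-- a residue of degree `k` is detected by the multiplication by `X ^ (e - 1 - k)` -/
theorem eq_zero_of_coeff {R : Type} [CommRing R] {F N : R[X]} (hF : F.Monic)
    (he : 1 ≤ F.natDegree) (hN : N.degree < F.degree)
    (h : ∀ j : ℕ, ((N * X ^ j) %ₘ F).coeff (F.natDegree - 1) = 0) : N = 0 := by
  by_contra h0
  have : Nontrivial R[X] := nontrivial_of_ne N 0 h0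
  have : Nontrivial R := Polynomial.nontrivial_iff.1 inferInstance
  have hk : N.natDegree < F.natDegree := natDegree_lt_natDegree h0 hN
  obtain ⟨j, hj⟩ : ∃ j, F.natDegree - 1 = N.natDegree + j :=
    ⟨F.natDegree - 1 - N.natDegree, by omega⟩
  have h1 := h j
  have h2 : (N * X ^ j) %ₘ F = N * X ^ j := by
    rw [modByMonic_eq_self_iff hF]
    refine degree_lt_degree ?_
    have h3 : (N * X ^ j).natDegree ≤ N.natDegree + j :=
      natDegree_mul_le.trans (Nat.add_le_add_left (natDegree_X_pow_le _) _)
    omega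
  rw [h2, hj, coeff_mul_X_pow] at h1
  exact h0 (leadingCoeff_eq_zero.1 h1)

theorem mod_mul {R : Type} [CommRing R] {F P : R[X]} (hF : F.Monic) (Q : R[X]) :
    ((P %ₘ F) * Q) %ₘ F = (P * Q) %ₘ F := by
  have h1 : P = P %ₘ F + F * (P /ₘ F) := (modByMonic_add_div P F).symm
  conv_rhs => rw [h1, add_mul, add_modByMonic]
  have h2 : (F * (P /ₘ F) * Q) %ₘ F = 0 := by
    rw [modByMonic_eq_zero_iff_dvd hF]
    exact ⟨(P /ₘ F) * Q, by ring⟩
  rw [h2, add_zero]

theorem div_H {F : K[X][X]} (hF : F.Monic) (he : 1 ≤ F.natDegree) {D : K[X]} (hD : D.Monic)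
    (lam : K[X][X] →ₗ[K] K) {H : K[X][X]}
    (h : ∀ G, lam G = ((((H * G) %ₘ F).coeff (F.natDegree - 1)) %ₘ D).coeff (D.natDegree - 1))
    {G : K[X][X]} (hG : ∀ M, lam (G * M) = 0) :
    ∃ G' : K[X][X], G'.degree < F.degree ∧ (H * G) %ₘ F = C D * G' := by
  have hNd : ((H * G) %ₘ F).degree < F.degree := degree_modByMonic_lt _ hF
  have hD0 : D ≠ 0 := hD.ne_zero
  -- the coefficients are divisible by `D`
  have key : ∀ i, D ∣ ((H * G) %ₘ F).coeff i := by
    rcases Nat.eq_zero_or_pos D.natDegree with hd | hd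
    · intro i
      rw [hD.natDegree_eq_zero.1 hd]
      exact one_dvd _
    · -- the traces are divisible
      have htau : ∀ j : ℕ, D ∣ ((((H * G) %ₘ F) * X ^ j) %ₘ F).coeff (F.natDegree - 1) := by
        intro j
        rw [← modByMonic_eq_zero_iff_dvd hD]
        refine eq_zero_of_coeff hD hd (degree_modByMonic_lt _ hD) fun l => ?_
        rw [mod_mul hD]
        have h1 := hG (C (X ^ l) * X ^ j)
        rw [h] at h1
        have h2 : (H * (G * (C (X ^ l) * X ^ j))) %ₘ F =
            C (X ^ l) * ((((H * G) %ₘ F) * X ^ j) %ₘ F) := by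
          have h3 : H * (G * (C (X ^ l) * X ^ j)) = (X ^ l : K[X]) • (H * G * X ^ j) := by
            rw [smul_eq_C_mul]
            ring
          rw [h3, smul_modByMonic, smul_eq_C_mul, mod_mul hF]
        rw [h2, coeff_C_mul] at h1
        rw [mul_comm]
        exact h1
      have hmap : ((H * G) %ₘ F).map (Ideal.Quotient.mk (Ideal.span {D})) = 0 := by
        have : Nontrivial (K[X] ⧸ Ideal.span {D}) := by
          refine Ideal.Quotient.nontrivial_iff.2 ?_
          rw [Ne, Ideal.span_singleton_eq_top]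
          intro hu
          have := natDegree_eq_zero_of_isUnit hu
          omega
        have hnd : (F.map (Ideal.Quotient.mk (Ideal.span {D}))).natDegree = F.natDegree :=
          hF.natDegree_map _
        refine eq_zero_of_coeff (hF.map _) (by rw [hnd]; exact he) ?_ fun j => ?_
        · rw [hF.degree_map]
          exact lt_of_le_of_lt degree_map_le hNd
        · rw [hnd]
          have h1 : ((H * G) %ₘ F).map (Ideal.Quotient.mk (Ideal.span {D})) * X ^ j =
              (((H * G) %ₘ F) * X ^ j).map (Ideal.Quotient.mk (Ideal.span {D})) := by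
            rw [Polynomial.map_mul, Polynomial.map_pow, Polynomial.map_X]
          rw [h1, ← map_modByMonic _ hF, coeff_map, Ideal.Quotient.eq_zero_iff_mem,
            Ideal.mem_span_singleton]
          exact htau j
      intro i
      have h1 := congrArg (fun P => P.coeff i) hmap
      simp only [coeff_map, coeff_zero] at h1
      rwa [Ideal.Quotient.eq_zero_iff_mem, Ideal.mem_span_singleton] at h1
  obtain ⟨G', hG'⟩ := (C_dvd_iff_dvd_coeff D _).2 key
  refine ⟨G', ?_, hG'⟩
  have h1 : (C D * G').degree = G'.degree := degree_C_mul hD0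
  rw [← h1, ← hG']
  exact hNd

end Pool.Agent.H879.RV
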