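import Pool.Agent.H879.RV.Defs

set_option autoImplicit false

namespace Pool.Agent.H879.RV

open Polynomial
open Pool.Agent.H350R3.GR (ptI)

section

variable {R : Type} [CommRing R]

/-- the Horner polynomials -/
noncomputable def eh_hb (Q : R[X]) (k : ℕ) : R[X] := (Polynomial.divX)^[k] Q

theorem eh_succ (Q : R[X]) (k : ℕ) : eh_hb Q (k + 1) = divX (eh_hb Q k) := by
  unfold eh_hb
  rw [Function.iterate_succ_apply']

theorem eh_coeff (Q : R[X]) (k n : ℕ) : (eh_hb Q k).coeff n = Q.coeff (n + k) := by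
  induction k generalizing n with
  | zero => rfl
  | succ k ih =>
    rw [eh_succ, coeff_divX, ih]
    congr 1
    ring

/-- the functional `P ↦ coeff_(q-1) (P mod Q)` -/
noncomputable def eh_rho (Q : R[X]) : R[X] →ₗ[R] R :=
  (lcoeff R (Q.natDegree - 1)).comp (modByMonicHom Q)

theorem eh_rho_apply (Q P : R[X]) : eh_rho Q P = (P %ₘ Q).coeff (Q.natDegree - 1) := rfl

theorem eh_rho_mul {Q : R[X]} (hQ : Q.Monic) (P : R[X]) : eh_rho Q (Q * P) = 0 := by
  rw [eh_rho_apply, (modByMonic_eq_zero_iff_dvd hQ).2 (dvd_mul_right Q P), coeff_zero]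

theorem eh_rho_lt [Nontrivial R] {Q : R[X]} (hQ : Q.Monic) {P : R[X]}
    (h : ∀ n, Q.natDegree ≤ n → P.coeff n = 0) : eh_rho Q P = P.coeff (Q.natDegree - 1) := by
  rw [eh_rho_apply, (modByMonic_eq_self_iff hQ).2]
  rw [degree_eq_natDegree hQ.ne_zero, degree_lt_iff_coeff_zero]
  exact h

theorem eh_rho_hb [Nontrivial R] {Q : R[X]} (hQ : Q.Monic) (j : ℕ) :
    j < Q.natDegree → ∀ i : ℕ, eh_rho Q (eh_hb Q (i + 1) * X ^ j) = if i = j then 1 else 0 := by
  induction j with
  | zero =>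
    intro hj i
    rw [pow_zero, mul_one, eh_rho_lt hQ (fun n hn => ?_), eh_coeff]
    · by_cases hi : i = 0
      · rw [if_pos hi, hi]
        have : Q.natDegree - 1 + (0 + 1) = Q.natDegree := by omega
        rw [this]
        exact hQ.coeff_natDegree
      · rw [if_neg hi]
        exact coeff_eq_zero_of_natDegree_lt (by omega)
    · rw [eh_coeff]
      exact coeff_eq_zero_of_natDegree_lt (by omega)
  | succ j ih =>
    intro hj i
    have e1 : eh_hb Q (i + 1) * X = eh_hb Q i - C (Q.coeff i) := by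
      have h1 := divX_mul_X_add (eh_hb Q i)
      rw [← eh_succ, eh_coeff, zero_add] at h1
      rw [← h1]
      ring
    have e2 : eh_hb Q (i + 1) * X ^ (j + 1) =
        eh_hb Q i * X ^ j - Q.coeff i • (X ^ j : R[X]) := by
      rw [pow_succ', ← mul_assoc, e1, sub_mul, smul_eq_C_mul]
    have e3 : eh_rho Q (X ^ j) = 0 := by
      rw [eh_rho_lt hQ (fun n hn => ?_), coeff_X_pow, if_neg (by omega)]
      rw [coeff_X_pow, if_neg (by omega)]
    rw [e2, map_sub, map_smul, e3, smul_zero, sub_zero]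
    rcases i with _ | i
    · rw [if_neg (by omega)]
      exact eh_rho_mul hQ _
    · rw [ih (by omega) i]
      simp

theorem eh_dual [Nontrivial R] {Q : R[X]} (hQ : Q.Monic) (c : ℕ → R) (j : ℕ)
    (hj : j < Q.natDegree) :
    eh_rho Q ((∑ i ∈ Finset.range Q.natDegree, C (c i) * eh_hb Q (i + 1)) * X ^ j) = c j := by
  rw [Finset.sum_mul, map_sum]
  have : ∀ i, eh_rho Q (C (c i) * eh_hb Q (i + 1) * X ^ j) = if j = i then c i else 0 := by
    intro i
    rw [mul_assoc, ← smul_eq_C_mul, map_smul, eh_rho_hb hQ j hj i, smul_eq_mul]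
    by_cases h : i = j
    · rw [if_pos h, if_pos h.symm, mul_one]
    · rw [if_neg h, if_neg (fun h' => h h'.symm), mul_zero]
  rw [Finset.sum_congr rfl fun i _ => this i, Finset.sum_ite_eq, if_pos (Finset.mem_range.2 hj)]

theorem eh_sum {r : R[X]} {q : ℕ} (hr : ∀ n, q ≤ n → r.coeff n = 0) :
    r = ∑ j ∈ Finset.range q, C (r.coeff j) * X ^ j := by
  ext n
  simp only [finsetSum_coeff, coeff_C_mul, coeff_X_pow, mul_ite, mul_one, mul_zero]
  rw [Finset.sum_ite_eq]
  split_ifs with h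
  · rfl
  · exact hr n (by simpa using h)

theorem eh_mod [Nontrivial R] {Q : R[X]} (hQ : Q.Monic) (p : R[X]) :
    p %ₘ Q = ∑ j ∈ Finset.range Q.natDegree, C ((p %ₘ Q).coeff j) * X ^ j := by
  refine eh_sum fun n hn => ?_
  have h1 := degree_modByMonic_lt p hQ
  rw [degree_eq_natDegree hQ.ne_zero, degree_lt_iff_coeff_zero] at h1
  exact h1 n hn

theorem eh_rho_mod [Nontrivial R] {Q : R[X]} (hQ : Q.Monic) (p S : R[X]) :
    eh_rho Q (S * p) = ∑ j ∈ Finset.range Q.natDegree,
      (p %ₘ Q).coeff j * eh_rho Q (S * X ^ j) := by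
  have h1 : S * p = Q * (S * (p /ₘ Q)) + S * (p %ₘ Q) := by
    have h2 := modByMonic_add_div p Q
    calc S * p = S * (p %ₘ Q + Q * (p /ₘ Q)) := by rw [h2]
      _ = _ := by ring
  rw [h1, map_add, eh_rho_mul hQ, zero_add]
  conv_lhs => rw [eh_mod hQ p]
  rw [Finset.mul_sum, map_sum]
  refine Finset.sum_congr rfl fun j _ => ?_
  rw [← smul_eq_C_mul, mul_smul_comm, map_smul, smul_eq_mul]

theorem eh_l [Nontrivial R] {Q : R[X]} (hQ : Q.Monic) (l : R[X] →ₗ[R] R)
    (hl : ∀ p, l (Q * p) = 0) (p : R[X]) :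
    eh_rho Q ((∑ i ∈ Finset.range Q.natDegree, C (l (X ^ i)) * eh_hb Q (i + 1)) * p) = l p := by
  rw [eh_rho_mod hQ]
  have h2 := modByMonic_add_div p Q
  have h3 : l p = l (p %ₘ Q) := by
    conv_lhs => rw [← h2]
    rw [map_add, hl, add_zero]
  rw [h3]
  conv_rhs => rw [eh_mod hQ p]
  rw [map_sum]
  refine Finset.sum_congr rfl fun j hj => ?_
  rw [eh_dual hQ _ j (Finset.mem_range.1 hj), ← smul_eq_C_mul, map_smul, smul_eq_mul]

end

variable {K : Type} [Field K]

theorem exists_H {F : K[X][X]} (hF : F.Monic) (hF' : TD (F.natDegree : ℤ) F)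
    (he : 1 ≤ F.natDegree) {D : K[X]} (hD : D.Monic) (lam : K[X][X] →ₗ[K] K)
    (h1 : ∀ G, lam (F * G) = 0) (h2 : ∀ G, lam (C D * G) = 0) {d : ℤ}
    (h3 : ∀ G, TD d G → lam G = 0) :
    ∃ H : K[X][X], H.degree < F.degree ∧ TD (D.natDegree + F.natDegree - 3 - d) H ∧
      ∀ G, lam G = ((((H * G) %ₘ F).coeff (F.natDegree - 1)) %ₘ D).coeff (D.natDegree - 1) := by
  obtain ⟨phi, hphi⟩ : ∃ phi : K[X][X] → K[X], phi = fun G =>
    ∑ j ∈ Finset.range D.natDegree, C (lam (C (X ^ j) * G)) * eh_hb D (j + 1) := ⟨_, rfl⟩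
  have hp : ∀ (p : K[X]) (G : K[X][X]), eh_rho D (p * phi G) = lam (C p * G) := by
    intro p G
    let l : K[X] →ₗ[K] K :=
      { toFun := fun p => lam (C p * G)
        map_add' := fun x y => by rw [C_add, add_mul, map_add]
        map_smul' := fun c x => by
          rw [← smul_C, smul_mul_assoc, map_smul]
          rfl }
    have h4 := eh_l hD l (fun p => by
      show lam (C (D * p) * G) = 0
      rw [C_mul, mul_assoc]
      exact h2 _) p
    rw [mul_comm, hphi]
    exact h4
  obtain ⟨H, hH⟩ : ∃ H : K[X][X], H = ∑ i ∈ Finset.range F.natDegree,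
    C (phi (X ^ i)) * eh_hb F (i + 1) := ⟨_, rfl⟩
  have hcoef : ∀ k, H.coeff k = ∑ i ∈ Finset.range F.natDegree,
      phi (X ^ i) * F.coeff (k + (i + 1)) := by
    intro k
    rw [hH, finsetSum_coeff]
    refine Finset.sum_congr rfl fun i _ => ?_
    rw [coeff_C_mul, eh_coeff]
  refine ⟨H, ?_, ?_, ?_⟩
  · rw [degree_eq_natDegree hF.ne_zero, degree_lt_iff_coeff_zero]
    intro m hm
    rw [hcoef]
    refine Finset.sum_eq_zero fun i _ => ?_
    rw [coeff_eq_zero_of_natDegree_lt (by omega), mul_zero]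
  · intro k n hkn
    rw [hcoef, finsetSum_coeff] at hkn
    obtain ⟨i, hi, hi0⟩ := Finset.exists_ne_zero_of_sum_ne_zero hkn
    rw [coeff_mul] at hi0
    obtain ⟨⟨a, b⟩, hab, hab0⟩ := Finset.exists_ne_zero_of_sum_ne_zero hi0
    rw [Finset.HasAntidiagonal.mem_antidiagonal] at hab
    simp only at hab hab0
    have hb := hF' _ _ (right_ne_zero_of_mul hab0)
    have ha := left_ne_zero_of_mul hab0
    rw [hphi] at ha
    simp only at ha
    rw [finsetSum_coeff] at ha
    obtain ⟨j, hj, hj0⟩ := Finset.exists_ne_zero_of_sum_ne_zero ha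
    rw [coeff_C_mul, eh_coeff] at hj0
    have hlam := left_ne_zero_of_mul hj0
    have hDj : a + (j + 1) ≤ D.natDegree := le_natDegree_of_ne_zero (right_ne_zero_of_mul hj0)
    have hij : d < (i : ℤ) + j := by
      by_contra hcon
      push Not at hcon
      apply hlam
      apply h3
      intro i' j' h
      rw [coeff_C_mul, coeff_X_pow] at h
      by_cases hii : i' = i
      · rw [if_pos hii, mul_one, coeff_X_pow] at h
        by_cases hjj : j' = j
        · rw [hii, hjj]
          exact hcon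
        · rw [if_neg hjj] at h
          exact absurd rfl h
      · rw [if_neg hii, mul_zero, coeff_zero] at h
        exact absurd rfl h
    push_cast at hb
    have hDj' : (a : ℤ) + (j + 1) ≤ D.natDegree := by exact_mod_cast hDj
    have hab' : (a : ℤ) + b = n := by exact_mod_cast hab
    linarith
  · intro G
    show lam G = eh_rho D (eh_rho F (H * G))
    rw [eh_rho_mod hF, map_sum]
    have h4 : lam G = lam (G %ₘ F) := by
      have h5 := modByMonic_add_div G F
      conv_lhs => rw [← h5]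
      rw [map_add, h1, add_zero]
    rw [h4]
    conv_lhs => rw [eh_mod hF G]
    rw [map_sum]
    refine Finset.sum_congr rfl fun j hj => ?_
    rw [← hp, hH, eh_dual hF _ j (Finset.mem_range.1 hj)]

end Pool.Agent.H879.RV
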