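import Pool.Agent.H879.RV.LocOrd
import Pool.Agent.H879.RV.Colon

set_option autoImplicit false

namespace Pool.Agent.H879.RV

open Polynomial
open Pool.Agent.H350R3.GR (ptI)

variable {K : Type} [Field K]

/-- powers of ideals -/
noncomputable def so_ipow {R : Type} [CommRing R] (I : Ideal R) (m : ℕ) : Ideal R := I ^ m

theorem so_ipow_zero {R : Type} [CommRing R] (I : Ideal R) : so_ipow I 0 = ⊤ := by
  unfold so_ipow
  rw [pow_zero, Ideal.one_eq_top]

theorem so_ipow_one {R : Type} [CommRing R] (I : Ideal R) : so_ipow I 1 = I := pow_one I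

theorem so_ipow_mono {R : Type} [CommRing R] (I : Ideal R) {m n : ℕ} (h : m ≤ n) :
    so_ipow I n ≤ so_ipow I m := Ideal.pow_le_pow_right h

theorem so_ipow_mem {R : Type} [CommRing R] (I : Ideal R) {x : R} (hx : x ∈ I) (m : ℕ) :
    x ^ m ∈ so_ipow I m := Ideal.pow_mem_pow hx m

theorem so_ipow_mul_mem {R : Type} [CommRing R] (I : Ideal R) {x y : R} {m n : ℕ}
    (hx : x ∈ so_ipow I m) (hy : y ∈ so_ipow I n) : x * y ∈ so_ipow I (m + n) := by
  unfold so_ipow at *
  rw [pow_add]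
  exact Ideal.mul_mem_mul hx hy

theorem so_ipow_le {R : Type} [CommRing R] (x y : R) (m : ℕ) (T : Ideal R)
    (hT : ∀ k ≤ m, y ^ (m - k) * x ^ k ∈ T) : so_ipow (Ideal.span {x, y}) m ≤ T := by
  have h0 : (Ideal.span {x, y} : Ideal R) = Ideal.span {x} + Ideal.span {y} := by
    rw [Ideal.span_insert]
    rfl
  unfold so_ipow
  rw [h0, add_pow, Ideal.sum_eq_sup, Finset.sup_le_iff]
  intro k hk
  rw [Finset.mem_range] at hk
  refine (Ideal.mul_le_left).trans ?_
  rw [Ideal.span_singleton_pow, Ideal.span_singleton_pow,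
    Ideal.span_singleton_mul_span_singleton, Ideal.span_singleton_le_iff_mem, mul_comm]
  exact hT k (by omega)

/-- the ideal of a point -/
noncomputable def so_I (a b : K) : Ideal K[X][X] := Ideal.span {X - C (C b), C (X - C a)}

theorem so_s_mem1 (a b : K) : (X - C (C b) : K[X][X]) ∈ so_I a b :=
  Ideal.subset_span (by simp)

theorem so_t_mem1 (a b : K) : (C (X - C a) : K[X][X]) ∈ so_I a b :=
  Ideal.subset_span (by simp)

theorem so_ptI_eq (a b : K) (m : ℕ) : ptI a b m = so_ipow (so_I a b) m := by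
  have h : ptI a b m = so_ipow (Ideal.span {X - C (C b),
      C (Pool.Agent.H932R2.rootPoly (fun _ : Fin 1 => a))} : Ideal K[X][X]) m := rfl
  rw [h, Pool.Agent.H932R2.rootPoly_const, pow_one]
  rfl

/-- evaluation at a point -/
noncomputable def so_ev (a b : K) : K[X][X] →+* K := (evalRingHom a).comp (evalRingHom (C b))

theorem so_ev_s (a b b' : K) : so_ev a b (X - C (C b') : K[X][X]) = b - b' := by
  simp [so_ev]

theorem so_ev_t (a b a' : K) : so_ev a b (C (X - C a') : K[X][X]) = a - a' := by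
  simp [so_ev]

theorem so_not_mem (a b : K) {Q : K[X][X]} (hQ : so_ev a b Q ≠ 0) : Q ∉ ptI a b 1 := by
  intro h
  rw [so_ptI_eq, so_ipow_one] at h
  have hle : so_I a b ≤ RingHom.ker (so_ev a b) := by
    unfold so_I
    rw [Ideal.span_le]
    rintro f (rfl | hf)
    · show so_ev a b _ = 0
      rw [so_ev_s, sub_self]
    · rw [Set.mem_singleton_iff] at hf
      subst hf
      show so_ev a b _ = 0
      rw [so_ev_t, sub_self]
  exact hQ (hle h)

theorem so_mono (a b : K) {m n : ℕ} (h : m ≤ n) : ptI a b n ≤ ptI a b m := by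
  rw [so_ptI_eq, so_ptI_eq]
  exact so_ipow_mono _ h

theorem so_s_mem (a b : K) (m : ℕ) : (X - C (C b) : K[X][X]) ^ m ∈ ptI a b m := by
  rw [so_ptI_eq]
  exact so_ipow_mem _ (so_s_mem1 a b) m

theorem so_t_mem (a b : K) (m : ℕ) : (C (X - C a) : K[X][X]) ^ m ∈ ptI a b m := by
  rw [so_ptI_eq]
  exact so_ipow_mem _ (so_t_mem1 a b) m

theorem so_ts_mem (a b : K) (m k : ℕ) :
    (C (X - C a) : K[X][X]) ^ (m - k) * (X - C (C b)) ^ k ∈ ptI a b m := by
  have h1 : (C (X - C a) : K[X][X]) ^ (m - k) * (X - C (C b)) ^ k ∈ ptI a b (m - k + k) := by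
    rw [so_ptI_eq]
    exact so_ipow_mul_mem _ (so_ipow_mem _ (so_t_mem1 a b) _) (so_ipow_mem _ (so_s_mem1 a b) _)
  exact so_mono a b (by omega) h1

/-- an ideal containing all monomials of degree `m` contains the power of the ideal -/
theorem so_pow_le (a b : K) (m : ℕ) (T : Ideal K[X][X])
    (hT : ∀ k ≤ m, (C (X - C a) : K[X][X]) ^ (m - k) * (X - C (C b)) ^ k ∈ T) :
    ptI a b m ≤ T := by
  rw [so_ptI_eq]
  exact so_ipow_le _ _ m T hT

/-- separation of the points -/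
theorem so_exists_Q {ι : Type} [Fintype ι] {a b : ι → K}
    (hinj : ∀ i j, a i = a j → b i = b j → i = j) (v : ι → ℕ) (i : ι) :
    ∃ Q : K[X][X], (∀ j, j ≠ i → Q ∈ ptI (a j) (b j) (v j)) ∧ so_ev (a i) (b i) Q ≠ 0 := by
  classical
  refine ⟨∏ j ∈ Finset.univ.erase i, (if b i = b j then (C (X - C (a j)) : K[X][X]) ^ v j
    else (X - C (C (b j))) ^ v j), ?_, ?_⟩
  · intro j hj
    rw [← Finset.mul_prod_erase _ _ (Finset.mem_erase.2 ⟨hj, Finset.mem_univ j⟩)]
    apply Ideal.mul_mem_right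
    split_ifs with h
    · exact so_t_mem _ _ _
    · exact so_s_mem _ _ _
  · rw [map_prod, Finset.prod_ne_zero_iff]
    intro j hj
    have hj' : j ≠ i := (Finset.mem_erase.1 hj).1
    split_ifs with h
    · rw [map_pow, so_ev_t]
      apply pow_ne_zero
      rw [sub_ne_zero]
      intro h'
      exact hj' (hinj i j h' h).symm
    · rw [map_pow, so_ev_s]
      apply pow_ne_zero
      rw [sub_ne_zero]
      exact h

theorem sub_order {ι : Type} [Fintype ι] {a b : ι → K}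
    (hinj : ∀ i j, a i = a j → b i = b j → i = j)
    {F : K[X][X]} (hFp : Prime F) {c v : ι → ℕ} (hc : ∀ i, F ∈ ptI (a i) (b i) (c i))
    (hcv : ∀ i, c i ≤ v i + 1) {D : K[X]} (hFD : ¬ F ∣ C D) {H : K[X][X]}
    (h : ∀ G ∈ fat a b v, ∃ G' : K[X][X], F ∣ H * G - C D * G') :
    ∀ G ∈ fat a b v, ∀ G' : K[X][X], F ∣ H * G - C D * G' →
      G' ∈ fat a b (fun i => c i - 1) := by
  intro G hG G' hG'
  rw [mem_fat]
  intro i
  obtain ⟨Q, hQ1, hQ2⟩ := so_exists_Q hinj v i
  have hQn : Q ∉ ptI (a i) (b i) (0 + 1) := so_not_mem _ _ hQ2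
  have hQ0 : Q ∈ ptI (a i) (b i) 0 := by
    rw [so_ptI_eq, so_ipow_zero]
    trivial
  have hgk : ∀ k : ℕ, ((C (X - C (a i)) : K[X][X]) ^ (v i - k) * (X - C (C (b i))) ^ k) * Q ∈
      fat a b v := by
    intro k
    rw [mem_fat]
    intro j
    by_cases hj : j = i
    · subst hj
      exact Ideal.mul_mem_right _ _ (so_ts_mem _ _ _ _)
    · exact Ideal.mul_mem_left _ _ (hQ1 j hj)
  choose g hg using fun k => h _ (hgk k)
  have hFmem : ∀ x : K[X][X], F ∣ C D * x → x ∈ ptI (a i) (b i) (c i) := by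
    intro x hx
    rcases hFp.dvd_or_dvd hx with h1 | h1
    · exact absurd h1 hFD
    · obtain ⟨y, rfl⟩ := h1
      exact Ideal.mul_mem_right _ _ (hc i)
  have hloc := local_ord (hcv i) g (by
    intro k hk
    apply hFmem
    obtain ⟨u1, hu1⟩ := hg k
    obtain ⟨u2, hu2⟩ := hg (k + 1)
    have e1 : v i - k = (v i - (k + 1)) + 1 := by omega
    rw [e1, pow_succ] at hu1
    refine ⟨C (X - C (a i)) * u2 - (X - C (C (b i))) * u1, ?_⟩
    rw [pow_succ (X - C (C (b i))) k] at hu2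
    linear_combination (C (X - C (a i))) * hu2 - (X - C (C (b i))) * hu1)
  -- the ideal of the good polynomials
  let T : Ideal K[X][X] :=
    { carrier := {x | ∃ y ∈ ptI (a i) (b i) (c i - 1), F ∣ H * (x * Q) - C D * y}
      zero_mem' := ⟨0, Ideal.zero_mem _, ⟨0, by ring⟩⟩
      add_mem' := by
        rintro x1 x2 ⟨y1, hy1, ⟨z1, hz1⟩⟩ ⟨y2, hy2, ⟨z2, hz2⟩⟩
        exact ⟨y1 + y2, Ideal.add_mem _ hy1 hy2, ⟨z1 + z2, by linear_combination hz1 + hz2⟩⟩
      smul_mem' := by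
        rintro r x ⟨y, hy, ⟨z, hz⟩⟩
        refine ⟨r * y, Ideal.mul_mem_left _ _ hy, ⟨r * z, ?_⟩⟩
        rw [smul_eq_mul]
        linear_combination r * hz }
  have hT : ptI (a i) (b i) (v i) ≤ T := by
    apply so_pow_le
    intro k hk
    exact ⟨g k, hloc k hk, hg k⟩
  obtain ⟨y, hy, z, hz⟩ : ∃ y ∈ ptI (a i) (b i) (c i - 1), F ∣ H * (G * Q) - C D * y :=
    hT ((mem_fat.1 hG) i)
  obtain ⟨z', hz'⟩ := hG'
  have h1 : y - Q * G' ∈ ptI (a i) (b i) (c i) := by
    apply hFmem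
    exact ⟨Q * z' - z, by linear_combination Q * hz' - hz⟩
  have h2 : Q * G' ∈ ptI (a i) (b i) (0 + (c i - 1)) := by
    rw [zero_add]
    have h3 := Ideal.sub_mem _ hy (so_mono _ _ (Nat.sub_le _ _) h1)
    have h4 : y - (y - Q * G') = Q * G' := by ring
    rwa [h4] at h3
  exact colon hQ0 hQn h2

end Pool.Agent.H879.RV
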