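import Pool.Agent.H879.RV.TdMod
import Pool.Agent.H879.RV.ExH
import Pool.Agent.H879.RV.DivH
import Pool.Agent.H879.RV.SubOrder

set_option autoImplicit false

namespace Pool.Agent.H879.RV

open Polynomial
open Pool.Agent.H350R3.GR (ptI)

variable {K : Type} [Field K]

namespace Common

theorem td_mul {p q : K[X][X]} {r s : ℤ} (hp : TD r p) (hq : TD s q) : TD (r + s) (p * q) := by
  intro i j h
  rw [coeff_mul, finsetSum_coeff] at h
  obtain ⟨x, hx, hx'⟩ := Finset.exists_ne_zero_of_sum_ne_zero h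
  rw [coeff_mul] at hx'
  obtain ⟨y, hy, hy'⟩ := Finset.exists_ne_zero_of_sum_ne_zero hx'
  have h1 := hp x.1 y.1 (left_ne_zero_of_mul hy')
  have h2 := hq x.2 y.2 (right_ne_zero_of_mul hy')
  have h3 := Finset.HasAntidiagonal.mem_antidiagonal.1 hx
  have h4 := Finset.HasAntidiagonal.mem_antidiagonal.1 hy
  have h5 : (i : ℤ) = x.1 + x.2 := by exact_mod_cast h3.symm
  have h6 : (j : ℤ) = y.1 + y.2 := by exact_mod_cast h4.symm
  linarith

theorem td_div {D : K[X]} (hD : D.Monic) {G : K[X][X]} {r : ℤ} (h : TD r (C D * G)) :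
    TD (r - D.natDegree) G := by
  intro i j hij
  have hg : G.coeff i ≠ 0 := by
    intro h0
    apply hij
    rw [h0, coeff_zero]
  have h1 : (C D * G).coeff i = D * G.coeff i := coeff_C_mul _
  have h2 : (D * G.coeff i).coeff (D.natDegree + (G.coeff i).natDegree) ≠ 0 := by
    rw [coeff_mul_degree_add_degree, hD.leadingCoeff, one_mul]
    exact leadingCoeff_ne_zero.2 hg
  have h3 := h i (D.natDegree + (G.coeff i).natDegree) (by rw [h1]; exact h2)
  have h4 : j ≤ (G.coeff i).natDegree := le_natDegree_of_ne_zero hij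
  push_cast at h3
  have h5 : (j : ℤ) ≤ (G.coeff i).natDegree := by exact_mod_cast h4
  linarith

theorem gen_mem (a b : K) (m : ℕ) : (C ((X - C a) ^ m) : K[X][X]) ∈ ptI a b m := by
  unfold ptI Pool.Agent.H932R2.cIdeal
  rw [C_pow]
  refine Ideal.pow_mem_pow ?_ m
  refine Ideal.subset_span ?_
  right
  rw [Set.mem_singleton_iff, Pool.Agent.H932R2.rootPoly_const, pow_one]

end Common

open Common in
theorem common {ι : Type} [Fintype ι] {a b : ι → K} (hinj : ∀ i j, a i = a j → b i = b j → i = j)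
    {F : K[X][X]} (hF : F.Monic) (hFd : TD (F.natDegree : ℤ) F) (hFp : Prime F) {c v : ι → ℕ}
    (hc : ∀ i, F ∈ ptI (a i) (b i) (c i)) (hcv : ∀ i, c i ≤ v i + 1) {d : ℤ}
    {lam : K[X][X] →ₗ[K] K} (h0 : lam ≠ 0) (h1 : ∀ G, lam (F * G) = 0)
    (h2 : ∀ G ∈ fat a b v, lam G = 0) (h3 : ∀ G, TD d G → lam G = 0) :
    ∃ (H : K[X][X]) (D : K[X]), D.Monic ∧ C D ∈ fat a b v ∧ H.degree < F.degree ∧
      (∀ κ : K, H ≠ C (C κ * D)) ∧ ∀ G ∈ fat a b v, ∃ G' : K[X][X], G'.degree < F.degree ∧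
        (H * G) %ₘ F = C D * G' ∧ (∀ t : ℤ, TD t G → TD (t + F.natDegree - 3 - d) G') ∧
        G' ∈ fat a b (fun i => c i - 1) := by
  classical
  have he : 1 ≤ F.natDegree := by
    by_contra hcon
    have h4 : F.natDegree = 0 := by omega
    have h5 := hF.natDegree_eq_zero.1 h4
    exact hFp.not_isUnit (by rw [h5]; exact isUnit_one)
  obtain ⟨D, hDdef⟩ : ∃ D : K[X], D = ∏ i, (X - C (a i)) ^ (v i) := ⟨_, rfl⟩
  have hD : D.Monic := by
    rw [hDdef]
    exact monic_prod_of_monic _ _ fun i _ => (monic_X_sub_C _).pow _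
  have hDf : (C D : K[X][X]) ∈ fat a b v := by
    rw [mem_fat]
    intro i
    have h4 : (X - C (a i)) ^ (v i) ∣ D := by
      rw [hDdef]
      exact Finset.dvd_prod_of_mem (fun i => (X - C (a i)) ^ (v i)) (Finset.mem_univ i)
    obtain ⟨E, hE⟩ := h4
    rw [hE, C_mul]
    exact Ideal.mul_mem_right _ _ (gen_mem _ _ _)
  have hDlam : ∀ G, lam (C D * G) = 0 := fun G => h2 _ (Ideal.mul_mem_right _ _ hDf)
  obtain ⟨H, hHdeg, hHtd, hform⟩ := exists_H hF hFd he hD lam h1 hDlam h3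
  have hnd : ¬ F ∣ C D := by
    refine hF.not_dvd_of_natDegree_lt (C_ne_zero.2 hD.ne_zero) ?_
    rw [natDegree_C]
    exact he
  have hex : ∀ G ∈ fat a b v, ∃ G' : K[X][X], G'.degree < F.degree ∧ (H * G) %ₘ F = C D * G' :=
    fun G hG => div_H hF he hD lam hform fun M => h2 _ (Ideal.mul_mem_right _ _ hG)
  have hdvd : ∀ G G' : K[X][X], (H * G) %ₘ F = C D * G' → F ∣ H * G - C D * G' := by
    intro G G' h
    rw [← h]
    have h4 := modByMonic_add_div (H * G) F
    refine ⟨(H * G) /ₘ F, ?_⟩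
    rw [sub_eq_iff_eq_add, add_comm]
    exact h4.symm
  refine ⟨H, D, hD, hDf, hHdeg, ?_, fun G hG => ?_⟩
  · intro κ hκ
    apply h0
    refine LinearMap.ext fun G => ?_
    rw [LinearMap.zero_apply, hform G, hκ]
    have h4 : (C (C κ * D) * G) %ₘ F = C (C κ * D) * (G %ₘ F) := by
      rw [← smul_eq_C_mul, smul_modByMonic, smul_eq_C_mul]
    rw [h4, coeff_C_mul]
    have h5 : (C κ * D * (G %ₘ F).coeff (F.natDegree - 1)) %ₘ D = 0 := by
      rw [modByMonic_eq_zero_iff_dvd hD]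
      exact ⟨C κ * (G %ₘ F).coeff (F.natDegree - 1), by ring⟩
    rw [h5, coeff_zero]
  · obtain ⟨G', hG'1, hG'2⟩ := hex G hG
    refine ⟨G', hG'1, hG'2, ?_, ?_⟩
    · intro t ht
      have h4 := td_mul hHtd ht
      have h5 := td_mod hF hFd h4
      rw [hG'2] at h5
      have h6 := td_div hD h5
      have e : (D.natDegree : ℤ) + F.natDegree - 3 - d + t - D.natDegree =
          t + F.natDegree - 3 - d := by ring
      rw [e] at h6
      exact h6
    · refine sub_order hinj hFp hc hcv hnd (fun G₁ hG₁ => ?_) G hG G' (hdvd G G' hG'2)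
      obtain ⟨G₂, -, h4⟩ := hex G₁ hG₁
      exact ⟨G₂, hdvd _ _ h4⟩

end Pool.Agent.H879.RV
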