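import Pool.Graph.R_seed8.H350R3.GR.Pt
import Pool.Graph.R_seed8.H932R3.OpenV

/-! Fat points and the polynomials of bounded total degree in `K[x][y]`. -/

set_option autoImplicit false

namespace Pool.Agent.H879.RV

open Polynomial
open Pool.Agent.H350R3.GR (ptI)

variable {K : Type} [Field K]

/-- the total degree of `G` is at most `r` (and `G = 0` if `r < 0`); the coefficient of
`x ^ j y ^ i` is `(G.coeff i).coeff j` -/
def TD (r : ℤ) (G : K[X][X]) : Prop := ∀ i j : ℕ, (G.coeff i).coeff j ≠ 0 → (i : ℤ) + j ≤ r

/-- the space of the polynomials of total degree at most `r` -/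
def TDs (K : Type) [Field K] (r : ℤ) : Submodule K K[X][X] where
  carrier := {G | TD r G}
  zero_mem' := by
    intro i j h
    simp at h
  add_mem' := by
    intro G H hG hH i j h
    rw [coeff_add, coeff_add] at h
    by_contra hcon
    apply h
    have h1 : (G.coeff i).coeff j = 0 := by
      by_contra h2
      exact hcon (hG i j h2)
    have h2 : (H.coeff i).coeff j = 0 := by
      by_contra h3
      exact hcon (hH i j h3)
    rw [h1, h2, add_zero]
  smul_mem' := by
    intro c G hG i j h
    apply hG i j
    intro h0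
    apply h
    rw [coeff_smul, coeff_smul, h0, smul_zero]

theorem mem_TDs {r : ℤ} {G : K[X][X]} : G ∈ TDs K r ↔ TD r G := Iff.rfl

/-- the ideal of the fat points with the multiplicities `w` -/
noncomputable def fat {ι : Type} (a b : ι → K) (w : ι → ℕ) : Ideal K[X][X] :=
  ⨅ i, ptI (a i) (b i) (w i)

theorem mem_fat {ι : Type} {a b : ι → K} {w : ι → ℕ} {G : K[X][X]} :
    G ∈ fat a b w ↔ ∀ i, G ∈ ptI (a i) (b i) (w i) := by
  unfold fat
  rw [Ideal.mem_iInf]

/-- the forms of degree `d` in `fat a b w` -/
noncomputable def Wd {ι : Type} (a b : ι → K) (w : ι → ℕ) (d : ℤ) : Submodule K K[X][X] :=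
  TDs K d ⊓ Submodule.restrictScalars K (fat a b w)

/-- the fat points impose independent conditions on the polynomials of degree at most `d` -/
def Ind {ι : Type} (a b : ι → K) (d : ℤ) (w : ι → ℕ) : Prop :=
  ∀ G : K[X][X], ∃ H : K[X][X], TD d H ∧ G - H ∈ fat a b w

end Pool.Agent.H879.RV
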