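import Pool.Agent.H879.RV.TdTop
import Pool.Graph.R_seed8.H932R2.Forms
import Pool.Graph.R_seed8.H932R2.Points

set_option autoImplicit false

namespace Pool.Agent.H879.RV

open Polynomial
open Pool.Agent.H350R3.GR (ptI)
open Pool.Agent.H932R2 (deh mspan Tset mon mem_Tset)

variable {K : Type} [Field K]

namespace DPL

theorem td_of_mspan {d : ℕ} {f : K[X][X]} (hf : f ∈ mspan K (Tset d)) : TD (d : ℤ) f := by
  have h : mspan K (Tset d) ≤ TDs K (d : ℤ) := by
    unfold Pool.Agent.H932R2.mspan
    rw [Submodule.span_le]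
    rintro _ ⟨⟨i, l⟩, hp, rfl⟩
    rw [mem_Tset] at hp
    intro i' j' h
    rw [Pool.Agent.H932R2.coeff_mon] at h
    split_ifs at h with h1
    · rw [Prod.mk.injEq] at h1
      have h2 : ((i : ℤ) + l ≤ d) := by exact_mod_cast hp
      obtain ⟨e1, e2⟩ := h1
      rw [← e1, ← e2]
      linarith
    · exact absurd rfl h
  exact h hf

theorem mspan_of_td {r : ℕ} {p : K[X][X]} (hp : TD (r : ℤ) p) : p ∈ mspan K (Tset r) := by
  have h1 : p = ∑ i ∈ p.support, ∑ j ∈ (p.coeff i).support,
      ((p.coeff i).coeff j) • mon K (j, i) := by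
    conv_lhs => rw [p.as_sum_support_C_mul_X_pow]
    refine Finset.sum_congr rfl fun i _ => ?_
    conv_lhs => rw [(p.coeff i).as_sum_support_C_mul_X_pow]
    rw [map_sum, Finset.sum_mul]
    refine Finset.sum_congr rfl fun j _ => ?_
    rw [mon, C_mul, mul_assoc, Algebra.smul_def]
    rfl
  rw [h1]
  refine Submodule.sum_mem _ fun i _ => Submodule.sum_mem _ fun j hj => Submodule.smul_mem _ _
    (Submodule.subset_span ⟨_, ?_, rfl⟩)
  rw [mem_Tset]
  have := hp i j (mem_support_iff.1 hj)
  have h2 : i + j ≤ r := by exact_mod_cast this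
  omega

theorem exists_td {p : K[X][X]} (hp : p ≠ 0) :
    ∃ r : ℕ, TD (r : ℤ) p ∧ ∃ i j : ℕ, i + j = r ∧ (p.coeff i).coeff j ≠ 0 := by
  classical
  have hex : ∃ N : ℕ, TD (N : ℤ) p := by
    refine ⟨p.natDegree + p.support.sup (fun i => (p.coeff i).natDegree), fun i j h => ?_⟩
    have h1 : p.coeff i ≠ 0 := by
      intro h0
      rw [h0, coeff_zero] at h
      exact h rfl
    have h2 : i ≤ p.natDegree := le_natDegree_of_ne_zero h1
    have h3 : j ≤ (p.coeff i).natDegree := le_natDegree_of_ne_zero h
    have h4 : (p.coeff i).natDegree ≤ p.support.sup (fun i => (p.coeff i).natDegree) :=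
      Finset.le_sup (f := fun i => (p.coeff i).natDegree) (mem_support_iff.2 h1)
    have h5 : i + j ≤ p.natDegree + p.support.sup (fun i => (p.coeff i).natDegree) := by omega
    exact_mod_cast h5
  refine ⟨Nat.find hex, Nat.find_spec hex, ?_⟩
  by_contra hcon
  push Not at hcon
  rcases Nat.eq_zero_or_pos (Nat.find hex) with h0 | h0
  · apply hp
    ext i j
    rw [coeff_zero, coeff_zero]
    by_contra h1
    have h2 := Nat.find_spec hex i j h1
    have h3 : i + j ≤ Nat.find hex := by exact_mod_cast h2
    exact h1 (hcon i j (by omega))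
  · refine Nat.find_min hex (m := Nat.find hex - 1) (by omega) fun i j h1 => ?_
    have h2 := Nat.find_spec hex i j h1
    have h3 : i + j ≤ Nat.find hex := by exact_mod_cast h2
    have h4 : i + j ≠ Nat.find hex := fun h => h1 (hcon i j h)
    have h5 : i + j ≤ Nat.find hex - 1 := by omega
    exact_mod_cast h5

end DPL

open DPL in
theorem deh_prime {e : ℕ} (he : 1 ≤ e) {G : MvPolynomial (Fin 3) K} (hG : Irreducible G)
    (hGe : G.IsHomogeneous e) (hG1 : G.coeff (Finsupp.single 1 e) = 1) :
    (Pool.Agent.H932R2.deh K G).Monic ∧ (Pool.Agent.H932R2.deh K G).natDegree = e ∧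
      TD (e : ℤ) (Pool.Agent.H932R2.deh K G) ∧ Prime (Pool.Agent.H932R2.deh K G) := by
  obtain ⟨g, hg⟩ : ∃ g, g = deh K G := ⟨_, rfl⟩
  have htd : TD (e : ℤ) g := by
    rw [hg]
    exact td_of_mspan (Pool.Agent.H932R2.deh_mem_mspan hGe)
  have hc0 : (g.coeff e).coeff 0 = 1 := by
    have h1 := Pool.Agent.H932R2.coeff_deh hGe (α := Finsupp.single 1 e) (by
      rw [hG1]
      exact one_ne_zero)
    rw [hG1, ← hg] at h1
    rw [Finsupp.single_eq_same, Finsupp.single_eq_of_ne (by decide)] at h1
    exact h1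
  have hce : g.coeff e = 1 := by
    ext j
    rw [coeff_one]
    rcases Nat.eq_zero_or_pos j with hj | hj
    · rw [hj, if_pos rfl, hc0]
    · rw [if_neg (by omega)]
      by_contra h
      have h1 := htd e j h
      have h2 : e + j ≤ e := by exact_mod_cast h1
      omega
  have hnd : g.natDegree = e := by
    refine le_antisymm ?_ (le_natDegree_of_ne_zero (by rw [hce]; exact one_ne_zero))
    rw [natDegree_le_iff_coeff_eq_zero]
    intro i hi
    ext j
    rw [coeff_zero]
    by_contra h
    have h1 := htd i j h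
    have h2 : i + j ≤ e := by exact_mod_cast h1
    omega
  have hmon : g.Monic := by
    rw [Monic, leadingCoeff, hnd, hce]
  have hirr : Irreducible g := by
    refine ⟨fun hu => ?_, fun p q hpq => ?_⟩
    · have h1 := natDegree_eq_zero_of_isUnit hu
      omega
    · have hp0 : p ≠ 0 := by
        rintro rfl
        rw [zero_mul] at hpq
        exact hmon.ne_zero hpq
      have hq0 : q ≠ 0 := by
        rintro rfl
        rw [mul_zero] at hpq
        exact hmon.ne_zero hpq
      obtain ⟨r, hr, hr'⟩ := exists_td hp0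
      obtain ⟨s, hs, hs'⟩ := exists_td hq0
      obtain ⟨h1, i, j, hij, h2⟩ := td_mul_top hr hr' hs hs'
      rw [← hpq] at h1 h2
      have h3 : i + j ≤ e := by
        have := htd i j h2
        exact_mod_cast this
      have h4 : e + 0 ≤ r + s := by
        have := h1 e 0 (by rw [hc0]; exact one_ne_zero)
        exact_mod_cast this
      obtain ⟨A, hA, hA'⟩ := Pool.Agent.H932R2.exists_form (mspan_of_td hr)
      obtain ⟨B, hB, hB'⟩ := Pool.Agent.H932R2.exists_form (mspan_of_td hs)
      rw [MvPolynomial.mem_homogeneousSubmodule] at hA hB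
      have hAB : (A * B).IsHomogeneous e := by
        have h5 := hA.mul hB
        have h6 : r + s = e := by omega
        rwa [h6] at h5
      have h7 : A * B - G = 0 := by
        refine Pool.Agent.H932R2.deh_eq_zero (hAB.sub hGe) ?_
        rw [map_sub, map_mul, hA', hB', ← hg, ← hpq, sub_self]
      rcases hG.isUnit_or_isUnit (sub_eq_zero.1 h7).symm with hu | hu
      · left
        rw [← hA']
        exact hu.map (deh K)
      · right
        rw [← hB']
        exact hu.map (deh K)
  rw [← hg]
  exact ⟨hmon, hnd, htd, hirr.prime⟩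

end Pool.Agent.H879.RV
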