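import Pool.Agent.H879.RV.Defs

set_option autoImplicit false

namespace Pool.Agent.H879.RV

open Polynomial
open Pool.Agent.H350R3.GR (ptI)

variable {K : Type} [Field K]

/-- the exponents of the monomials of degree at most `t` -/
def expT (t : ℕ) : Finset (Σ _ : ℕ, ℕ) :=
  (Finset.range (t + 1)).sigma fun i => Finset.range (t + 1 - i)

theorem mem_expT {t i j : ℕ} : (⟨i, j⟩ : Σ _ : ℕ, ℕ) ∈ expT t ↔ i + j ≤ t := by
  unfold expT
  rw [Finset.mem_sigma, Finset.mem_range, Finset.mem_range]
  constructor
  · rintro ⟨h1, h2⟩
    simp only at h1 h2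
    omega
  · intro h
    constructor <;> simp only <;> omega

theorem card_expT (t : ℕ) : (expT t).card = (t + 2).choose 2 := by
  unfold expT
  rw [Finset.card_sigma]
  simp only [Finset.card_range]
  have h1 : ∑ i ∈ Finset.range (t + 1), (t + 1 - i) = ∑ i ∈ Finset.range (t + 2), i := by
    rw [← Finset.sum_range_reflect (fun i => i) (t + 2),
      Finset.sum_range_succ (fun j => t + 2 - 1 - j)]
    have h2 : t + 2 - 1 - (t + 1) = 0 := by omega
    rw [h2, add_zero]
    exact Finset.sum_congr rfl fun i _ => by omega
  rw [h1, Finset.sum_range_id, Nat.choose_two_right]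

/-- the coefficients of a polynomial of degree at most `t` -/
noncomputable def coefT (K : Type) [Field K] (t : ℕ) : ↥(TDs K (t : ℤ)) →ₗ[K] (expT t → K) where
  toFun G := fun p => (G.1.coeff p.1.1).coeff p.1.2
  map_add' G H := by
    funext p
    show ((G.1 + H.1).coeff p.1.1).coeff p.1.2 = _
    rw [coeff_add, coeff_add]
    rfl
  map_smul' c G := by
    funext p
    show ((c • G.1).coeff p.1.1).coeff p.1.2 = _
    rw [coeff_smul, coeff_smul]
    rfl

theorem coefT_bij (t : ℕ) : Function.Bijective (coefT K t) := by
  constructor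
  · rw [injective_iff_map_eq_zero]
    intro G hG
    apply Subtype.ext
    ext i j
    show (G.1.coeff i).coeff j = ((0 : K[X][X]).coeff i).coeff j
    rw [coeff_zero, coeff_zero]
    by_cases h : i + j ≤ t
    · exact congrFun hG ⟨⟨i, j⟩, mem_expT.2 h⟩
    · by_contra h2
      have h3 := G.2 i j h2
      apply h
      omega
  · intro f
    have hc : ∀ i j : ℕ, ((∑ p : expT t, monomial p.1.1 (monomial p.1.2 (f p)) : K[X][X]).coeff
        i).coeff j = ∑ p : expT t, if p.1 = ⟨i, j⟩ then f p else 0 := by
      intro i j
      rw [finsetSum_coeff, finsetSum_coeff]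
      refine Finset.sum_congr rfl fun p _ => ?_
      obtain ⟨⟨a, b⟩, hp⟩ := p
      rw [coeff_monomial]
      by_cases h1 : a = i
      · subst h1
        rw [if_pos rfl, coeff_monomial]
        by_cases h2 : b = j
        · subst h2
          rw [if_pos rfl, if_pos rfl]
        · rw [if_neg h2, if_neg]
          intro h3
          apply h2
          have h4 := eq_of_heq (Sigma.mk.inj h3).2
          exact h4
      · rw [if_neg h1, coeff_zero, if_neg]
        intro h3
        exact h1 (Sigma.mk.inj h3).1
    refine ⟨⟨∑ p : expT t, monomial p.1.1 (monomial p.1.2 (f p)), ?_⟩, ?_⟩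
    · intro i j h
      rw [hc] at h
      by_contra hcon
      apply h
      refine Finset.sum_eq_zero fun p _ => if_neg ?_
      intro h3
      have h4 := p.2
      rw [h3, mem_expT] at h4
      apply hcon
      exact_mod_cast h4
    · funext p
      show ((∑ p : expT t, monomial p.1.1 (monomial p.1.2 (f p)) : K[X][X]).coeff
        p.1.1).coeff p.1.2 = f p
      rw [hc, Finset.sum_eq_single p]
      · rw [if_pos rfl]
      · intro p' _ hne
        rw [if_neg]
        intro h3
        exact hne (Subtype.ext h3)
      · intro h3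
        exact absurd (Finset.mem_univ p) h3

theorem finrank_TDs (t : ℕ) : Module.finrank K ↥(TDs K (t : ℤ)) = (t + 2).choose 2 ∧
    Module.Finite K ↥(TDs K (t : ℤ)) := by
  let e : ↥(TDs K (t : ℤ)) ≃ₗ[K] (expT t → K) := LinearEquiv.ofBijective (coefT K t) (coefT_bij t)
  constructor
  · rw [e.finrank_eq, Module.finrank_fintype_fun_eq_card, Fintype.card_coe, card_expT]
  · exact Module.Finite.equiv e.symm

end Pool.Agent.H879.RV

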