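import Pool.Agent.H879.RV.Defs

set_option autoImplicit false

namespace Pool.Agent.H879.RV

open Polynomial
open Pool.Agent.H350R3.GR (ptI)

variable {K : Type} [Field K]

namespace WdN

open Pool.Agent.H932R2 Pool.Agent.H932R3

/-- the other composition of the two shifts -/
lemma sh_sh' (c : K) (γ : K[X]) (f : K[X][X]) :
    sh c γ (sh (-c) (-(γ.comp (X + C c))) f) = f := by
  have h := sh_sh (-c) (-(γ.comp (X + C c))) f
  rw [neg_neg] at h
  have e : -((-(γ.comp (X + C c))).comp (X + C (-c))) = γ := by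
    rw [neg_comp, neg_neg, comp_assoc]
    simp
  rw [e] at h
  exact h

/-- the spaces of polynomials of bounded degree as spans of monomials -/
lemma TDs_eq (t : ℕ) : TDs K (t : ℤ) = mspan K (Tset t) := by
  classical
  apply le_antisymm
  · intro G hG
    have e : G = ∑ p ∈ Tfin t, ((G.coeff p.2).coeff p.1) • mon K p := by
      ext l i
      rw [finsetSum_coeff, finsetSum_coeff]
      simp only [coeff_smul, coeff_mon, smul_eq_mul, mul_ite, mul_one, mul_zero]
      rw [Finset.sum_ite_eq']
      split_ifs with h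
      · rfl
      · by_contra h0
        apply h
        have h1 := hG l i h0
        have h2 : ((i, l) : ℕ × ℕ) ∈ (↑(Tfin t) : Set (ℕ × ℕ)) := by
          rw [coe_Tfin, mem_Tset]
          omega
        exact h2
    rw [e]
    refine Submodule.sum_mem _ fun p hp => Submodule.smul_mem _ _ (Submodule.subset_span ?_)
    refine ⟨p, ?_, rfl⟩
    rw [← coe_Tfin]
    exact hp
  · unfold mspan
    rw [Submodule.span_le]
    rintro _ ⟨p, hp, rfl⟩
    intro i j h
    rw [coeff_mon] at h
    have h1 : p = (j, i) := by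
      by_contra h2
      rw [if_neg h2] at h
      exact h rfl
    subst h1
    have h3 := mem_Tset.1 hp
    omega

/-- two ideals with a constant in the sum are comaximal -/
lemma coprime_ptI {a b a' b' : K} (h : a = a' → b ≠ b') (m m' : ℕ) :
    IsCoprime (ptI a b m) (ptI a' b' m') := by
  unfold ptI cIdeal
  refine IsCoprime.pow ?_
  rw [Ideal.isCoprime_iff_sup_eq, Ideal.eq_top_iff_one]
  have hA : ∀ x ∈ ({X - C (C b), C (rootPoly fun _ : Fin 1 => a)} : Set K[X][X]),
      x ∈ (Ideal.span {X - C (C b), C (rootPoly fun _ : Fin 1 => a)} : Ideal K[X][X]) ⊔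
        Ideal.span {X - C (C b'), C (rootPoly fun _ : Fin 1 => a')} := fun x hx =>
    Ideal.mem_sup_left (Ideal.subset_span hx)
  have hB : ∀ x ∈ ({X - C (C b'), C (rootPoly fun _ : Fin 1 => a')} : Set K[X][X]),
      x ∈ (Ideal.span {X - C (C b), C (rootPoly fun _ : Fin 1 => a)} : Ideal K[X][X]) ⊔
        Ideal.span {X - C (C b'), C (rootPoly fun _ : Fin 1 => a')} := fun x hx =>
    Ideal.mem_sup_right (Ideal.subset_span hx)
  by_cases hb : b = b'
  · have ha : a ≠ a' := fun ha => h ha hb
    have h1 := Ideal.sub_mem _ (hB (C (rootPoly fun _ : Fin 1 => a')) (Or.inr rfl))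
      (hA (C (rootPoly fun _ : Fin 1 => a)) (Or.inr rfl))
    have h2 := Ideal.mul_mem_left _ (C (C (a - a')⁻¹) : K[X][X]) h1
    have e : (C (C (a - a')⁻¹) : K[X][X]) * (C (rootPoly fun _ : Fin 1 => a') -
        C (rootPoly fun _ : Fin 1 => a)) = 1 := by
      rw [rootPoly_const, rootPoly_const, pow_one, pow_one, ← C_sub, ← C_mul]
      have e2 : (X - C a' - (X - C a) : K[X]) = C (a - a') := by
        rw [C_sub]; ring
      rw [e2, ← C_mul, inv_mul_cancel₀ (sub_ne_zero.2 ha), C_1, C_1]
    rw [e] at h2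
    exact h2
  · have h1 := Ideal.sub_mem _ (hB (X - C (C b')) (Or.inl rfl)) (hA (X - C (C b)) (Or.inl rfl))
    have h2 := Ideal.mul_mem_left _ (C (C (b - b')⁻¹) : K[X][X]) h1
    have e : (C (C (b - b')⁻¹) : K[X][X]) * (X - C (C b') - (X - C (C b))) = 1 := by
      have e2 : (X - C (C b') - (X - C (C b)) : K[X][X]) = C (C (b - b')) := by
        rw [C_sub, C_sub]; ring
      rw [e2, ← C_mul, ← C_mul, inv_mul_cancel₀ (sub_ne_zero.2 hb), C_1, C_1]
    rw [e] at h2
    exact h2

/-- the conditions at one point are independent -/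
lemma condMap_surj (m : ℕ) (c : K) (γ : K[X]) : Function.Surjective (condMap 1 m c γ) := by
  classical
  intro g
  refine ⟨sh (-c) (-(γ.comp (X + C c))) (∑ e : EE 1 m, g e • mon K e.1), ?_⟩
  funext e
  change ((sh c γ (sh (-c) (-(γ.comp (X + C c))) (∑ e : EE 1 m, g e • mon K e.1))).coeff
    e.1.2).coeff e.1.1 = g e
  rw [sh_sh', finsetSum_coeff, finsetSum_coeff]
  simp only [coeff_smul, coeff_mon, smul_eq_mul, mul_ite, mul_one, mul_zero]
  rw [Finset.sum_eq_single e]
  · rw [if_pos rfl]
  · intro e' _ hne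
    rw [if_neg]
    intro h
    exact hne (Subtype.ext h)
  · intro h
    exact absurd (Finset.mem_univ e) h

/-- the conditions at different points are independent -/
lemma condMapV_surj {ι : Type} [Fintype ι] {a b : ι → K}
    (hinj : ∀ i j, a i = a j → b i = b j → i = j) (w : ι → ℕ) :
    Function.Surjective (condMapV 1 w a (fun i => C (b i))) := by
  intro g
  choose f hf using fun i => condMap_surj (w i) (a i) (C (b i)) (fun e => g ⟨i, e⟩)
  obtain ⟨F, hF⟩ := Ideal.exists_forall_sub_mem_ideal
    (I := fun i => ptI (a i) (b i) (w i)) (fun i j hij => coprime_ptI (fun h h' => hij (hinj i j h h'))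
      (w i) (w j)) f
  refine ⟨F, ?_⟩
  funext ⟨i, e⟩
  have h1 : condMap 1 (w i) (a i) (C (b i)) (F - f i) = 0 := mem_cIdeal_iff'.1 (hF i)
  rw [map_sub, hf i, sub_eq_zero] at h1
  exact congrFun h1 e

end WdN

open WdN Pool.Agent.H932R2 Pool.Agent.H932R3 in
theorem finrank_Wd_eq {ι : Type} [Fintype ι] {a b : ι → K}
    (hinj : ∀ i j, a i = a j → b i = b j → i = j) {w : ι → ℕ} {t : ℕ}
    (h : Ind a b (t : ℤ) w) :
    Module.finrank K ↥(Wd a b w (t : ℤ)) + ∑ i, (w i + 1).choose 2 = (t + 2).choose 2 := by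
  classical
  have hcardT : (Tfin t).card = (t + 2).choose 2 := by
    have h4 := card_Tfin t
    have h5 : (t + 2).choose 2 * 2 = (t + 2) * (t + 1) := by
      rw [Nat.choose_two_right, Nat.div_mul_cancel (Nat.even_mul_pred_self _).two_dvd]
      rfl
    linarith
  have hcardE : ∑ i, (EE 1 (w i)).card = ∑ i, (w i + 1).choose 2 :=
    Finset.sum_congr rfl fun i _ => card_EE_eq (w i)
  have hcardS : Fintype.card (Σ i : ι, EE 1 (w i)) = ∑ i, (EE 1 (w i)).card := by
    rw [Fintype.card_sigma]
    exact Finset.sum_congr rfl fun a _ => Fintype.card_coe _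
  -- the conditions are independent on the space of the polynomials of degree at most `t`
  have hsurj : ∀ g, ∃ H : K[X][X], TD (t : ℤ) H ∧ condMapV 1 w a (fun i => C (b i)) H = g := by
    intro g
    obtain ⟨G, hG⟩ := condMapV_surj hinj w g
    obtain ⟨H, hH, hGH⟩ := h G
    refine ⟨H, hH, ?_⟩
    have h1 : condMapV 1 w a (fun i => C (b i)) (G - H) = 0 := mem_vIdeal_iff.1 hGH
    rw [map_sub, hG, sub_eq_zero] at h1
    exact h1.symm
  have hR : RkI (vIdeal 1 w a (fun i => C (b i))) (↑(Tfin t) : Set (ℕ × ℕ))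
      (∑ i, (EE 1 (w i)).card) := by
    obtain ⟨eq⟩ : Nonempty (Fin (∑ i, (EE 1 (w i)).card) ≃ (Σ i : ι, EE 1 (w i))) :=
      ⟨(Fintype.equivFinOfCardEq hcardS).symm⟩
    choose v hv hv' using fun k => hsurj (Pi.single (eq k) 1)
    refine ⟨v, fun k => ?_, fun c hc k => ?_⟩
    · rw [coe_Tfin, ← TDs_eq]
      exact hv k
    · rw [mem_vIdeal_iff, map_sum] at hc
      simp only [map_smul, hv'] at hc
      have h1 := congrFun hc (eq k)
      rw [Finset.sum_apply, Finset.sum_eq_single k] at h1
      · simpa using h1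
      · intro k' _ hne
        rw [Pi.smul_apply, Pi.single_eq_of_ne (fun h => hne (eq.injective h).symm), smul_zero]
      · intro hk
        exact absurd (Finset.mem_univ k) hk
  have h1 := finrank_infV hR (Or.inr rfl)
  have h2 : Wd a b w (t : ℤ) = mspan K (↑(Tfin t) : Set (ℕ × ℕ)) ⊓
      Submodule.restrictScalars K (vIdeal 1 w a (fun i => C (b i))) := by
    unfold Wd
    rw [coe_Tfin, ← TDs_eq]
    rfl
  -- the number of the conditions is at most the dimension
  have hle : ∑ i, (EE 1 (w i)).card ≤ (Tfin t).card := by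
    obtain ⟨v, hv, hli⟩ := hR
    choose u hu using fun i => (mem_mspan_iff (Tfin t) (v i)).1 (hv i)
    have hlin : LinearIndependent K u := by
      rw [Fintype.linearIndependent_iff]
      intro g hg
      apply hli g
      have h3 : ∑ i, g i • v i = 0 := by
        have h4 := congrArg (coordMap K (Tfin t)) hg
        rw [map_sum, map_zero] at h4
        rw [← h4]
        refine Finset.sum_congr rfl fun i _ => ?_
        rw [map_smul, hu]
      rw [h3]
      exact Ideal.zero_mem _
    have h5 := hlin.fintype_card_le_finrank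
    rw [Fintype.card_fin, Module.finrank_fin_fun] at h5
    exact h5
  rw [h2, h1, ← hcardE, ← hcardT]
  omega

end Pool.Agent.H879.RV
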