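import Pool.Agent.H879.RV.FinWd
import Pool.Agent.H879.RV.FinTD

set_option autoImplicit false

namespace Pool.Agent.H879.RV

open Polynomial
open Pool.Agent.H350R3.GR (ptI)

variable {K : Type} [Field K]

open WdN Pool.Agent.H932R2 Pool.Agent.H932R3 in
theorem finrank_Wd_ge {ι : Type} [Fintype ι] (a b : ι → K) (w : ι → ℕ) (t : ℕ) :
    (t + 2).choose 2 ≤ Module.finrank K ↥(Wd a b w (t : ℤ)) + ∑ i, (w i + 1).choose 2 := by
  classical
  obtain ⟨hT, hfin⟩ := finrank_TDs (K := K) t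
  have hcardE : ∑ i, (EE 1 (w i)).card = ∑ i, (w i + 1).choose 2 :=
    Finset.sum_congr rfl fun i _ => card_EE_eq (w i)
  have hcardS : Fintype.card (Σ i : ι, EE 1 (w i)) = ∑ i, (EE 1 (w i)).card := by
    rw [Fintype.card_sigma]
    exact Finset.sum_congr rfl fun a _ => Fintype.card_coe _
  set φ : ↥(TDs K (t : ℤ)) →ₗ[K] ((Σ i : ι, EE 1 (w i)) → K) :=
    (condMapV 1 w a (fun i => C (b i))).comp (TDs K (t : ℤ)).subtype with hφ
  have h1 := LinearMap.finrank_range_add_finrank_ker (K := K) (V := ↥(TDs K (t : ℤ)))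
    (V₂ := ((Σ i : ι, EE 1 (w i)) → K)) φ
  have h2 : Module.finrank K ↥(LinearMap.range φ) ≤ ∑ i, (EE 1 (w i)).card := by
    refine le_trans (Submodule.finrank_le _) ?_
    rw [Module.finrank_fintype_fun_eq_card, hcardS]
  have h3 : Module.finrank K ↥(LinearMap.ker φ) ≤ Module.finrank K ↥(Wd a b w (t : ℤ)) := by
    have hfW : Module.Finite K ↥(Wd a b w (t : ℤ)) := by
      unfold Wd
      have : Module.Finite K ↥(TDs K (t : ℤ)) := hfin
      exact Submodule.finiteDimensional_inf_left _ _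
    set ψ : ↥(LinearMap.ker φ) →ₗ[K] ↥(Wd a b w (t : ℤ)) :=
      LinearMap.codRestrict _ ((TDs K (t : ℤ)).subtype.comp (LinearMap.ker φ).subtype) (by
        intro x
        refine ⟨x.1.2, ?_⟩
        have hx : condMapV 1 w a (fun i => C (b i)) (x.1 : K[X][X]) = 0 := x.2
        exact mem_vIdeal_iff.2 hx) with hψ
    apply LinearMap.finrank_le_finrank_of_injective (f := ψ)
    intro x y hxy
    apply Subtype.ext
    apply Subtype.ext
    exact congrArg (fun z : ↥(Wd a b w (t : ℤ)) => (z : K[X][X])) hxy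
  rw [hT] at h1
  rw [← hcardE]
  omega

end Pool.Agent.H879.RV
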