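import Pool.Agent.H879.RV.Defs
import Pool.Graph.R_seed8.H932R2.Points
import Pool.Graph.R_seed8.H248R5.Defs

set_option autoImplicit false

namespace Pool.Agent.H879.RV

open Polynomial Pool.Agent.H932R2
open Pool.Agent.H350R3.GR (ptI)

theorem mspan_Tset_eq {K : Type} [Field K] (d : ℕ) : mspan K (Tset d) = TDs K (d : ℤ) := by
  apply le_antisymm
  · unfold mspan
    rw [Submodule.span_le]
    rintro _ ⟨⟨i, l⟩, hp, rfl⟩
    rw [mem_Tset] at hp
    intro a b hab
    rw [coeff_mon] at hab
    by_contra hcon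
    apply hab
    rw [if_neg]
    intro h
    rw [Prod.mk.injEq] at h
    obtain ⟨h1, h2⟩ := h
    omega
  · intro G hG
    rw [mem_TDs] at hG
    have h1 : G = ∑ i ∈ G.support, ∑ j ∈ (G.coeff i).support,
        ((G.coeff i).coeff j) • mon K (j, i) := by
      conv_lhs => rw [G.as_sum_support_C_mul_X_pow]
      refine Finset.sum_congr rfl fun i _ => ?_
      conv_lhs => rw [(G.coeff i).as_sum_support_C_mul_X_pow]
      rw [map_sum, Finset.sum_mul]
      refine Finset.sum_congr rfl fun j _ => ?_
      rw [mon, Algebra.smul_def, C_mul, mul_assoc]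
      rfl
    rw [h1]
    refine Submodule.sum_mem _ fun i _ => Submodule.sum_mem _ fun j hj =>
      Submodule.smul_mem _ _ (Submodule.subset_span ⟨_, ?_, rfl⟩)
    have h2 := hG i j (mem_support_iff.1 hj)
    rw [mem_Tset]
    omega

theorem forms_Wd {K : Type} [Field K] {n : ℕ} (w : Fin n → ℕ) (P : Fin n → Fin 2 → K) (d : ℕ) :
    Module.finrank K ↥(Pool.Agent.H248R5.forms w P d) =
      Module.finrank K ↥(Wd (fun i => P i 0) (fun i => P i 1) w (d : ℤ)) := by
  unfold Wd
  rw [← mspan_Tset_eq]
  unfold Pool.Agent.H248R5.forms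
  refine finrank_forms _ _ fun F hF => ?_
  rw [Submodule.restrictScalars_mem, Submodule.restrictScalars_mem, mem_fat, Ideal.mem_iInf]
  exact forall_congr' fun i => mem_ptIdeal_iff hF

end Pool.Agent.H879.RV
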