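import Pool.Agent.H879.RV.Defs

set_option autoImplicit false

namespace Pool.Agent.H879.RV

open Polynomial
open Pool.Agent.H350R3.GR (ptI)

variable {K : Type} [Field K]

theorem local_ord_mem {a b : K} {m : ℕ} {f : K[X][X]} : f ∈ ptI a b m ↔
    ∀ l i : ℕ, l + i < m → ((Pool.Agent.H932R2.sh a (C b) f).coeff l).coeff i = 0 := by
  unfold ptI
  rw [Pool.Agent.H932R2.mem_cIdeal_iff]
  constructor
  · intro h l i hli
    exact h l (by omega) i (by omega)
  · intro h l hl i hi
    exact h l i (by omega)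

theorem local_ord {a b : K} {c v : ℕ} (hcv : c ≤ v + 1) (g : ℕ → K[X][X])
    (h : ∀ k < v, (X - C (C b)) * g k - C (X - C a) * g (k + 1) ∈ ptI a b c) :
    ∀ k ≤ v, g k ∈ ptI a b (c - 1) := by
  set G : ℕ → K[X][X] := fun k => Pool.Agent.H932R2.sh a (C b) (g k) with hG
  have hsh : ∀ k, Pool.Agent.H932R2.sh a (C b)
      ((X - C (C b)) * g k - C (X - C a) * g (k + 1)) = X * G k - C X * G (k + 1) := by
    intro k
    rw [map_sub, map_mul, map_mul, map_sub, Pool.Agent.H932R2.sh_X, Pool.Agent.H932R2.sh_C,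
      Pool.Agent.H932R2.sh_C]
    simp [hG]
  have hD : ∀ k < v, ∀ l i : ℕ, l + i < c → ((X * G k - C X * G (k + 1)).coeff l).coeff i = 0 := by
    intro k hk l i hli
    rw [← hsh]
    exact local_ord_mem.1 (h k hk) l i hli
  have R1 : ∀ k < v, ∀ l i : ℕ, l + 1 + i + 1 < c →
      ((G k).coeff l).coeff (i + 1) = ((G (k + 1)).coeff (l + 1)).coeff i := by
    intro k hk l i hli
    have h1 := hD k hk (l + 1) (i + 1) (by omega)
    rw [coeff_sub, coeff_X_mul, coeff_C_mul, coeff_sub, coeff_X_mul] at h1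
    exact sub_eq_zero.1 h1
  have R2 : ∀ k < v, ∀ l : ℕ, l + 1 < c → ((G k).coeff l).coeff 0 = 0 := by
    intro k hk l hl
    have h1 := hD k hk (l + 1) 0 (by omega)
    rw [coeff_sub, coeff_X_mul, coeff_C_mul, coeff_sub, mul_coeff_zero, coeff_X_zero, zero_mul,
      sub_zero] at h1
    exact h1
  have R3 : ∀ k < v, ∀ i : ℕ, i + 1 < c → ((G (k + 1)).coeff 0).coeff i = 0 := by
    intro k hk i hi
    have h1 := hD k hk 0 (i + 1) (by omega)
    rw [coeff_sub, mul_coeff_zero, coeff_X_zero, zero_mul, zero_sub, coeff_C_mul, coeff_neg,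
      coeff_X_mul, neg_eq_zero] at h1
    exact h1
  have up : ∀ i k l : ℕ, k + i < v → l + i + 1 < c → ((G k).coeff l).coeff i = 0 := by
    intro i
    induction i with
    | zero =>
      intro k l h1 h2
      exact R2 k (by omega) l (by omega)
    | succ i ih =>
      intro k l h1 h2
      rw [R1 k (by omega) l i (by omega)]
      exact ih (k + 1) (l + 1) (by omega) (by omega)
  have dn : ∀ l k i : ℕ, l < k → k ≤ v → l + i + 1 < c → ((G k).coeff l).coeff i = 0 := by
    intro l
    induction l with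
    | zero =>
      intro k i h1 h2 h3
      obtain ⟨k', rfl⟩ : ∃ k', k = k' + 1 := ⟨k - 1, by omega⟩
      exact R3 k' (by omega) i (by omega)
    | succ l ih =>
      intro k i h1 h2 h3
      obtain ⟨k', rfl⟩ : ∃ k', k = k' + 1 := ⟨k - 1, by omega⟩
      rw [← R1 k' (by omega) l i (by omega)]
      exact ih k' (i + 1) (by omega) (by omega) (by omega)
  intro k hk
  rw [local_ord_mem]
  intro l i hli
  rcases Nat.lt_or_ge l k with h1 | h1
  · exact dn l k i h1 hk (by omega)
  · exact up i k l (by omega) (by omega)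

end Pool.Agent.H879.RV
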