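import Mathlib

set_option autoImplicit false

namespace Pool.Agent.H879.RV

/-- Two classes whose intersection number is at most zero, and whose sum is nonnegative on both:
the square of the sum is at most zero. -/
theorem lorentz {ι : Type} [Fintype ι] {b m : ℤ} (hb : 1 ≤ b) (hm : 1 ≤ m) {x y : ι → ℤ}
    (h1 : b * m ≤ ∑ i, x i * y i) (h2 : ∑ i, (x i + y i) * x i ≤ (b + m) * b)
    (h3 : ∑ i, (x i + y i) * y i ≤ (b + m) * m) : (b + m) ^ 2 ≤ ∑ i, (x i + y i) ^ 2 := by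
  obtain ⟨p, hp⟩ : ∃ p, p = ∑ i, x i ^ 2 := ⟨_, rfl⟩
  obtain ⟨q, hq⟩ : ∃ q, q = ∑ i, y i ^ 2 := ⟨_, rfl⟩
  obtain ⟨r, hr⟩ : ∃ r, r = ∑ i, x i * y i := ⟨_, rfl⟩
  have e2 : ∑ i, (x i + y i) * x i = p + r := by
    rw [hp, hr, ← Finset.sum_add_distrib]
    exact Finset.sum_congr rfl fun i _ => by ring
  have e3 : ∑ i, (x i + y i) * y i = r + q := by
    rw [hq, hr, ← Finset.sum_add_distrib]
    exact Finset.sum_congr rfl fun i _ => by ring
  have e4 : ∑ i, (x i + y i) ^ 2 = p + 2 * r + q := by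
    rw [hp, hq, hr, Finset.mul_sum, ← Finset.sum_add_distrib, ← Finset.sum_add_distrib]
    exact Finset.sum_congr rfl fun i _ => by ring
  have hcs : r ^ 2 ≤ p * q := by
    rw [hp, hq, hr]
    exact Finset.sum_mul_sq_le_sq_mul_sq _ _ _
  have hp0 : 0 ≤ p := by
    rw [hp]
    exact Finset.sum_nonneg fun i _ => sq_nonneg _
  have hq0 : 0 ≤ q := by
    rw [hq]
    exact Finset.sum_nonneg fun i _ => sq_nonneg _
  rw [← hr] at h1
  rw [e2] at h2
  rw [e3] at h3
  rw [e4]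
  have hpb : p ≤ b ^ 2 := by nlinarith
  have hqm : q ≤ m ^ 2 := by nlinarith
  have hbm : 1 ≤ b * m := by nlinarith
  have hr2 : (b * m) ^ 2 ≤ r ^ 2 := by nlinarith
  have hpb' : b ^ 2 ≤ p := by
    by_contra hcon
    push Not at hcon
    have h4 : p * q ≤ p * m ^ 2 := mul_le_mul_of_nonneg_left hqm hp0
    have h5 : p * m ^ 2 < b ^ 2 * m ^ 2 := mul_lt_mul_of_pos_right hcon (by positivity)
    nlinarith
  have hqm' : m ^ 2 ≤ q := by
    by_contra hcon
    push Not at hcon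
    have h4 : p * q ≤ b ^ 2 * q := mul_le_mul_of_nonneg_right hpb hq0
    have h5 : b ^ 2 * q < b ^ 2 * m ^ 2 := mul_lt_mul_of_pos_left hcon (by positivity)
    nlinarith
  nlinarith

end Pool.Agent.H879.RV
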