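import Pool.Agent.H879.RV.Ordering
import Pool.Agent.H879.RV.FormsWd
import Pool.Agent.H879.RV.FinWd

/-! Vanishing for nef and big classes on a blow-up of the plane, in every characteristic. -/

set_option autoImplicit false

namespace Pool.Agent.H879.RV

open MvPolynomial Pool.Agent.W609 Pool.Agent.W609.CR Pool.Agent.TH167.SH Pool.Agent.TH167.TT
open Pool.Agent.H539.RVO

/-- the shear -/
def shm {K : Type} [Field K] (a : K) : Matrix (Fin 3) (Fin 3) K := !![1, a, 0; 0, 1, 0; 0, 0, 1]

theorem shm_det {K : Type} [Field K] (a : K) : (shm a).det ≠ 0 := by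
  unfold shm
  rw [Matrix.det_fin_three]
  simp

theorem shm_aff {K : Type} [Field K] (a : K) (p : Fin 2 → K) :
    (shm a).mulVec (aff p) = aff ![p 0 + a * p 1, p 1] := by
  unfold shm aff
  ext i
  fin_cases i <;> simp [Matrix.mulVec, dotProduct, Fin.sum_univ_three]

/-- a form which is not divisible by the third variable is nonzero at `(a : 1 : 0)` for some `a` -/
theorem exists_a {K : Type} [Field K] [Infinite K] {f : MvPolynomial (Fin 3) K} {D : ℕ}
    (hf : f.IsHomogeneous D) (hX : ¬ (X 2 : MvPolynomial (Fin 3) K) ∣ f) :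
    ∃ a : K, eval ![a, 1, 0] f ≠ 0 := by
  classical
  have h1 : ∃ α ∈ f.support, α 2 = 0 := by
    by_contra hcon
    push Not at hcon
    apply hX
    rw [← support_sum_monomial_coeff f]
    refine Finset.dvd_sum fun α hα => ?_
    rw [X_dvd_monomial]
    exact Or.inr (hcon α hα)
  obtain ⟨α, hα, hα2⟩ := h1
  have hdeg : ∀ β ∈ f.support, β 0 + β 1 + β 2 = D := by
    intro β hβ
    rw [mem_support_iff] at hβ
    have h2 : β.degree = D := by
      rw [Finsupp.degree_eq_weight_one]
      exact hf hβ
    rw [Finsupp.degree_eq_sum, Fin.sum_univ_three] at h2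
    exact h2
  obtain ⟨p, hp⟩ : ∃ p : Polynomial K, p = aeval ![Polynomial.X, 1, 0] f := ⟨_, rfl⟩
  have hp0 : p ≠ 0 := by
    intro h0
    have h2 : p.coeff (α 0) = f.coeff α := by
      rw [hp, aeval_def, eval₂_eq', Polynomial.finsetSum_coeff, Finset.sum_eq_single α]
      · rw [Fin.prod_univ_three]
        simp [hα2]
      · intro β hβ hne
        rw [Fin.prod_univ_three]
        by_cases hβ2 : β 2 = 0
        · have h3 : β 0 ≠ α 0 := by
            intro h4
            apply hne
            have h5 := hdeg β hβ
            have h6 := hdeg α hα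
            ext i
            fin_cases i
            · exact h4
            · change β 1 = α 1
              omega
            · change β 2 = α 2
              omega
          simp [hβ2, Polynomial.coeff_X_pow, h3.symm]
        · simp [hβ2]
      · intro h
        exact absurd hα h
    rw [h0, Polynomial.coeff_zero] at h2
    exact (mem_support_iff.1 hα) h2.symm
  obtain ⟨a, ha⟩ : ∃ a : K, p.eval a ≠ 0 := by
    by_contra hcon
    push Not at hcon
    exact hp0 (Polynomial.funext fun a => by rw [hcon a, Polynomial.eval_zero])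
  refine ⟨a, ?_⟩
  have h2 : p.eval a = eval ![a, 1, 0] f := by
    rw [hp, aeval_def, eval₂_eq', eval_eq', Polynomial.eval_finsetSum]
    refine Finset.sum_congr rfl fun β _ => ?_
    rw [Fin.prod_univ_three, Fin.prod_univ_three]
    simp
  rw [← h2]
  exact ha

theorem eval_shm {K : Type} [Field K] (a : K) (f : MvPolynomial (Fin 3) K) :
    ev K (lin (shm a) f) = eval ![a, 1, 0] f := by
  have h : (ev K).comp (lin (shm a)).toRingHom = eval ![a, 1, 0] := by
    apply MvPolynomial.ringHom_ext
    · intro c
      simp [ev]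
    · intro i
      fin_cases i <;> simp [ev, lin, shm, Fin.sum_univ_three]
  exact RingHom.congr_fun h f

/-- **Vanishing for nef and big classes in every characteristic**: let `P` be distinct points of the
plane over an algebraically closed field, let `(D; u)` be effective, nonnegative on all the irreducible
curves, and of positive square. Then the points impose independent conditions with the multiplicities
`u - 1` on the forms of degree `D - 3`. -/
theorem rv {K : Type} [Field K] [IsAlgClosed K] {n : ℕ} {P : Fin n → Fin 2 → K}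
    (hP : ∀ i j, P i = P j → i = j) {D : ℕ} (hD3 : 3 ≤ D) {u : Fin n → ℕ}
    {f : MvPolynomial (Fin 3) K} (hf0 : f ≠ 0) (hfD : f.IsHomogeneous D)
    (hfu : ∀ i, Van (aff (P i)) (u i) f)
    (hnef : ∀ (G : MvPolynomial (Fin 3) K) (e : ℕ) (c : Fin n → ℕ), Irreducible G →
      G.IsHomogeneous e → (∀ i, Ord (aff (P i)) (c i) G) → ∑ i, u i * c i ≤ D * e)
    (hbig : ∑ i, u i ^ 2 < D ^ 2) :
    Module.finrank K ↥(Pool.Agent.H248R5.forms (fun i => u i - 1) P (D - 3)) +
      ∑ i, (u i - 1 + 1).choose 2 = (D - 1).choose 2 := by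
  classical
  -- remove the powers of the third variable
  have hstep : ∀ N : ℕ, ∀ D' ≤ N, ∀ f : MvPolynomial (Fin 3) K, f ≠ 0 → f.IsHomogeneous D' →
      (∀ i, Van (aff (P i)) (u i) f) → ∃ D'' ≤ D', ∃ f' : MvPolynomial (Fin 3) K,
        ¬ (X 2 : MvPolynomial (Fin 3) K) ∣ f' ∧ f'.IsHomogeneous D'' ∧
          ∀ i, Van (aff (P i)) (u i) f' := by
    intro N
    induction N with
    | zero =>
      intro D' hD' f hf hfD hfu
      have hD0 : D' = 0 := by omega
      subst hD0
      refine ⟨0, le_refl _, f, ?_, hfD, hfu⟩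
      rintro ⟨g, hg⟩
      have hg0 : g ≠ 0 := by
        rintro rfl
        rw [mul_zero] at hg
        exact hf hg
      have h1 := Pool.Agent.Chud.homog_of_dvd hfD hf (Dvd.intro_left _ hg.symm)
      have h2 : (X 2 : MvPolynomial (Fin 3) K).IsHomogeneous 1 := isHomogeneous_X _ _
      rw [hg] at hfD hf
      have := hfD.inj_right (h2.mul h1) hf
      omega
    | succ N ih =>
      intro D' hD' f hf hfD hfu
      by_cases hX : (X 2 : MvPolynomial (Fin 3) K) ∣ f
      · obtain ⟨g, hg⟩ := hX
        have hg0 : g ≠ 0 := by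
          rintro rfl
          rw [mul_zero] at hg
          exact hf hg
        have h1 := Pool.Agent.Chud.homog_of_dvd hfD hf (Dvd.intro_left _ hg.symm)
        have h2 : (X 2 : MvPolynomial (Fin 3) K).IsHomogeneous 1 := isHomogeneous_X _ _
        have h3 : D' = 1 + g.totalDegree := by
          have hfD' := hfD
          have hf' := hf
          rw [hg] at hfD' hf'
          exact hfD'.inj_right (h2.mul h1) hf'
        have h4 : ∀ i, Van (aff (P i)) (u i) g := by
          intro i
          obtain ⟨k, hk⟩ := exists_ord (p := P i) hg0 h1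
          have h5 : Ord (aff (P i)) 0 (X 2 : MvPolynomial (Fin 3) K) := by
            refine ⟨?_, ?_⟩
            · unfold Van
              rw [pow_zero, Ideal.one_eq_top]
              exact Submodule.mem_top
            · unfold Van
              rw [zero_add, pow_one, RingHom.mem_ker, eval_X]
              simp [aff]
          have h6 := ord_mul h5 hk
          rw [← hg, zero_add] at h6
          by_cases hle : u i ≤ k
          · exact van_mono hle hk.1
          · exact absurd (van_mono (by omega) (hfu i)) h6.2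
        obtain ⟨D'', hD'', f', h7⟩ := ih g.totalDegree (by omega) g hg0 h1 h4
        exact ⟨D'', by omega, f', h7⟩
      · exact ⟨D', le_refl _, f, hX, hfD, hfu⟩
  obtain ⟨D', hD', f', hX, hf'D, hf'u⟩ := hstep D D (le_refl _) f hf0 hfD hfu
  obtain ⟨a, ha⟩ := exists_a hf'D hX
  obtain ⟨hL, -⟩ := t_lin K
  obtain ⟨hL1, hL2, hL3, hL4⟩ := hL (shm a) (shm_det a)
  obtain ⟨hM1, hM2, hM3, hM4⟩ := hL (shm (-a)) (shm_det (-a))
  -- the new points
  obtain ⟨P', hP'⟩ : ∃ P' : Fin n → Fin 2 → K, P' = fun i => ![P i 0 - a * P i 1, P i 1] := ⟨_, rfl⟩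
  have hPP : ∀ i, (shm a).mulVec (aff (P' i)) = aff (P i) := by
    intro i
    rw [hP', shm_aff]
    congr 1
    ext j
    fin_cases j <;> simp
  have hPM : ∀ i, (shm (-a)).mulVec (aff (P i)) = aff (P' i) := by
    intro i
    rw [hP', shm_aff]
    congr 1
    ext j
    fin_cases j
    · simp
      ring
    · simp
  have hP'inj : ∀ i j, P' i 0 = P' j 0 → P' i 1 = P' j 1 → i = j := by
    intro i j h0 h1
    apply hP
    rw [hP'] at h0 h1
    have h1' : P i 1 = P j 1 := h1
    have h0' : P i 0 - a * P i 1 = P j 0 - a * P j 1 := h0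
    ext k
    fin_cases k
    · change P i 0 = P j 0
      rw [h1'] at h0'
      linear_combination h0'
    · exact h1'
  have hI := ordering (P := P') hP'inj hD' (u := u) (f := lin (shm a) f') (by
      rw [← ev_eq (hL1 f' D' hf'D)]
      intro h0
      apply ha
      rw [← eval_shm]
      exact h0) (hL1 f' D' hf'D) (fun i => by
      rw [← hL3, hPP]
      exact hf'u i) (by
      intro G e c hG hGe hc
      refine hnef (lin (shm (-a)) G) e c (hM2 G hG) (hM1 G e hGe) fun i => ?_
      refine ⟨?_, ?_⟩
      · rw [← hM3, hPM]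
        exact (hc i).1
      · rw [← hM3, hPM]
        exact (hc i).2) hbig
  have hcast : ((D : ℤ) - 3) = ((D - 3 : ℕ) : ℤ) := by
    rw [Nat.cast_sub hD3]
    rfl
  rw [hcast] at hI
  have h1 := finrank_Wd_eq hP'inj hI
  rw [← forms_Wd (fun i => u i - 1) P' (D - 3)] at h1
  have h2 := hL4 (Fin n) (fun i => aff (P' i)) (fun i => u i - 1) (D - 3)
  have h3 : (fun i => (shm a).mulVec (aff (P' i))) = fun i => aff (P i) := funext hPP
  rw [h3, vs_eq_forms, vs_eq_forms] at h2
  rw [h2, h1]
  congr 1
  omega

end Pool.Agent.H879.RV
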