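import Pool.Agent.H879.RV.Std

/-! Classes whose large multiplicities leave a margin in the positive cone. -/

set_option autoImplicit false

namespace Pool.Agent.H879.RV

open MvPolynomial Pool.Agent.W609 Pool.Agent.W609.CR Pool.Agent.TH167.SH Pool.Agent.TH167.TT
open Pool.Agent.K4H28.TC (below above coreA coreB std_nonneg std_c form_of_irr)
open Pool.Agent.Y205.MD
open Pool.Agent.TH387.SH (TF coe_TF card_TF)
open Pool.Agent.H879.Pos (Posv finrank_ind small_crk large small large_add cond_split crk_lower)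
open Finset (univ range)

/-- the corank of a standard class with `Tail` -/
theorem crk_std {r d : ℕ} {w : Fin (r + 4) → ℕ}
    (hstd : ∀ i j k, i ≠ j → i ≠ k → j ≠ k → w i + w j + w k ≤ d)
    {T : Finset (Fin (r + 4))} (hT : Tail T ((d : ℝ) + 3) (fun i => (up w i : ℝ)))
    (hbig : ∑ i, up w i ^ 2 < (d + 3) ^ 2)
    (heff : ∑ i, up w i ^ 2 + ∑ i, up w i < (d + 4) * (d + 5)) :
    crk (TF d) w + ∑ i, (w i + 1).choose 2 = (d + 2).choose 2 := by
  obtain ⟨P, hP⟩ := exists_pts (r + 4)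
  rw [← finrank_ind w d hP]
  exact std_rv hP hstd hT hbig heff

/-- positivity from a nef class with a margin -/
theorem posv_margin {r d D T : ℕ} {v : Fin (r + 4) → ℕ} (hd : D + T ≤ d)
    (hstd : ∀ i j k, i ≠ j → i ≠ k → j ≠ k → v i + v j + v k ≤ D)
    (hD0 : ∑ i, v i ^ 2 ≤ D ^ 2) {S : Finset (Fin (r + 4))}
    (hS : Tail S (D : ℝ) (fun i => (v i : ℝ))) : Posv T d v := by
  obtain ⟨P, hP⟩ := exists_pts (r + 4)
  have key : ∀ (e : ℕ) (c : Fin (r + 4) → ℕ), 1 ≤ crk (TF e) c → ∑ i, v i * c i ≤ D * e := by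
    intro e c hc
    rw [← finrank_ind c e hP] at hc
    have hfin := Pool.Agent.H248R6.forms_finite c P e
    obtain ⟨⟨f, hf⟩, hf0⟩ := Module.finrank_pos_iff_exists_ne_zero.1 (show 0 < _ from hc)
    have hf0' : f ≠ 0 := fun h => hf0 (Subtype.ext h)
    rw [← vs_eq_forms] at hf
    unfold VS at hf
    rw [Submodule.mem_inf, mem_homogeneousSubmodule, Submodule.restrictScalars_mem,
      Ideal.mem_iInf] at hf
    have h1 := form_of_irr (p := P) (x := fun i => (v i : ℝ)) (c := (D : ℝ))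
      (fun i => Nat.cast_nonneg _) (fun G e' u hG hGe hu => nef_std hP (fun i => Nat.cast_nonneg _)
        (fun i j k hij hik hjk => by exact_mod_cast hstd i j k hij hik hjk)
        (by exact_mod_cast hD0) hS G e' u hG hGe hu) f hf0' e c hf.1 hf.2
    have h2 : ((∑ i, v i * c i : ℕ) : ℝ) ≤ ((D * e : ℕ) : ℝ) := by
      push_cast
      exact h1
    exact_mod_cast h2
  refine ⟨fun e c hc => (key e c hc).trans (Nat.mul_le_mul_right _ (by omega)), fun e c hc => ?_⟩
  have he : 1 ≤ e := by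
    by_contra hcon
    have h0 : e = 0 := by omega
    subst h0
    have h1 := Pool.Agent.K7.H33.BP.crk_le_card (TF 0) c
    rw [card_TF] at h1
    norm_num at h1
    omega
  have h1 := key e c (by omega)
  calc ∑ i, v i * c i + T ≤ D * e + T * e := Nat.add_le_add h1 (by nlinarith)
    _ = (D + T) * e := by ring
    _ ≤ d * e := Nat.mul_le_mul_right _ hd

theorem up_le {n : ℕ} (v : Fin n → ℕ) (i : Fin n) : v i ≤ up v i := by
  unfold up
  split_ifs <;> omega

theorem up_lt {n : ℕ} {v : Fin n → ℕ} {i j : Fin n} (h : v j < v i) : up v j < up v i := by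
  unfold up
  split_ifs <;> omega

theorem sum_up {n : ℕ} (v : Fin n → ℕ) : ∑ i, up v i ≤ 2 * ∑ i, v i := by
  rw [Finset.mul_sum]
  refine Finset.sum_le_sum fun i _ => ?_
  unfold up
  split_ifs <;> omega

theorem sum_up_sq {n : ℕ} (v : Fin n → ℕ) : ∑ i, up v i ^ 2 ≤ ∑ i, v i ^ 2 + 3 * ∑ i, v i := by
  rw [Finset.mul_sum, ← Finset.sum_add_distrib]
  refine Finset.sum_le_sum fun i _ => ?_
  unfold up
  split_ifs with h
  · rw [h]
    norm_num
  · nlinarith [Nat.one_le_iff_ne_zero.2 h]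

/-- the condition on the other coefficients, for the multiplicities plus one -/
theorem tail_up {r d D T : ℕ} {v : Fin (r + 4) → ℕ} (hd : D + T = d) (hT : 100 ≤ T)
    (hv : 100 * ∑ i, v i ≤ T * D)
    (hD0 : ∑ i, v i ^ 2 ≤ D ^ 2) {S : Finset (Fin (r + 4))}
    (hS : Tail S (D : ℝ) (fun i => (v i : ℝ))) :
    Tail S ((d : ℝ) + 3) (fun i => (up v i : ℝ)) := by
  obtain ⟨V, hV⟩ : ∃ V : ℝ, V = ∑ i, (v i : ℝ) ^ 2 := ⟨_, rfl⟩
  obtain ⟨U, hU⟩ : ∃ U : ℝ, U = ∑ i, (up v i : ℝ) ^ 2 := ⟨_, rfl⟩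
  obtain ⟨s1, hs1⟩ : ∃ s1 : ℝ, s1 = ∑ i, (v i : ℝ) := ⟨_, rfl⟩
  have hs0 : 0 ≤ s1 := by
    rw [hs1]
    exact Finset.sum_nonneg fun i _ => Nat.cast_nonneg _
  have hUV : U ≤ V + 3 * s1 := by
    rw [hU, hV, hs1]
    exact_mod_cast sum_up_sq v
  have hdr : (d : ℝ) = D + T := by
    rw [← hd]
    push_cast
    ring
  have hTr : (100 : ℝ) ≤ T := by exact_mod_cast hT
  have hDr : (0 : ℝ) ≤ D := Nat.cast_nonneg _
  have hvr : 100 * s1 ≤ T * D := by
    rw [hs1]
    exact_mod_cast hv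
  have hVD : V ≤ (D : ℝ) ^ 2 := by
    rw [hV]
    exact_mod_cast hD0
  have hvi : ∀ i, (v i : ℝ) ≤ D := by
    intro i
    have h1 : (v i : ℝ) ^ 2 ≤ V := by
      rw [hV]
      exact Finset.single_le_sum (f := fun i => (v i : ℝ) ^ 2) (fun _ _ => sq_nonneg _)
        (Finset.mem_univ i)
    exact abs_le_of_sq_le_sq' (h1.trans hVD) hDr |>.2
  have hup : ∀ i, (up v i : ℝ) ≤ v i + 1 := by
    intro i
    have h1 : up v i ≤ v i + 1 := by
      unfold up
      split_ifs <;> omega
    exact_mod_cast h1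
  -- the gain
  have hgain : (D : ℝ) ^ 2 - V + T * D ≤ ((d : ℝ) + 3) ^ 2 - U := by
    rw [hdr]
    nlinarith
  have hgain2 : 2 * (D : ℝ) + 3 ≤ T * D + 3 := by nlinarith
  refine ⟨hS.1, fun i hi => ?_⟩
  beta_reduce
  rw [← hU]
  by_cases h0 : v i = 0
  · left
    have h1 : up v i = 0 := by
      unfold up
      rw [if_pos h0]
    rw [h1]
    push_cast
    nlinarith
  have hi1 : (1 : ℝ) ≤ v i := by exact_mod_cast Nat.one_le_iff_ne_zero.2 h0
  have hui : (up v i : ℝ) = v i + 1 := by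
    unfold up
    rw [if_neg h0]
    push_cast
    ring
  have hD1 : (1 : ℝ) ≤ D := hi1.trans (hvi i)
  have hbel : below S (fun i => (v i : ℝ)) i ≤ below S (fun i => (up v i : ℝ)) i := by
    unfold Pool.Agent.K4H28.TC.below
    refine Finset.sum_le_sum fun j _ => ?_
    by_cases hj : j ∉ S ∧ (v j : ℝ) < v i
    · have h3 : up v j < up v i := up_lt (by exact_mod_cast hj.2)
      have h4 : (up v j : ℝ) < up v i := by exact_mod_cast h3
      have h5 : (v j : ℝ) ≤ up v j := by exact_mod_cast up_le v j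
      rw [if_pos hj, if_pos ⟨hj.1, h4⟩]
      exact pow_le_pow_left₀ (Nat.cast_nonneg _) h5 2
    · rw [if_neg hj]
      split_ifs
      · exact sq_nonneg _
      · exact le_rfl
  have hbel0 : 0 ≤ below S (fun i => (v i : ℝ)) i := by
    unfold Pool.Agent.K4H28.TC.below
    refine Finset.sum_nonneg fun j _ => ?_
    split_ifs
    · exact sq_nonneg _
    · exact le_rfl
  have hSi := hS.2 i hi
  beta_reduce at hSi
  rcases hSi with h | h | h
  · left
    rw [← hV] at h
    rw [hui]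
    nlinarith [hvi i]
  · right
    left
    rw [← hV] at h
    rw [hui]
    nlinarith [hvi i]
  · right
    right
    refine ⟨h.1, ?_⟩
    have h2 := h.2
    rw [← hV] at h2
    rw [hui]
    obtain ⟨A, hA⟩ : ∃ A : ℝ, A = above S (fun i => (v i : ℝ)) i := ⟨_, rfl⟩
    obtain ⟨B, hB⟩ : ∃ B : ℝ, B = below S (fun i => (v i : ℝ)) i := ⟨_, rfl⟩
    obtain ⟨A', hA'⟩ : ∃ A' : ℝ, A' = above S (fun i => (up v i : ℝ)) i := ⟨_, rfl⟩
    obtain ⟨B', hB'⟩ : ∃ B' : ℝ, B' = below S (fun i => (up v i : ℝ)) i := ⟨_, rfl⟩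
    rw [← hA, ← hB] at h2
    rw [← hA', ← hB']
    rw [← hB, ← hB'] at hbel
    rw [← hB] at hbel0
    have hAV : A ≤ V := by
      rw [hA, hV]
      unfold Pool.Agent.K4H28.TC.above
      refine Finset.sum_le_sum fun j _ => ?_
      split_ifs
      · exact le_rfl
      · exact sq_nonneg _
    have hAA : A' ≤ A + 3 * s1 := by
      rw [hA', hA, hs1]
      unfold Pool.Agent.K4H28.TC.above
      rw [Finset.mul_sum, ← Finset.sum_add_distrib]
      refine Finset.sum_le_sum fun j _ => ?_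
      by_cases hj : j ∉ S ∧ (up v i : ℝ) ≤ up v j
      · have h3 : (v i : ℝ) ≤ v j := by
          by_contra hcon
          push Not at hcon
          have h4 : up v j < up v i := up_lt (by exact_mod_cast hcon)
          have h5 : (up v j : ℝ) < up v i := by exact_mod_cast h4
          linarith [hj.2]
        rw [if_pos hj, if_pos ⟨hj.1, h3⟩]
        have h6 := hup j
        have h7 : (1 : ℝ) ≤ v j := hi1.trans h3
        have h8 : (0 : ℝ) ≤ up v j := Nat.cast_nonneg _
        nlinarith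
      · rw [if_neg hj]
        have h3 : (0 : ℝ) ≤ v j := Nat.cast_nonneg _
        split_ifs
        · positivity
        · linarith
    obtain ⟨q, hq⟩ : ∃ q : ℝ, q = (D : ℝ) ^ 2 - V := ⟨_, rfl⟩
    rw [← hq] at h2 hgain
    have hq0 : 0 ≤ q := by
      rw [hq]
      linarith
    have hvi' := hvi i
    have hA0 : 0 ≤ A := by
      rw [hA]
      unfold Pool.Agent.K4H28.TC.above
      refine Finset.sum_nonneg fun j _ => ?_
      split_ifs
      · exact sq_nonneg _
      · exact le_rfl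
    have hAD : A ≤ (D : ℝ) ^ 2 := hAV.trans hVD
    calc 2 * ((v i : ℝ) + 1) * A' ≤ 2 * ((v i : ℝ) + 1) * (A + 3 * s1) :=
          mul_le_mul_of_nonneg_left hAA (by positivity)
      _ = 2 * v i * A + 2 * A + 6 * (v i + 1) * s1 := by ring
      _ ≤ D * (q + B) + 2 * D ^ 2 + 6 * (2 * D) * (T * D / 100) := by
          have h3 : 6 * ((v i : ℝ) + 1) * s1 ≤ 6 * (2 * D) * (T * D / 100) := by
            have h4 : (6 : ℝ) * (v i + 1) ≤ 6 * (2 * D) := by linarith
            have h5 : s1 ≤ T * D / 100 := by linarith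
            exact mul_le_mul h4 h5 hs0 (by positivity)
          linarith
      _ ≤ ((d : ℝ) + 3) * (((d : ℝ) + 3) ^ 2 - U + B') := by
          have h3 : (D : ℝ) * (q + T * D + B) ≤ ((d : ℝ) + 3) * (((d : ℝ) + 3) ^ 2 - U + B') := by
            refine mul_le_mul ?_ ?_ ?_ ?_
            · rw [hdr]
              linarith
            · linarith
            · positivity
            · rw [hdr]
              linarith
          refine le_trans ?_ h3
          nlinarith

/-- **Classes whose large multiplicities leave a margin**: any number of arbitrary small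
multiplicities. -/
theorem crk_margin {r d D T μ : ℕ} {w : Fin (r + 4) → ℕ} (hd : D + T = d)
    (hT1 : 8796093022208 * (μ + 1) ^ 11 ≤ T)
    (hT2 : 16384 * (μ + 1) ^ 3 * ∑ i, large w μ i ≤ T * D)
    (hstd : ∀ i j l, i ≠ j → i ≠ l → j ≠ l → large w μ i + large w μ j + large w μ l ≤ D)
    (hD0 : ∑ i, large w μ i ^ 2 ≤ D ^ 2) {S : Finset (Fin (r + 4))}
    (hS : Tail S (D : ℝ) (fun i => (large w μ i : ℝ))) :
    crk (TF d) w = (d + 2).choose 2 - ∑ i, (w i + 1).choose 2 := by
  classical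
  obtain ⟨v, hv⟩ : ∃ v, v = large w μ := ⟨_, rfl⟩
  rw [← hv] at hstd hD0 hS hT2
  have hM1 : 16384 ≤ 16384 * (μ + 1) ^ 3 := by
    have : 1 ≤ (μ + 1) ^ 3 := Nat.one_le_pow _ _ (by omega)
    omega
  have hT100 : 100 ≤ T := by
    have : 1 ≤ (μ + 1) ^ 11 := Nat.one_le_pow _ _ (by omega)
    omega
  have h3 : 100 * ∑ i, v i ≤ T * D :=
    (Nat.mul_le_mul_right _ (by omega)).trans hT2
  have hpos : Posv T d v := posv_margin hd.le hstd hD0 hS
  have hvw : ∀ i, v i = 0 ∨ small w μ i = 0 := by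
    intro i
    rw [hv]
    unfold Pool.Agent.H879.Pos.large Pool.Agent.H879.Pos.small
    split_ifs <;> simp
  have hK : 16384 * (μ + 1) ^ 3 * ∑ i, v i + ∑ i, v i ^ 2 ≤
      16384 * (μ + 1) ^ 3 * (3 * d) + d ^ 2 := by
    have h4 : T * D + D ^ 2 ≤ d ^ 2 := by
      rw [← hd]
      nlinarith
    omega
  have key := small_crk (d := d) (T := T) hvw (fun i => by
    unfold Pool.Agent.H879.Pos.small
    split_ifs <;> omega) hT1 hpos hK
  have e1 : (fun i => v i + small w μ i) = w := by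
    rw [hv]
    exact large_add w μ
  rw [e1] at key
  have hcore := crk_std (d := d) (w := v) (fun i j l hij hil hjl => (hstd i j l hij hil hjl).trans
    (by omega)) (tail_up hd hT100 h3 hD0 hS) (by
      have h4 := sum_up_sq v
      have h5 : D ^ 2 + 3 * (∑ i, v i) < (d + 3) ^ 2 := by
        rw [← hd]
        nlinarith
      omega) (by
      have h4 := sum_up_sq v
      have h5 := sum_up v
      have h6 : D ^ 2 + 5 * (∑ i, v i) < (d + 4) * (d + 5) := by
        rw [← hd]
        nlinarith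
      omega)
  have h5 := cond_split w μ
  rw [← hv] at h5
  omega

end Pool.Agent.H879.RV
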