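import Pool.Agent.H879.RV.Comm
import Pool.Agent.H879.RV.FinTD

set_option autoImplicit false

namespace Pool.Agent.H879.RV

open Polynomial
open Pool.Agent.H350R3.GR (ptI)

variable {K : Type} [Field K]

namespace H51Rl0

theorem ptI_anti (a b : K) {m n : ℕ} (h : m ≤ n) : ptI a b n ≤ ptI a b m := by
  unfold ptI Pool.Agent.H932R2.cIdeal
  exact Ideal.pow_le_pow_right h

theorem fat_anti {ι : Type} (a b : ι → K) {v w : ι → ℕ} (h : ∀ i, v i ≤ w i) :
    fat a b w ≤ fat a b v := by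
  intro G hG
  rw [mem_fat] at hG ⊢
  exact fun i => ptI_anti _ _ (h i) (hG i)

theorem not_ind {ι : Type} {a b : ι → K} {d : ℤ} {w : ι → ℕ} (h : ¬ Ind a b d w) :
    ∃ lam : K[X][X] →ₗ[K] K, lam ≠ 0 ∧ (∀ G ∈ fat a b w, lam G = 0) ∧ ∀ G, TD d G → lam G = 0 := by
  unfold Ind at h
  push Not at h
  obtain ⟨G0, hG0⟩ := h
  have hn : G0 ∉ TDs K d ⊔ Submodule.restrictScalars K (fat a b w) := by
    intro hcon
    obtain ⟨H, hH, N, hN, hHN⟩ := Submodule.mem_sup.1 hcon
    refine hG0 H hH ?_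
    rw [← hHN, add_sub_cancel_left]
    exact hN
  obtain ⟨f, hf, hle⟩ := Submodule.exists_le_ker_of_notMem hn
  refine ⟨f, fun h0 => hf (by rw [h0]; rfl), fun G hG => ?_, fun G hG => ?_⟩
  · exact hle (Submodule.mem_sup_right hG)
  · exact hle (Submodule.mem_sup_left hG)

/-- the operator -/
noncomputable def phi (F H : K[X][X]) : K[X][X] →ₗ[K] K[X][X] where
  toFun G := (H * G) %ₘ F
  map_add' G1 G2 := by rw [mul_add, add_modByMonic]
  map_smul' k G := by
    rw [RingHom.id_apply, mul_smul_comm]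
    have h1 : (k • (H * G)) = C (C k) * (H * G) := by
      rw [← smul_eq_C_mul, ← algebraMap_smul K[X] k (H * G)]
      rfl
    have h2 : k • ((H * G) %ₘ F) = C (C k) * ((H * G) %ₘ F) := by
      rw [← smul_eq_C_mul, ← algebraMap_smul K[X] k ((H * G) %ₘ F)]
      rfl
    rw [h1, h2, ← smul_eq_C_mul, ← smul_eq_C_mul, smul_modByMonic]

theorem eigen [IsAlgClosed K] (W : Submodule K K[X][X]) [Module.Finite K W] (F H : K[X][X])
    (hF : F.Monic) (D : K[X]) (hD : D ≠ 0) (hW : ∀ G ∈ W, ∃ G' ∈ W, (H * G) %ₘ F = C D * G')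
    (hne : ∃ G ∈ W, G ≠ 0) :
    ∃ (κ : K), ∃ G ∈ W, G ≠ 0 ∧ F ∣ (H - C (C κ * D)) * G := by
  have hCD : (C D : K[X][X]) ≠ 0 := by simpa using hD
  set psi : W →ₗ[K] K[X][X] := (LinearMap.mulLeft K (C D : K[X][X])).comp W.subtype with hpsi
  have hinj : Function.Injective psi := by
    intro u v huv
    have h1 : C D * (u : K[X][X]) = C D * (v : K[X][X]) := huv
    exact Subtype.ext (mul_left_cancel₀ hCD h1)
  have hr : ∀ u : W, (phi F H).comp W.subtype u ∈ LinearMap.range psi := by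
    intro u
    obtain ⟨G', hG', h⟩ := hW u u.2
    exact ⟨⟨G', hG'⟩, h.symm⟩
  set T : Module.End K W := (LinearEquiv.ofInjective psi hinj).symm.toLinearMap.comp
    (((phi F H).comp W.subtype).codRestrict (LinearMap.range psi) hr) with hT
  have hTs : ∀ u : W, C D * ((T u : W) : K[X][X]) = (H * (u : K[X][X])) %ₘ F := by
    intro u
    have h1 : LinearEquiv.ofInjective psi hinj (T u)
        = ((phi F H).comp W.subtype).codRestrict (LinearMap.range psi) hr u := by
      rw [hT]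
      exact LinearEquiv.apply_symm_apply _ _
    exact congrArg Subtype.val h1
  obtain ⟨g, hgW, hg⟩ := hne
  have : Nontrivial W := ⟨⟨⟨g, hgW⟩, 0, fun h => hg (congrArg Subtype.val h)⟩⟩
  obtain ⟨κ, hκ⟩ := Module.End.exists_eigenvalue (K := K) (V := ↥W) T
  obtain ⟨u, hu⟩ := hκ.exists_hasEigenvector
  refine ⟨κ, u, u.2, fun h => hu.2 (Subtype.ext h), ?_⟩
  have h1 := hTs u
  rw [hu.apply_eq_smul] at h1
  have h2 : ((κ • u : W) : K[X][X]) = C (C κ) * (u : K[X][X]) := by
    rw [Submodule.coe_smul, ← smul_eq_C_mul, ← algebraMap_smul K[X] κ (u : K[X][X])]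
    rfl
  rw [h2] at h1
  have h3 := modByMonic_add_div (H * (u : K[X][X])) F
  rw [← h1] at h3
  refine ⟨(H * (u : K[X][X])) /ₘ F, ?_⟩
  have h4 : (C (C κ * D) : K[X][X]) = C (C κ) * C D := map_mul _ _ _
  rw [h4]
  linear_combination (-1 : K[X][X]) * h3

end H51Rl0

open H51Rl0 in
theorem rl0 [IsAlgClosed K] {ι : Type} [Fintype ι] {a b : ι → K}
    (hinj : ∀ i j, a i = a j → b i = b j → i = j)
    {F : K[X][X]} (hF : F.Monic) (hFd : TD (F.natDegree : ℤ) F) (hFp : Prime F) {c : ι → ℕ}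
    (hc : ∀ i, F ∈ ptI (a i) (b i) (c i)) : Ind a b ((F.natDegree : ℤ) - 3) (fun i => c i - 1) := by
  by_contra hI
  obtain ⟨lam, h0, h2, h3⟩ := not_ind hI
  have hFfat : F ∈ fat a b (fun i => c i - 1) := by
    rw [mem_fat]
    exact fun i => ptI_anti _ _ (Nat.sub_le _ _) (hc i)
  have h1 : ∀ G, lam (F * G) = 0 := fun G => h2 _ (Ideal.mul_mem_right _ _ hFfat)
  obtain ⟨H, D, hDm, hDfat, hHdeg, hHne, hcom⟩ := common hinj hF hFd hFp hc
    (v := fun i => c i - 1) (fun i => by omega) h0 h1 h2 h3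
  have hF1 : 1 ≤ F.natDegree := by
    by_contra hcon
    have h4 : F.natDegree = 0 := by omega
    have h5 : F = 1 := Polynomial.eq_one_of_monic_natDegree_zero hF h4
    exact hFp.not_isUnit (h5 ▸ isUnit_one)
  have hFdeg : F.degree = (F.natDegree : WithBot ℕ) := degree_eq_natDegree hF.ne_zero
  set t0 := D.natDegree with ht0
  set W : Submodule K K[X][X] := TDs K (t0 : ℤ) ⊓ Submodule.restrictScalars K
    (fat a b (fun i => c i - 1)) ⊓ Submodule.restrictScalars K (degreeLT K[X] F.natDegree) with hW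
  have hmemW : ∀ G, G ∈ W ↔ (TD (t0 : ℤ) G ∧ G ∈ fat a b (fun i => c i - 1)) ∧
      G.degree < F.degree := by
    intro G
    rw [hW, Submodule.mem_inf, Submodule.mem_inf, Submodule.restrictScalars_mem,
      Submodule.restrictScalars_mem, mem_degreeLT, hFdeg]
    rfl
  have hfin : Module.Finite K ↥(TDs K (t0 : ℤ)) := (finrank_TDs (K := K) t0).2
  have : Module.Finite K W := by
    have hle : W ≤ TDs K (t0 : ℤ) := inf_le_left.trans inf_le_left
    exact Submodule.finiteDimensional_of_le hle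
  have hDW : (C D : K[X][X]) ∈ W := by
    rw [hmemW]
    refine ⟨⟨?_, hDfat⟩, ?_⟩
    · intro i j hij
      rw [coeff_C] at hij
      by_cases hi : i = 0
      · rw [if_pos hi] at hij
        have := le_natDegree_of_ne_zero hij
        subst hi
        push_cast
        omega
      · rw [if_neg hi] at hij
        simp at hij
    · refine lt_of_le_of_lt degree_C_le ?_
      rw [hFdeg]
      exact_mod_cast hF1
  have hstab : ∀ G ∈ W, ∃ G' ∈ W, (H * G) %ₘ F = C D * G' := by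
    intro G hG
    rw [hmemW] at hG
    obtain ⟨G', hG'1, hG'2, hG'3, hG'4⟩ := hcom G hG.1.2
    refine ⟨G', ?_, hG'2⟩
    rw [hmemW]
    refine ⟨⟨?_, hG'4⟩, hG'1⟩
    have h6 := hG'3 t0 hG.1.1
    rwa [show (t0 : ℤ) + F.natDegree - 3 - ((F.natDegree : ℤ) - 3) = t0 by ring] at h6
  obtain ⟨κ, G, hGW, hG0, hdvd⟩ := eigen W F H hF D hDm.ne_zero hstab
    ⟨C D, hDW, by simpa using hDm.ne_zero⟩
  rcases hFp.dvd_or_dvd hdvd with h7 | h7
  · have h8 : (H - C (C κ * D)).degree < F.degree := by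
      refine (degree_sub_le _ _).trans_lt (max_lt hHdeg (degree_C_le.trans_lt ?_))
      rw [hFdeg]
      exact_mod_cast hF1
    have h9 := eq_zero_of_dvd_of_degree_lt h7 h8
    exact hHne κ (sub_eq_zero.1 h9)
  · exact hG0 (eq_zero_of_dvd_of_degree_lt h7 ((hmemW G).1 hGW).2)

end Pool.Agent.H879.RV
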