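import Pool.Agent.H879.RV.Comm
import Pool.Agent.H879.RV.Rl0
import Pool.Agent.H879.RV.FinTD
import Pool.Agent.H879.RV.FinWd
import Pool.Agent.H879.RV.FinWdGe
import Pool.Agent.H879.RV.TdTop
import Pool.Agent.H879.RV.Colon

set_option autoImplicit false

namespace Pool.Agent.H879.RV

open Polynomial
open Pool.Agent.H350R3.GR (ptI)

variable {K : Type} [Field K]

namespace RlN

/-- the ideals of a point form a decreasing sequence -/
lemma ptI_anti {a b : K} {m n : ℕ} (h : m ≤ n) : ptI a b n ≤ ptI a b m := by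
  unfold ptI Pool.Agent.H932R2.cIdeal
  exact Ideal.pow_le_pow_right h

lemma ptI_zero {a b : K} : ptI a b 0 = ⊤ := by
  unfold ptI Pool.Agent.H932R2.cIdeal
  exact (pow_zero (M := Ideal K[X][X]) _).trans Ideal.one_eq_top

lemma ptI_mul {a b : K} {m n : ℕ} {f g : K[X][X]} (hf : f ∈ ptI a b m) (hg : g ∈ ptI a b n) :
    f * g ∈ ptI a b (m + n) := by
  have h1 : ptI a b m * ptI a b n = ptI a b (m + n) := by
    unfold ptI Pool.Agent.H932R2.cIdeal
    exact (pow_add (M := Ideal K[X][X]) _ m n).symm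
  rw [← h1]
  exact Ideal.mul_mem_mul hf hg

lemma fat_anti {ι : Type} {a b : ι → K} {v w : ι → ℕ} (h : ∀ i, v i ≤ w i) :
    fat a b w ≤ fat a b v := by
  intro f hf
  rw [mem_fat] at *
  exact fun i => ptI_anti (h i) (hf i)

/-- the total degree of a product -/
lemma td_mul {r s : ℤ} {p q : K[X][X]} (hp : TD r p) (hq : TD s q) : TD (r + s) (p * q) := by
  classical
  intro i j h
  rw [coeff_mul, finsetSum_coeff] at h
  obtain ⟨x, hx, h1⟩ := Finset.exists_ne_zero_of_sum_ne_zero h
  rw [coeff_mul] at h1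
  obtain ⟨y, hy, h2⟩ := Finset.exists_ne_zero_of_sum_ne_zero h1
  replace hx := Finset.HasAntidiagonal.mem_antidiagonal.1 hx
  replace hy := Finset.HasAntidiagonal.mem_antidiagonal.1 hy
  have h3 := hp x.1 y.1 (left_ne_zero_of_mul h2)
  have h4 := hq x.2 y.2 (right_ne_zero_of_mul h2)
  omega

lemma TD.mono {r s : ℤ} (h : r ≤ s) {p : K[X][X]} (hp : TD r p) : TD s p :=
  fun i j hij => le_trans (hp i j hij) h

/-- the total degree of a nonzero polynomial -/
lemma td_exact {p : K[X][X]} (hp : p ≠ 0) : ∃ s : ℕ, TD (s : ℤ) p ∧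
    ∃ i j : ℕ, i + j = s ∧ (p.coeff i).coeff j ≠ 0 := by
  classical
  refine ⟨p.support.sup (fun i => i + (p.coeff i).natDegree), ?_, ?_⟩
  · intro i j h
    have h1 : p.coeff i ≠ 0 := by
      intro h0
      rw [h0, coeff_zero] at h
      exact h rfl
    have h2 : j ≤ (p.coeff i).natDegree := le_natDegree_of_ne_zero h
    have h3 := Finset.le_sup (f := fun i => i + (p.coeff i).natDegree) (mem_support_iff.2 h1)
    have h4 : i + (p.coeff i).natDegree ≤
      p.support.sup (fun i => i + (p.coeff i).natDegree) := h3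
    exact_mod_cast (le_trans (Nat.add_le_add_left h2 i) h4)
  · obtain ⟨i, hi, h1⟩ := Finset.exists_mem_eq_sup p.support (nonempty_support_iff.2 hp)
      (fun i => i + (p.coeff i).natDegree)
    refine ⟨i, (p.coeff i).natDegree, h1.symm, ?_⟩
    rw [coeff_natDegree]
    exact leadingCoeff_ne_zero.2 (mem_support_iff.1 hi)

/-- the top coefficient of a monic polynomial -/
lemma monic_top {F : K[X][X]} (hF : F.Monic) :
    ∃ i j : ℕ, i + j = F.natDegree ∧ (F.coeff i).coeff j ≠ 0 := by
  refine ⟨F.natDegree, 0, rfl, ?_⟩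
  rw [hF.coeff_natDegree, coeff_one_zero]
  exact one_ne_zero

lemma Ind.mono {ι : Type} {a b : ι → K} {d d' : ℤ} (h : d ≤ d') {w : ι → ℕ}
    (hI : Ind a b d w) : Ind a b d' w := by
  intro G
  obtain ⟨H, h1, h2⟩ := hI G
  exact ⟨H, TD.mono h h1, h2⟩

/-- a linear functional detecting the failure of independence -/
lemma exists_lam {ι : Type} {a b : ι → K} {d : ℤ} {v : ι → ℕ} (h : ¬ Ind a b d v) :
    ∃ lam : K[X][X] →ₗ[K] K, lam ≠ 0 ∧ (∀ G ∈ fat a b v, lam G = 0) ∧
      ∀ G, TD d G → lam G = 0 := by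
  unfold Ind at h
  push Not at h
  obtain ⟨G, hG⟩ := h
  have h1 : G ∉ (TDs K d ⊔ Submodule.restrictScalars K (fat a b v) : Submodule K K[X][X]) := by
    intro h2
    obtain ⟨x, hx, y, hy, hxy⟩ := Submodule.mem_sup.1 h2
    apply hG x hx
    have e : G - x = y := by rw [← hxy]; ring
    rw [e]
    exact hy
  obtain ⟨lam, h2, h3⟩ := Submodule.exists_dual_map_eq_bot_of_notMem h1 inferInstance
  have h4 : ∀ x ∈ (TDs K d ⊔ Submodule.restrictScalars K (fat a b v) : Submodule K K[X][X]),
      lam x = 0 := by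
    intro x hx
    have h5 : lam x ∈ Submodule.map lam
        (TDs K d ⊔ Submodule.restrictScalars K (fat a b v) : Submodule K K[X][X]) :=
      Submodule.mem_map_of_mem hx
    rw [h3] at h5
    exact (Submodule.mem_bot K).1 h5
  refine ⟨lam, ?_, fun x hx => h4 x (Submodule.mem_sup_right hx),
    fun x hx => h4 x (Submodule.mem_sup_left hx)⟩
  intro h0
  rw [h0] at h2
  exact h2 rfl

lemma choose_two (n : ℕ) : (n + 2).choose 2 * 2 = (n + 2) * (n + 1) := by
  rw [Nat.choose_two_right, Nat.div_mul_cancel (Nat.even_mul_pred_self _).two_dvd]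
  rfl

lemma arith1 (b e : ℕ) : (b + e + 2).choose 2 + 1 =
    (e + 2).choose 2 + (b + 2).choose 2 + b * e := by
  have h1 := choose_two (b + e)
  have h2 := choose_two e
  have h3 := choose_two b
  nlinarith

lemma arith2 (b c : ℕ) : (b + c - 1 + 1).choose 2 =
    (c - 1 + 1).choose 2 + (b - 1 + 1).choose 2 + b * c := by
  rcases b with _ | b
  · simp
  · rcases c with _ | c
    · simp
    · have e1 : b + 1 + (c + 1) - 1 + 1 = b + c + 2 := by omega
      rw [e1, Nat.add_sub_cancel, Nat.add_sub_cancel]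
      have h1 := choose_two (b + c)
      have h2 : (c + 1).choose 2 * 2 = (c + 1) * c := by
        rw [Nat.choose_two_right, Nat.div_mul_cancel (Nat.even_mul_pred_self _).two_dvd]
        rfl
      have h3 : (b + 1).choose 2 * 2 = (b + 1) * b := by
        rw [Nat.choose_two_right, Nat.div_mul_cancel (Nat.even_mul_pred_self _).two_dvd]
        rfl
      nlinarith

lemma Wd_finite {ι : Type} (a b : ι → K) (w : ι → ℕ) (t : ℕ) :
    Module.Finite K ↥(Wd a b w (t : ℤ)) := by
  have := (finrank_TDs (K := K) t).2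
  exact Submodule.finiteDimensional_of_le (inf_le_left : Wd a b w (t : ℤ) ≤ TDs K (t : ℤ))

end RlN

open RlN

theorem rl1 [IsAlgClosed K] {ι : Type} [Fintype ι] {a b : ι → K}
    (hinj : ∀ i j, a i = a j → b i = b j → i = j)
    {F : K[X][X]} (hF : F.Monic) (hFd : TD (F.natDegree : ℤ) F) (hFp : Prime F) {c β : ι → ℕ}
    (hc : ∀ i, F ∈ ptI (a i) (b i) (c i)) (hc' : ∀ i, F ∉ ptI (a i) (b i) (c i + 1)) {b0 : ℕ}
    (hB : Ind a b ((b0 : ℤ) - 3) (fun i => β i - 1))
    (hpos : ∑ i, β i * c i < b0 * F.natDegree) :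
    Ind a b (((b0 + F.natDegree : ℕ) : ℤ) - 3) (fun i => β i + c i - 1) := by
  classical
  by_contra hnot
  obtain ⟨lam, hl0, hl2, hl3⟩ := exists_lam hnot
  set e := F.natDegree with he
  set v : ι → ℕ := fun i => β i + c i - 1 with hv
  have hl1 : ∀ G, lam (F * G) = 0 := by
    intro G
    obtain ⟨G1, hG1, hG2⟩ := hB G
    have e1 : F * G = F * G1 + F * (G - G1) := by ring
    rw [e1, map_add]
    have h1 : lam (F * G1) = 0 := by
      apply hl3
      have h2 := td_mul hFd hG1
      refine TD.mono ?_ h2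
      push_cast
      omega
    have h2 : lam (F * (G - G1)) = 0 := by
      apply hl2
      rw [mem_fat] at hG2 ⊢
      intro i
      refine ptI_anti ?_ (ptI_mul (hc i) (hG2 i))
      simp only [hv]
      omega
    rw [h1, h2, add_zero]
  obtain ⟨H, D, hD, hDf, hHF, hHD, hcomm⟩ := common (c := c) (v := v) hinj hF hFd hFp hc
    (fun i => by simp only [hv]; omega) hl0 hl1 hl2 hl3
  have hD0 : (C D : K[X][X]) ≠ 0 := by
    intro h
    exact hD.ne_zero (C_eq_zero.1 h)
  have hF0 : F ≠ 0 := hF.ne_zero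
  have hH0 : H ≠ 0 := by
    have := hHD 0
    rwa [C_0, zero_mul, C_0] at this
  have hFH : ¬ F ∣ H := fun h => by
    have h1 := degree_le_of_dvd h hH0
    exact absurd hHF (not_lt.2 h1)
  -- the spaces
  have hdeg : ((b0 + e : ℕ) : ℤ) + e - 3 - (((b0 + e : ℕ) : ℤ) - 3) = (e : ℤ) := by
    ring
  let W := Wd a b v ((b0 + e : ℕ) : ℤ)
  let V1 := Wd a b (fun i => c i - 1) ((e : ℕ) : ℤ)
  let V2 := Wd a b (fun i => β i - 1) ((b0 : ℕ) : ℤ)
  have hWf : Module.Finite K ↥W := Wd_finite a b v (b0 + e)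
  have hV1f : Module.Finite K ↥V1 := Wd_finite a b _ e
  have hV2f : Module.Finite K ↥V2 := Wd_finite a b _ b0
  -- the part of `V1` of small degree
  let V1' : Submodule K K[X][X] := V1 ⊓ Submodule.restrictScalars K (degreeLT K[X] e)
  have hV1'f : Module.Finite K ↥V1' := Submodule.finiteDimensional_of_le inf_le_left
  have hFV1 : F ∈ V1 := by
    refine ⟨hFd, ?_⟩
    change F ∈ fat a b (fun i => c i - 1)
    rw [mem_fat]
    exact fun i => ptI_anti (Nat.sub_le _ _) (hc i)
  have hdF : F.degree = (e : ℕ) := degree_eq_natDegree hF0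
  have hlt : V1' < V1 := by
    refine lt_of_le_of_ne inf_le_left ?_
    intro h
    have h1 : F ∈ V1' := by rw [h]; exact hFV1
    have h2 : F ∈ degreeLT K[X] e := h1.2
    rw [mem_degreeLT, hdF] at h2
    exact lt_irrefl _ h2
  have hrk1 : Module.finrank K ↥V1' + 1 ≤ Module.finrank K ↥V1 :=
    Submodule.finrank_lt_finrank_of_lt hlt
  -- the multiplication map
  let T : K[X][X] →ₗ[K] K[X][X] :=
    ((modByMonicHom F).restrictScalars K).comp (LinearMap.mulLeft K H)
  have hT : ∀ G, T G = (H * G) %ₘ F := fun G => rfl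
  let Mu : K[X][X] →ₗ[K] K[X][X] := LinearMap.mulLeft K (C D)
  have hMu : ∀ G, Mu G = C D * G := fun G => rfl
  have hsub : Submodule.map T W ≤ Submodule.map Mu V1' := by
    rintro _ ⟨G, hG, rfl⟩
    obtain ⟨G', h1, h2, h3, h4⟩ := hcomm G hG.2
    refine ⟨G', ⟨⟨?_, h4⟩, ?_⟩, ?_⟩
    · have h5 := h3 _ hG.1
      change TD _ G'
      rw [← hdeg]
      exact h5
    · change G' ∈ degreeLT K[X] e
      rw [mem_degreeLT, ← hdF]
      exact h1
    · rw [hMu, ← h2, hT]
  have hmap1 : Module.finrank K ↥(Submodule.map T W) ≤ Module.finrank K ↥V1' :=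
    le_trans (Submodule.finrank_mono hsub) (Submodule.finrank_map_le Mu V1')
  -- the kernel
  let Mf : K[X][X] →ₗ[K] K[X][X] := LinearMap.mulLeft K F
  have hMf : ∀ G, Mf G = F * G := fun G => rfl
  have hker : W ⊓ LinearMap.ker T ≤ Submodule.map Mf V2 := by
    intro G hG
    have hGW : G ∈ W := hG.1
    have hG0 : (H * G) %ₘ F = 0 := hG.2
    have h1 : F ∣ H * G := (modByMonic_eq_zero_iff_dvd hF).1 hG0
    obtain ⟨G1, rfl⟩ := (hFp.dvd_or_dvd h1).resolve_left hFH
    refine ⟨G1, ⟨?_, ?_⟩, rfl⟩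
    · change TD _ G1
      by_cases h0 : G1 = 0
      · subst h0
        exact (TDs K _).zero_mem
      · obtain ⟨s, hs, hs'⟩ := td_exact h0
        obtain ⟨_, i, j, hij, hne⟩ := td_mul_top hFd (monic_top hF) hs hs'
        have h2 : TD ((b0 + e : ℕ) : ℤ) (F * G1) := hGW.1
        have h3 := h2 i j hne
        refine TD.mono ?_ hs
        have h4 : i + j ≤ b0 + e := by exact_mod_cast h3
        have h5 : s ≤ b0 := by omega
        exact_mod_cast h5
    · change G1 ∈ fat a b (fun i => β i - 1)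
      rw [mem_fat]
      intro i
      by_cases hβ : β i = 0
      · simp only [hβ]
        rw [Nat.zero_sub, ptI_zero]
        exact Submodule.mem_top
      · have h2 : F * G1 ∈ fat a b v := hGW.2
        rw [mem_fat] at h2
        have h3 := h2 i
        refine colon (hc i) (hc' i) ?_
        have e2 : c i + (β i - 1) = v i := by simp only [hv]; omega
        rw [e2]
        exact h3
  have hmap2 : Module.finrank K ↥(W ⊓ LinearMap.ker T : Submodule K K[X][X]) ≤
      Module.finrank K ↥V2 :=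
    le_trans (Submodule.finrank_mono hker) (Submodule.finrank_map_le Mf V2)
  -- rank nullity
  have hrn : Module.finrank K ↥(Submodule.map T W) +
      Module.finrank K ↥(W ⊓ LinearMap.ker T : Submodule K K[X][X]) = Module.finrank K ↥W := by
    have h1 := LinearMap.finrank_range_add_finrank_ker (K := K) (V := ↥W) (V₂ := K[X][X]) (T.domRestrict W)
    have h2 : LinearMap.range (T.domRestrict W) = Submodule.map T W := by
      ext x
      simp
    have h3 : Module.finrank K ↥(LinearMap.ker (T.domRestrict W)) =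
        Module.finrank K ↥(W ⊓ LinearMap.ker T : Submodule K K[X][X]) := by
      have h4 : Submodule.map W.subtype (LinearMap.ker (T.domRestrict W)) =
          W ⊓ LinearMap.ker T := by
        ext x
        constructor
        · rintro ⟨y, hy, rfl⟩
          exact ⟨y.2, hy⟩
        · rintro ⟨h5, h6⟩
          exact ⟨⟨x, h5⟩, h6, rfl⟩
      rw [← h4]
      exact (LinearEquiv.finrank_eq (Submodule.equivMapOfInjective W.subtype
        W.injective_subtype _))
    rw [h2, h3] at h1
    exact h1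
  -- the dimensions
  have hd0 := finrank_Wd_ge a b v (b0 + e)
  have hInd1 : Ind a b ((e : ℕ) : ℤ) (fun i => c i - 1) :=
    RlN.Ind.mono (by omega) (rl0 hinj hF hFd hFp hc)
  have hInd2 : Ind a b ((b0 : ℕ) : ℤ) (fun i => β i - 1) := RlN.Ind.mono (by omega) hB
  have hd1 := finrank_Wd_eq hinj hInd1
  have hd2 := finrank_Wd_eq hinj hInd2
  have hs : ∑ i, (v i + 1).choose 2 =
      ∑ i, (c i - 1 + 1).choose 2 + ∑ i, (β i - 1 + 1).choose 2 + ∑ i, β i * c i := by
    rw [← Finset.sum_add_distrib, ← Finset.sum_add_distrib]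
    exact Finset.sum_congr rfl fun i _ => arith2 (β i) (c i)
  have har := arith1 b0 e
  have hd0' : (b0 + e + 2).choose 2 ≤ Module.finrank K ↥W + ∑ i, (v i + 1).choose 2 := hd0
  have hd1' : Module.finrank K ↥V1 + ∑ i, (c i - 1 + 1).choose 2 = (e + 2).choose 2 := hd1
  have hd2' : Module.finrank K ↥V2 + ∑ i, (β i - 1 + 1).choose 2 = (b0 + 2).choose 2 := hd2
  omega

end Pool.Agent.H879.RV
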