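import Pool.Agent.H879.RV.Lorentz
import Pool.Agent.H879.RV.Rl0
import Pool.Agent.H879.RV.Rl1
import Pool.Agent.H879.RV.DehPrime
import Pool.Agent.H879.Pos.Crude
import Pool.Agent.H879.Pos.Bridge

/-! Numerically connected ordering. -/

set_option autoImplicit false

namespace Pool.Agent.H539.RVO

open Pool.Agent.H879.RV
open MvPolynomial Pool.Agent.W609 Pool.Agent.W609.CR Pool.Agent.TH167.SH Pool.Agent.TH167.TT
open Pool.Agent.H350R3.GR (ptI)

/-- the value at `(0 : 1 : 0)` -/
noncomputable def ev (K : Type) [Field K] : MvPolynomial (Fin 3) K →+* K :=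
  eval (Pi.single 1 1 : Fin 3 → K)

theorem ev_eq {K : Type} [Field K] {G : MvPolynomial (Fin 3) K} {e : ℕ}
    (hG : G.IsHomogeneous e) : ev K G = G.coeff (Finsupp.single 1 e) := by
  classical
  unfold ev
  rw [eval_eq']
  rw [Finset.sum_eq_single (Finsupp.single 1 e)]
  · rw [Fin.prod_univ_three]
    simp
  · intro d hd hne
    rw [mem_support_iff] at hd
    have h1 : d.degree = e := by
      rw [Finsupp.degree_eq_weight_one]
      exact hG hd
    rw [Finsupp.degree_eq_sum, Fin.sum_univ_three] at h1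
    rw [Fin.prod_univ_three]
    by_cases h0 : d 0 = 0
    · by_cases h2 : d 2 = 0
      · exfalso
        apply hne
        ext i
        fin_cases i
        · simp [h0]
        · simp
          omega
        · simp [h2]
      · have h3 : (Pi.single 1 1 : Fin 3 → K) 2 = 0 := by simp
        rw [h3, zero_pow h2, mul_zero, mul_zero]
    · have h3 : (Pi.single 1 1 : Fin 3 → K) 0 = 0 := by simp
      rw [h3, zero_pow h0, zero_mul, zero_mul, mul_zero]
  · intro h
    rw [notMem_support_iff.1 h, zero_mul]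

theorem van_C_mul {K : Type} [Field K] {v : Fin 3 → K} {m : ℕ} {G : MvPolynomial (Fin 3) K}
    {c : K} (hc : c ≠ 0) : Van v m (C c * G) ↔ Van v m G := by
  unfold Van
  constructor
  · intro h
    have h1 := Ideal.mul_mem_left ((RingHom.ker (MvPolynomial.eval v)) ^ m) (C c⁻¹) h
    rwa [← mul_assoc, ← C_mul, inv_mul_cancel₀ hc, C_1, one_mul] at h1
  · intro h
    exact Ideal.mul_mem_left _ _ h

theorem one_le_deg {K : Type} [Field K] {G : MvPolynomial (Fin 3) K} {e : ℕ}
    (hG : Irreducible G) (hGe : G.IsHomogeneous e) : 1 ≤ e := by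
  by_contra hcon
  have he : e = 0 := by omega
  subst he
  have h1 := hGe.totalDegree hG.ne_zero
  rw [totalDegree_eq_zero_iff_eq_C] at h1
  apply hG.not_isUnit
  have h2 : G.coeff 0 ≠ 0 := by
    intro h
    rw [h, C_0] at h1
    exact hG.ne_zero h1
  rw [h1]
  exact (isUnit_iff_ne_zero.2 h2).map C

theorem van_deh {K : Type} [Field K] {p : Fin 2 → K} {m e : ℕ} {G : MvPolynomial (Fin 3) K}
    (hG : G.IsHomogeneous e) :
    Pool.Agent.H932R2.deh K G ∈ ptI (p 0) (p 1) m ↔ Van (aff p) m G := by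
  rw [t_link K p m G e hG]
  exact (Pool.Agent.H932R2.mem_ptIdeal_iff ((mem_homogeneousSubmodule e G).2 hG)).symm

/-- the affine equation of an irreducible curve -/
theorem pkg {K : Type} [Field K] {n : ℕ} {P : Fin n → Fin 2 → K}
    {G : MvPolynomial (Fin 3) K} {e : ℕ} {c : Fin n → ℕ} (hG : Irreducible G)
    (hGe : G.IsHomogeneous e) (hG0 : ev K G ≠ 0) (hc : ∀ i, Ord (aff (P i)) (c i) G) :
    ∃ F : Polynomial (Polynomial K), F.Monic ∧ F.natDegree = e ∧ TD (e : ℤ) F ∧ Prime F ∧
      (∀ i, F ∈ ptI (P i 0) (P i 1) (c i)) ∧ (∀ i, F ∉ ptI (P i 0) (P i 1) (c i + 1)) := by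
  have hk : (ev K G)⁻¹ ≠ 0 := inv_ne_zero hG0
  have hu : IsUnit (C (ev K G)⁻¹ : MvPolynomial (Fin 3) K) := (isUnit_iff_ne_zero.2 hk).map C
  obtain ⟨G', hG'⟩ : ∃ G', G' = C (ev K G)⁻¹ * G := ⟨_, rfl⟩
  have h1 : Irreducible G' := by
    rw [hG']
    exact (irreducible_isUnit_mul hu).2 hG
  have h2 : G'.IsHomogeneous e := by
    rw [hG']
    exact hGe.C_mul _
  have h3 : G'.coeff (Finsupp.single 1 e) = 1 := by
    rw [hG', coeff_C_mul, ← ev_eq hGe, inv_mul_cancel₀ hG0]
  have h4 : ∀ i m, Pool.Agent.H932R2.deh K G' ∈ ptI (P i 0) (P i 1) m ↔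
      Van (aff (P i)) m G := by
    intro i m
    rw [van_deh h2, hG', van_C_mul hk]
  obtain ⟨k1, k2, k3, k4⟩ := deh_prime (one_le_deg hG hGe) h1 h2 h3
  exact ⟨_, k1, k2, k3, k4, fun i => (h4 i _).2 (hc i).1, fun i h => (hc i).2 ((h4 i _).1 h)⟩

theorem ind_mono {K : Type} [Field K] {ι : Type} {a b : ι → K} {d d' : ℤ} (hd : d ≤ d')
    {w : ι → ℕ} (h : Ind a b d w) : Ind a b d' w := by
  intro G
  obtain ⟨H, h1, h2⟩ := h G
  exact ⟨H, fun i j hij => (h1 i j hij).trans hd, h2⟩

theorem ind_anti {K : Type} [Field K] {ι : Type} {a b : ι → K} {d : ℤ} {w w' : ι → ℕ}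
    (hw : ∀ i, w' i ≤ w i) (h : Ind a b d w) : Ind a b d w' := by
  intro G
  obtain ⟨H, h1, h2⟩ := h G
  refine ⟨H, h1, ?_⟩
  rw [mem_fat] at h2 ⊢
  intro i
  exact Ideal.pow_le_pow_right (hw i) (h2 i)

/-- additive inequalities pass from irreducible factors to all factors -/
theorem induct' {K : Type} [Field K] {s : ℕ} {P : Fin s → Fin 2 → K}
    (φ : ℕ → (Fin s → ℕ) → Prop) (h0 : φ 0 fun _ => 0)
    (hadd : ∀ e e' u u', φ e u → φ e' u' → φ (e + e') fun j => u j + u' j)
    {F : MvPolynomial (Fin 3) K}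
    (hirr : ∀ (G : MvPolynomial (Fin 3) K) (e : ℕ) (u : Fin s → ℕ), Irreducible G → G ∣ F →
      G.IsHomogeneous e → (∀ j, Ord (aff (P j)) (u j) G) → φ e u)
    {f : MvPolynomial (Fin 3) K} (hf0 : f ≠ 0) (hfF : f ∣ F) :
    ∀ (e : ℕ) (u : Fin s → ℕ), f.IsHomogeneous e → (∀ j, Ord (aff (P j)) (u j) f) → φ e u := by
  classical
  induction f using WfDvdMonoid.induction_on_irreducible with
  | zero => exact absurd rfl hf0
  | unit x hx =>
    intro e u he hu
    have h1 : e = 0 := by
      rw [MvPolynomial.isUnit_iff_eq_C_of_isReduced] at hx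
      obtain ⟨c, -, hc⟩ := hx
      have h2 : (C c : MvPolynomial (Fin 3) K).IsHomogeneous 0 := isHomogeneous_C _ _
      rw [← hc] at h2
      exact he.inj_right h2 hf0
    subst h1
    have h2 : u = fun _ => 0 := funext fun j => Nat.le_zero.1 (van_le hf0 he (hu j).1)
    rw [h2]
    exact h0
  | mul a i ha0 hi ih =>
    intro e u he hu
    have hai : i * a ≠ 0 := hf0
    have hie := Pool.Agent.Chud.homog_of_dvd he hai (Dvd.intro _ rfl)
    have hae := Pool.Agent.Chud.homog_of_dvd he hai (Dvd.intro_left _ rfl)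
    choose v hv using fun j => exists_ord (p := P j) hi.ne_zero hie
    choose v' hv' using fun j => exists_ord (p := P j) ha0 hae
    have h1 := ih ha0 ((Dvd.intro_left _ rfl).trans hfF) _ v' hae hv'
    have h2 := hirr i _ v hi ((Dvd.intro _ rfl).trans hfF) hie hv
    have h3 : e = i.totalDegree + a.totalDegree := by
      have := (hie.mul hae).inj_right he hai
      omega
    have h4 : u = fun j => v j + v' j := by
      funext j
      exact ord_unique (hu j) (ord_mul (hv j) (hv' j))
    rw [h3, h4]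
    exact hadd _ _ _ _ h2 h1

/-- the induction -/
theorem claim {K : Type} [Field K] [IsAlgClosed K] {n : ℕ} {P : Fin n → Fin 2 → K}
    (hP : ∀ i j, P i 0 = P j 0 → P i 1 = P j 1 → i = j) {D : ℕ} {u : Fin n → ℕ}
    (hnef : ∀ (G : MvPolynomial (Fin 3) K) (e : ℕ) (c : Fin n → ℕ), Irreducible G →
      G.IsHomogeneous e → (∀ i, Ord (aff (P i)) (c i) G) → ∑ i, u i * c i ≤ D * e)
    (hbig : ∑ i, u i ^ 2 < D ^ 2) (N : ℕ) :
    ∀ (g : MvPolynomial (Fin 3) K) (m : ℕ) (v a' β : Fin n → ℕ) (b0 : ℕ),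
      m + ∑ i, a' i = N → ev K g ≠ 0 → g.IsHomogeneous m →
      (∀ i, Ord (aff (P i)) (v i) g) → 1 ≤ b0 → b0 + m = D →
      (∀ i, β i + v i = u i + a' i) → ∑ i, u i * β i ≤ D * b0 →
      Ind (fun i => P i 0) (fun i => P i 1) ((b0 : ℤ) - 3) (fun i => β i - 1) →
      Ind (fun i => P i 0) (fun i => P i 1) ((D : ℤ) - 3) (fun i => u i - 1) := by
  classical
  induction N using Nat.strong_induction_on with
  | _ N ih =>
  intro g m v a' β b0 hN hg0 hg hv hb0 hbm hrel hub hInd
  have hgne : g ≠ 0 := by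
    rintro rfl
    exact hg0 (map_zero _)
  by_cases hA : ∃ i, 0 < a' i ∧ 0 < β i
  · obtain ⟨i, hi1, hi2⟩ := hA
    refine ih (m + ∑ j, Function.update a' i (a' i - 1) j) ?_ g m v
      (Function.update a' i (a' i - 1)) (Function.update β i (β i - 1)) b0 rfl hg0 hg hv hb0 hbm
      ?_ ?_ ?_
    · rw [← hN]
      apply Nat.add_lt_add_left
      refine Finset.sum_lt_sum (fun j _ => ?_) ⟨i, Finset.mem_univ i, ?_⟩
      · by_cases hj : j = i
        · subst hj
          rw [Function.update_self]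
          omega
        · rw [Function.update_of_ne hj]
      · rw [Function.update_self]
        omega
    · intro j
      have := hrel j
      by_cases hj : j = i
      · subst hj
        rw [Function.update_self, Function.update_self]
        omega
      · rw [Function.update_of_ne hj, Function.update_of_ne hj]
        exact this
    · refine le_trans (Finset.sum_le_sum fun j _ => Nat.mul_le_mul_left _ ?_) hub
      by_cases hj : j = i
      · subst hj
        rw [Function.update_self]
        omega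
      · rw [Function.update_of_ne hj]
    · refine ind_anti (fun j => ?_) hInd
      by_cases hj : j = i
      · subst hj
        simp only [Function.update_self]
        omega
      · simp only [Function.update_of_ne hj]
        exact le_rfl
  by_cases hB : ∃ (G : MvPolynomial (Fin 3) K) (e : ℕ) (c : Fin n → ℕ), Irreducible G ∧ G ∣ g ∧
      G.IsHomogeneous e ∧ (∀ i, Ord (aff (P i)) (c i) G) ∧ ∑ i, β i * c i < b0 * e
  · obtain ⟨G, e, c, hG, ⟨g', hg'⟩, hGe, hc, hlt⟩ := hB
    have he1 : 1 ≤ e := one_le_deg hG hGe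
    have hg'0 : g' ≠ 0 := by
      rintro rfl
      rw [mul_zero] at hg'
      exact hgne hg'
    have hg'h := Pool.Agent.Chud.homog_of_dvd hg hgne (Dvd.intro_left _ hg'.symm)
    obtain ⟨m', hm'⟩ : ∃ m', m' = g'.totalDegree := ⟨_, rfl⟩
    rw [← hm'] at hg'h
    have hm : m = e + m' := by
      rw [hg'] at hg hgne
      exact (hg.inj_right (hGe.mul hg'h) hgne)
    choose v' hv' using fun j => exists_ord (p := P j) hg'0 hg'h
    have hvv : ∀ i, v i = c i + v' i := by
      intro i
      have h1 := hv i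
      rw [hg'] at h1
      exact ord_unique h1 (ord_mul (hc i) (hv' i))
    have hev : ev K G ≠ 0 ∧ ev K g' ≠ 0 := by
      rw [hg', map_mul] at hg0
      exact ⟨left_ne_zero_of_mul hg0, right_ne_zero_of_mul hg0⟩
    obtain ⟨F, k1, k2, k3, k4, k5, k6⟩ := pkg hG hGe hev.1 hc
    have hI2 := rl1 (a := fun i => P i 0) (b := fun i => P i 1) hP k1 (by rw [k2]; exact k3) k4
      k5 k6 hInd (by rw [k2]; exact hlt)
    rw [k2] at hI2
    refine ih (m' + ∑ j, a' j) (by omega) g' m' v' a' (fun i => β i + c i) (b0 + e) rfl hev.2 hg'h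
      hv' (by omega) (by omega) ?_ ?_ hI2
    · intro i
      have h1 := hrel i
      have h2 := hvv i
      omega
    · have h1 := hnef G e c hG hGe hc
      have h2 : ∑ i, u i * (β i + c i) = ∑ i, u i * β i + ∑ i, u i * c i := by
        simp only [mul_add, Finset.sum_add_distrib]
      rw [h2, mul_add]
      exact Nat.add_le_add hub h1
  push Not at hA hB
  rcases Nat.eq_zero_or_pos m with hm0 | hm0
  · subst hm0
    have hv0 : ∀ i, v i = 0 := fun i => Nat.le_zero.1 (van_le hgne hg (hv i).1)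
    have ha0 : ∀ i, a' i = 0 := by
      intro i
      by_contra hcon
      have h1 := hA i (by omega)
      have h2 := hrel i
      have h3 := hv0 i
      omega
    have hbu : (fun i => β i - 1) = fun i => u i - 1 := by
      funext i
      have h1 := hrel i
      have h2 := hv0 i
      have h3 := ha0 i
      omega
    rw [← hbu]
    have hbD : b0 = D := by omega
    rw [← hbD]
    exact hInd
  · exfalso
    have key := induct' (P := P) (F := g)
      (fun e w => b0 * e ≤ ∑ i, β i * w i ∧ ∑ i, u i * w i ≤ D * e) (by simp) (by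
        rintro e e' w w' ⟨h1, h2⟩ ⟨h3, h4⟩
        have e1 : ∑ i, β i * (w i + w' i) = ∑ i, β i * w i + ∑ i, β i * w' i := by
          simp only [mul_add, Finset.sum_add_distrib]
        have e2 : ∑ i, u i * (w i + w' i) = ∑ i, u i * w i + ∑ i, u i * w' i := by
          simp only [mul_add, Finset.sum_add_distrib]
        show b0 * (e + e') ≤ ∑ i, β i * (w i + w' i) ∧ ∑ i, u i * (w i + w' i) ≤ D * (e + e')
        rw [e1, e2, mul_add, mul_add]
        exact ⟨Nat.add_le_add h1 h3, Nat.add_le_add h2 h4⟩)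
      (fun G e c hG hGg hGe hc => ⟨hB G e c hG hGg hGe hc, hnef G e c hG hGe hc⟩) hgne dvd_rfl
      m v hg hv
    obtain ⟨key1, key2⟩ := key
    have hz : ∀ i, (β i : ℤ) * a' i = 0 := by
      intro i
      rcases Nat.eq_zero_or_pos (a' i) with h | h
      · rw [h]
        simp
      · have h1 := hA i h
        have h2 : β i = 0 := by omega
        rw [h2]
        simp
    have hxy : ∀ i, (β i : ℤ) + ((v i : ℤ) - a' i) = u i := by
      intro i
      have h1 : (β i : ℤ) + v i = u i + a' i := by exact_mod_cast hrel i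
      linarith
    have hDi : (b0 : ℤ) + m = D := by exact_mod_cast hbm
    have L := lorentz (ι := Fin n) (b := (b0 : ℤ)) (m := (m : ℤ)) (by exact_mod_cast hb0)
      (by exact_mod_cast hm0) (x := fun i => (β i : ℤ)) (y := fun i => (v i : ℤ) - a' i) ?_ ?_ ?_
    · simp only [hxy] at L
      rw [hDi] at L
      have h1 : ((∑ i, u i ^ 2 : ℕ) : ℤ) < ((D ^ 2 : ℕ) : ℤ) := by exact_mod_cast hbig
      push_cast at h1
      linarith
    · have h1 : ∑ i, (β i : ℤ) * ((v i : ℤ) - a' i) = ∑ i, (β i : ℤ) * v i := by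
        refine Finset.sum_congr rfl fun i _ => ?_
        rw [mul_sub, hz i, sub_zero]
      rw [h1]
      exact_mod_cast key1
    · simp only [hxy]
      rw [hDi]
      exact_mod_cast hub
    · simp only [hxy]
      rw [hDi]
      have h1 : ∑ i, (u i : ℤ) * ((v i : ℤ) - a' i) ≤ ∑ i, (u i : ℤ) * v i := by
        refine Finset.sum_le_sum fun i _ => ?_
        have h2 : (0 : ℤ) ≤ (u i : ℤ) * a' i := by positivity
        rw [mul_sub]
        linarith
      refine h1.trans ?_
      exact_mod_cast key2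

theorem ordering {K : Type} [Field K] [IsAlgClosed K] {n : ℕ} {P : Fin n → Fin 2 → K}
    (hP : ∀ i j, P i 0 = P j 0 → P i 1 = P j 1 → i = j) {D D' : ℕ} (hD : D' ≤ D)
    {u : Fin n → ℕ} {f : MvPolynomial (Fin 3) K} (hf0 : f.coeff (Finsupp.single 1 D') ≠ 0)
    (hfD : f.IsHomogeneous D') (hfu : ∀ i, Van (aff (P i)) (u i) f)
    (hnef : ∀ (G : MvPolynomial (Fin 3) K) (e : ℕ) (c : Fin n → ℕ), Irreducible G →
      G.IsHomogeneous e → (∀ i, Ord (aff (P i)) (c i) G) → ∑ i, u i * c i ≤ D * e)
    (hbig : ∑ i, u i ^ 2 < D ^ 2) :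
    Ind (fun i => P i 0) (fun i => P i 1) ((D : ℤ) - 3) (fun i => u i - 1) := by
  classical
  have hfne : f ≠ 0 := by
    rintro rfl
    exact hf0 (coeff_zero _)
  rcases Nat.eq_zero_or_pos D' with hD0 | hD0
  · subst hD0
    have hu0 : ∀ i, u i = 0 := fun i => Nat.le_zero.1 (van_le hfne hfD (hfu i))
    intro G
    refine ⟨0, fun i j h => by simp at h, ?_⟩
    rw [mem_fat]
    intro i
    have h1 : u i - 1 = 0 := by
      have := hu0 i
      omega
    simp only [h1]
    unfold ptI Pool.Agent.H932R2.cIdeal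
    simp
  · have hfu' : ¬ IsUnit f := by
      intro h
      rw [MvPolynomial.isUnit_iff_eq_C_of_isReduced] at h
      obtain ⟨c, -, hc⟩ := h
      have h2 : (C c : MvPolynomial (Fin 3) K).IsHomogeneous 0 := isHomogeneous_C _ _
      rw [← hc] at h2
      have := hfD.inj_right h2 hfne
      omega
    obtain ⟨G, hG, g, hg⟩ := WfDvdMonoid.exists_irreducible_factor hfu' hfne
    have hg0 : g ≠ 0 := by
      rintro rfl
      rw [mul_zero] at hg
      exact hfne hg
    have hGh := Pool.Agent.Chud.homog_of_dvd hfD hfne (Dvd.intro _ hg.symm)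
    have hgh := Pool.Agent.Chud.homog_of_dvd hfD hfne (Dvd.intro_left _ hg.symm)
    obtain ⟨e, he⟩ : ∃ e, e = G.totalDegree := ⟨_, rfl⟩
    obtain ⟨m, hm⟩ : ∃ m, m = g.totalDegree := ⟨_, rfl⟩
    rw [← he] at hGh
    rw [← hm] at hgh
    have he1 := one_le_deg hG hGh
    have hem : D' = e + m := by
      rw [hg] at hfD hfne
      exact hfD.inj_right (hGh.mul hgh) hfne
    have hev : ev K G ≠ 0 ∧ ev K g ≠ 0 := by
      rw [← ev_eq hfD, hg, map_mul] at hf0
      exact ⟨left_ne_zero_of_mul hf0, right_ne_zero_of_mul hf0⟩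
    choose c hc using fun j => exists_ord (p := P j) hG.ne_zero hGh
    choose v hv using fun j => exists_ord (p := P j) hg0 hgh
    have hle : ∀ i, u i ≤ c i + v i := by
      intro i
      by_contra hcon
      push Not at hcon
      have h1 := ord_mul (hc i) (hv i)
      rw [← hg] at h1
      exact h1.2 (van_mono (by omega) (hfu i))
    obtain ⟨F, k1, k2, k3, k4, k5, -⟩ := pkg hG hGh hev.1 hc
    have hI := rl0 (a := fun i => P i 0) (b := fun i => P i 1) hP k1 (by rw [k2]; exact k3) k4 k5
    rw [k2] at hI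
    refine claim hP hnef hbig (m + ∑ i, (c i + v i - u i)) g m v (fun i => c i + v i - u i) c
      (e + (D - D')) rfl hev.2 hgh hv (by omega) (by omega) ?_ ?_ ?_
    · intro i
      have := hle i
      omega
    · refine (hnef G e c hG hGh hc).trans (Nat.mul_le_mul_left _ ?_)
      omega
    · refine ind_mono ?_ hI
      have h1 : ((e : ℕ) : ℤ) ≤ ((e + (D - D') : ℕ) : ℤ) := by
        exact_mod_cast Nat.le_add_right e (D - D')
      linarith

end Pool.Agent.H539.RVO
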