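import Pool.Agent.H879.RV.MarginGE
import Pool.Agent.H879.Pos.Last

/-! Simple points at the expected rate, and the criterion by the adjoint class. -/

set_option autoImplicit false

namespace Pool.Agent.H879.RV

open Finset Pool.Agent.TH176.Nag Pool.Agent.TH603.Sur Pool.Agent.TH2 Pool.Agent.TH2.NU
open Pool.Agent.Y205.MD Pool.Agent.Y205.FW Pool.Agent.Y205.AV Pool.Agent.K7.H33.BP
open Pool.Agent.TH387.SH (TF coe_TF card_TF)
open Pool.Agent.H879.Pos (TF_pos le_crkM_add crkM_simple large small large_add cond_split)

theorem crkM_ones {S : Finset (ℤ × ℤ)} (hpos : ∀ u ∈ S, 0 ≤ u.1 ∧ 0 ≤ u.2) (M : Multiset ℕ)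
    (k : ℕ) : crkM S (M + Multiset.replicate k 1) ≤ crkM S M - k := by
  classical
  rcases Nat.le_total (crkM S M) k with h | h
  · have h1 := crkM_simple (S := S) M
    have h2 := crkM_more hpos (M + Multiset.replicate (crkM S M) 1)
      (Multiset.replicate (k - crkM S M) 1)
    rw [add_assoc, ← Multiset.replicate_add, Nat.add_sub_cancel' h] at h2
    omega
  · obtain ⟨T, hT1, hT2, hT3⟩ := crk_spec S (vec M)
    have h5 : (S \ T).card = crkM S M := by
      rw [card_sdiff_of_subset hT1]
      have := card_le_card hT1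
      unfold crkM
      omega
    obtain ⟨U, hU1, hU2⟩ := exists_subset_card_eq (s := S \ T) (n := k) (by omega)
    have h4 := Emp_union hT3 U
    rw [hU2] at h4
    have h6 : crkM S (M + Multiset.replicate k 1) =
        crk S (Sum.elim (vec M) (fun _ : Fin k => 1)) := by
      refine crkM_eq fun f => ?_
      rw [Fintype.sum_sum_type, Multiset.map_add, Multiset.sum_add, Multiset.map_replicate,
        Multiset.sum_replicate, ← sum_vec]
      simp
    rw [h6]
    refine crk_le ⟨T ∪ U, union_subset hT1 (hU1.trans sdiff_subset), ?_, h4⟩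
    have h7 : Disjoint T U := by
      refine disjoint_left.2 fun a ha hb => ?_
      exact (mem_sdiff.1 (hU1 hb)).2 ha
    rw [card_union_of_disjoint h7, hU2]
    have h8 : crkM S M = crk S (vec M) := rfl
    omega

/-- simple points -/
theorem simple_crk {n d : ℕ} {v w : Fin n → ℕ} (hvw : ∀ i, v i = 0 ∨ w i = 0)
    (hw : ∀ i, w i ≤ 1) :
    crk (TF d) (fun i => v i + w i) ≤ crk (TF d) v - ∑ i, (w i + 1).choose 2 := by
  classical
  obtain ⟨M, hM⟩ : ∃ M : Multiset ℕ, M = (univ : Finset (Fin n)).val.map v := ⟨_, rfl⟩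
  obtain ⟨k, hk⟩ : ∃ k, k = ∑ i, w i := ⟨_, rfl⟩
  have hMv : ∀ t : ℕ → ℕ, ∑ i, t (v i) = (M.map t).sum := by
    intro t
    rw [hM, Multiset.map_map]
    rfl
  have hpos := TF_pos (d := d)
  have h1 : crkM (TF d) M = crk (TF d) v := crkM_eq hMv
  have hk' : ∑ i, (w i + 1).choose 2 = k := by
    rw [hk]
    refine sum_congr rfl fun i _ => ?_
    have := hw i
    interval_cases w i <;> rfl
  have hkn : k ≤ n := by
    rw [hk]
    calc ∑ i, w i ≤ ∑ _i : Fin n, 1 := sum_le_sum fun i _ => hw i
      _ = n := by simp
  -- the multisets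
  have h2 : crkM (TF d) ((univ : Finset (Fin n)).val.map (fun i => v i + w i) +
      Multiset.replicate n 0) = crkM (TF d) (M + Multiset.replicate k 1 +
      Multiset.replicate (n - k) 0) := by
    have e1 : crkM (TF d) ((univ : Finset (Fin n)).val.map (fun i => v i + w i) +
        Multiset.replicate n 0) = crk (TF d) (Sum.elim v w) := by
      refine crkM_eq fun t => ?_
      rw [Fintype.sum_sum_type, Multiset.map_add, Multiset.sum_add, Multiset.map_replicate,
        Multiset.sum_replicate, Multiset.map_map]
      simp only [Sum.elim_inl, Sum.elim_inr, smul_eq_mul]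
      have e3 : ((univ : Finset (Fin n)).val.map (t ∘ fun i => v i + w i)).sum =
        ∑ i, t (v i + w i) := rfl
      have e4 : n * t 0 = ∑ _i : Fin n, t 0 := by simp
      rw [e3, e4, ← sum_add_distrib, ← sum_add_distrib]
      refine sum_congr rfl fun i _ => ?_
      rcases hvw i with h | h
      · rw [h, zero_add]
        ring
      · rw [h, add_zero]
    have e2 : crkM (TF d) (M + Multiset.replicate k 1 + Multiset.replicate (n - k) 0) =
        crk (TF d) (Sum.elim v w) := by
      refine crkM_eq fun t => ?_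
      rw [Fintype.sum_sum_type, Multiset.map_add, Multiset.sum_add, Multiset.map_add,
        Multiset.sum_add, Multiset.map_replicate, Multiset.map_replicate,
        Multiset.sum_replicate, Multiset.sum_replicate, ← hMv]
      simp only [Sum.elim_inl, Sum.elim_inr, smul_eq_mul]
      rw [add_assoc]
      congr 1
      have e5 : ∀ i, t (w i) = w i * t 1 + (1 - w i) * t 0 := by
        intro i
        have := hw i
        interval_cases w i <;> simp
      rw [sum_congr rfl fun i _ => e5 i, sum_add_distrib, ← sum_mul, ← sum_mul, ← hk]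
      congr 2
      have e6 : ∑ i, (1 - w i) + k = n := by
        rw [hk, ← sum_add_distrib]
        rw [sum_congr rfl (g := fun _ => 1) fun i _ => Nat.sub_add_cancel (hw i)]
        simp
      omega
    rw [e1, e2]
  have h3 : crk (TF d) (fun i => v i + w i) =
      crkM (TF d) ((univ : Finset (Fin n)).val.map (fun i => v i + w i)) := by
    symm
    refine crkM_eq fun t => ?_
    rw [Multiset.map_map]
    rfl
  rw [h3, hk', ← h1]
  refine (crkM_zeros n _).trans ?_
  rw [h2]
  refine (crkM_more hpos _ _).trans ?_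
  exact crkM_ones hpos M k

/-- the simple points may be left out -/
theorem crk_of_big {n d : ℕ} {w : Fin n → ℕ}
    (h : crk (TF d) (large w 1) = (d + 2).choose 2 - ∑ i, (large w 1 i + 1).choose 2) :
    crk (TF d) w = (d + 2).choose 2 - ∑ i, (w i + 1).choose 2 := by
  have h1 := simple_crk (d := d) (v := large w 1) (w := small w 1) (fun i => by
    unfold Pool.Agent.H879.Pos.large Pool.Agent.H879.Pos.small
    split_ifs <;> simp) (fun i => by
    unfold Pool.Agent.H879.Pos.small
    split_ifs <;> omega)
  rw [large_add] at h1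
  have h2 := cond_split w 1
  have h3 := Pool.Agent.H879.Pos.crk_lower d w
  omega

theorem crk_adj {r d : ℕ} {w : Fin (r + 4) → ℕ}
    (hstd : ∀ i j k, i ≠ j → i ≠ k → j ≠ k → w i + w j + w k ≤ d)
    {T : Finset (Fin (r + 4))} (hT : Tail T ((d : ℝ) + 3) (fun i => (up (large w 1) i : ℝ)))
    (hbig : ∑ i, up (large w 1) i ^ 2 < (d + 3) ^ 2)
    (heff : ∑ i, up (large w 1) i ^ 2 + ∑ i, up (large w 1) i < (d + 4) * (d + 5)) :
    crk (TF d) w = (d + 2).choose 2 - ∑ i, (w i + 1).choose 2 := by
  have hl : ∀ i, large w 1 i ≤ w i := by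
    intro i
    unfold Pool.Agent.H879.Pos.large
    split_ifs <;> omega
  refine crk_of_big ?_
  have h1 := crk_std (d := d) (w := large w 1) (fun i j k hij hik hjk => by
    have := hstd i j k hij hik hjk
    have := hl i
    have := hl j
    have := hl k
    omega) hT hbig heff
  omega

end Pool.Agent.H879.RV
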