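import Pool.Agent.H879.RV.Wt
import Pool.Graph.R_pool_sql_team_seeded_c8625f6e.K4H28.TC.Forms
import Pool.Graph.R_seed8.R355.Round4

/-! Nonspeciality of standard classes at generic points, by vanishing for nef and big classes. -/

set_option autoImplicit false

namespace Pool.Agent.H879.RV

open MvPolynomial Pool.Agent.W609 Pool.Agent.W609.CR Pool.Agent.TH167.SH Pool.Agent.TH167.TT
open Pool.Agent.K4H28.TC (below above coreA coreB std_nonneg std_c form_of_irr)
open Finset (univ range)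

/-- The condition on the coefficients outside of the nine indices of `T`, for the class
`c H - ∑ x i E i` of self-intersection `c ^ 2 - ∑ (x i) ^ 2`. -/
def Tail {n : ℕ} (T : Finset (Fin n)) (c : ℝ) (x : Fin n → ℝ) : Prop :=
  T.card ≤ 9 ∧ ∀ i, i ∉ T → x i ^ 2 ≤ 7 * (c ^ 2 - ∑ i, x i ^ 2) ∨
    x i ^ 2 ≤ 4 * (c ^ 2 - ∑ i, x i ^ 2 + below T x i) ∨
    (T.card = 9 ∧ 2 * x i * above T x i ≤ c * (c ^ 2 - ∑ i, x i ^ 2 + below T x i))

/-- standard classes satisfying `Tail` are nef -/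
theorem nef_std {r : ℕ} {P : Fin (r + 4) → Fin 2 → ℂ}
    (hP : AlgebraicIndependent ℚ (fun ij : Fin (r + 4) × Fin 2 => P ij.1 ij.2))
    {x : Fin (r + 4) → ℝ} {c : ℝ} (hx0 : ∀ i, 0 ≤ x i)
    (hstd : ∀ i j k, i ≠ j → i ≠ k → j ≠ k → x i + x j + x k ≤ c)
    (hD0 : ∑ i, x i ^ 2 ≤ c ^ 2) {T : Finset (Fin (r + 4))} (hT : Tail T c x)
    (G : MvPolynomial (Fin 3) ℂ) (e : ℕ) (u : Fin (r + 4) → ℕ) (hG : Irreducible G)
    (hGe : G.IsHomogeneous e) (hu : ∀ j, Ord (aff (P j)) (u j) G) :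
    ∑ i, x i * (u i : ℝ) ≤ c * e := by
  have hc := std_c hx0 hstd
  by_cases h1 : ip e u e u = -1 ∧ kk e u = 1
  · refine std_nonneg hx0 hstd (fun i => van_le hG.ne_zero hGe (hu i).1) ?_
    have h2 := h1.2
    unfold kk at h2
    have h3 : ((∑ i, u i : ℕ) : ℤ) ≤ ((3 * e : ℕ) : ℤ) := by
      push_cast
      linarith
    exact_mod_cast h3
  · have hI : Pool.Agent.R355.NegOrb.Irr P e u := ⟨⟨G, hG, hGe, hu⟩, h1⟩
    obtain ⟨h9, hT'⟩ := hT
    by_cases h10 : T.card = 9
    · refine coreB hP hc hx0 hstd h10 (by linarith) (fun i hi => ?_) e u hI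
      rcases hT' i hi with h | h | h
      · exact Or.inl h
      · exact Or.inr (Or.inl h)
      · exact Or.inr (Or.inr h.2)
    · refine coreA hP hc hx0 h9 (by linarith) (fun i hi => ?_) hI
      rcases hT' i hi with h | h | h
      · exact Or.inl h
      · exact Or.inr h
      · exact absurd h.1 h10

theorem exists_pts (n : ℕ) : ∃ P : Fin n → Fin 2 → ℂ,
    AlgebraicIndependent ℚ (fun ij : Fin n × Fin 2 => P ij.1 ij.2) := by
  obtain ⟨f, hf⟩ := Pool.Agent.R355.Round.exists_indep (Fin n × Fin 2)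
  exact ⟨fun i j => f (i, j), hf⟩

theorem pts_inj {n : ℕ} {P : Fin n → Fin 2 → ℂ}
    (hP : AlgebraicIndependent ℚ (fun ij : Fin n × Fin 2 => P ij.1 ij.2)) :
    ∀ i j, P i = P j → i = j := by
  intro i j h
  have h1 := hP.injective (a₁ := (i, 0)) (a₂ := (j, 0)) (congrFun h 0)
  exact congrArg Prod.fst h1

/-- **Standard classes at generic points**: the class `L = (d + 3; w + 1)` is effective by the
number of the conditions, of positive square, and satisfies `Tail`. -/
theorem std_rv {r : ℕ} {P : Fin (r + 4) → Fin 2 → ℂ}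
    (hP : AlgebraicIndependent ℚ (fun ij : Fin (r + 4) × Fin 2 => P ij.1 ij.2))
    {d : ℕ} {w : Fin (r + 4) → ℕ}
    (hstd : ∀ i j k, i ≠ j → i ≠ k → j ≠ k → w i + w j + w k ≤ d)
    {T : Finset (Fin (r + 4))} (hT : Tail T ((d : ℝ) + 3) (fun i => (up w i : ℝ)))
    (hbig : ∑ i, up w i ^ 2 < (d + 3) ^ 2)
    (heff : ∑ i, up w i ^ 2 + ∑ i, up w i < (d + 4) * (d + 5)) :
    Module.finrank ℂ ↥(Pool.Agent.H248R5.forms w P d) + ∑ i, (w i + 1).choose 2 =
      (d + 2).choose 2 := by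
  classical
  obtain ⟨u, hu⟩ : ∃ u, u = up w := ⟨_, rfl⟩
  rw [← hu] at hT hbig heff
  have hcount : ∑ i, (u i + 1).choose 2 < (d + 3 + 2).choose 2 := by
    have e1 : 2 * ∑ i, (u i + 1).choose 2 = ∑ i, u i ^ 2 + ∑ i, u i := by
      rw [Finset.mul_sum, ← Finset.sum_add_distrib]
      refine Finset.sum_congr rfl fun i _ => ?_
      rw [Pool.Agent.H879.Pos.cond_two]
      ring
    have e2 : 2 * (d + 3 + 2).choose 2 = (d + 4) * (d + 5) :=
      Pool.Agent.H879.Pos.cond_two (d + 4)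
    omega
  have h5 := Pool.Agent.W609.CR.le_dim u P (d + 3)
  have h6 : 0 < Module.finrank ℂ ↥(Pool.Agent.H248R5.forms u P (d + 3)) := by omega
  have hfin := Pool.Agent.H248R6.forms_finite u P (d + 3)
  obtain ⟨⟨f, hf⟩, hf0⟩ := Module.finrank_pos_iff_exists_ne_zero.1 h6
  have hf0' : f ≠ 0 := fun h => hf0 (Subtype.ext h)
  rw [← vs_eq_forms] at hf
  have hf' := hf
  unfold VS at hf'
  rw [Submodule.mem_inf, mem_homogeneousSubmodule, Submodule.restrictScalars_mem,
    Ideal.mem_iInf] at hf'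
  have key := rv (pts_inj hP) (D := d + 3) (by omega) (u := u) hf0' hf'.1 hf'.2 ?_ hbig
  · have e1 : (fun i => u i - 1) = w := by
      rw [hu]
      exact up_sub w
    have e2 : ∀ i, u i - 1 = w i := fun i => congrFun e1 i
    rw [e1] at key
    simp only [e2] at key
    exact key
  · intro G e c hG hGe hc
    have h7 := nef_std hP (x := fun i => (u i : ℝ)) (c := (d : ℝ) + 3)
      (fun i => Nat.cast_nonneg _) (fun i j k hij hik hjk => by
        have h8 := hstd i j k hij hik hjk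
        have h9 : u i + u j + u k ≤ d + 3 := by
          rw [hu]
          unfold up
          split_ifs <;> omega
        exact_mod_cast h9) (by exact_mod_cast hbig.le) hT G e c hG hGe hc
    have h10 : ((∑ i, u i * c i : ℕ) : ℝ) ≤ (((d + 3) * e : ℕ) : ℝ) := by
      push_cast
      exact h7
    exact_mod_cast h10

end Pool.Agent.H879.RV
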